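import Pool.Agent.Lib.MP_2b9f9a_al.TH.Stmts50

set_option autoImplicit false

namespace Pool.Agent.Lib.MP_2b9f9a_al.TH

universe u

open scoped commutatorElement

/-- ring form: a quadratic unit commutes with `x` -/
theorem ring77 {R : Type u} [Ring R] (a b x : R) (hab : a * b = 1)
    (hq : (a - 1) * (a - 1) = 0) (hc : x * (a * x * b) = (a * x * b) * x)
    (h2 : ∀ r : R, r + r = 0 → r = 0) (m : ℕ) (hm : ∀ r : R, (m : R) * r = 0 → r = 0)
    (hx : x ^ m = 1) : a * x = x * a := by
  obtain ⟨n, rfl⟩ : ∃ n : R, a = 1 + n := ⟨a - 1, by noncomm_ring⟩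
  have hn : n * n = 0 := by
    have : (1 + n - 1) * (1 + n - 1) = n * n := by noncomm_ring
    rw [← this]; exact hq
  have hb : b = 1 - n := by
    have h1 : (1 - n) * (1 + n) = 1 := by
      have : (1 - n) * (1 + n) = 1 - n * n := by noncomm_ring
      rw [this, hn, sub_zero]
    calc b = ((1 - n) * (1 + n)) * b := by rw [h1, one_mul]
      _ = (1 - n) * ((1 + n) * b) := by rw [mul_assoc]
      _ = 1 - n := by rw [hab, mul_one]
  subst hb
  have h1 : (1 - n) * (1 + n) = 1 := by
    have : (1 - n) * (1 + n) = 1 - n * n := by noncomm_ring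
    rw [this, hn, sub_zero]
  set D : R := n * x - x * n with hD
  -- y' = (1-n) x (1+n) commutes with x
  have hc' : ((1 - n) * x * (1 + n)) * x = x * ((1 - n) * x * (1 + n)) := by
    have e1 : (1 - n) * (x * ((1 + n) * x * (1 - n))) * (1 + n)
        = ((1 - n) * x * (1 + n)) * x * ((1 - n) * (1 + n)) := by noncomm_ring
    have e2 : (1 - n) * (((1 + n) * x * (1 - n)) * x) * (1 + n)
        = ((1 - n) * (1 + n)) * x * ((1 - n) * x * (1 + n)) := by noncomm_ring
    rw [h1, mul_one] at e1
    rw [h1, one_mul] at e2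
    rw [← e1, ← e2, hc]
  have hDx : D * x = x * D := by
    have e : (D * x - x * D) + (D * x - x * D) = 0 := by
      have e3 : (D * x - x * D) + (D * x - x * D)
          = (((1 + n) * x * (1 - n)) * x - x * ((1 + n) * x * (1 - n)))
            - (((1 - n) * x * (1 + n)) * x - x * ((1 - n) * x * (1 + n))) := by
        rw [hD]; noncomm_ring
      rw [e3, hc, hc', sub_self, sub_self, sub_zero]
    exact sub_eq_zero.mp (h2 _ e)
  have hpow : ∀ k : ℕ, n * x ^ (k + 1) = x ^ (k + 1) * n + ((k + 1 : ℕ) : R) * (x ^ k * D) := by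
    intro k
    induction k with
    | zero => simp [hD]
    | succ k ih =>
      have hxD : x ^ k * D * x = x ^ (k + 1) * D := by
        rw [mul_assoc, hDx, ← mul_assoc, ← pow_succ]
      calc n * x ^ (k + 1 + 1) = (n * x ^ (k + 1)) * x := by rw [pow_succ x (k + 1), mul_assoc]
        _ = x ^ (k + 1) * (n * x) + ((k + 1 : ℕ) : R) * (x ^ k * D * x) := by
            rw [ih, add_mul, mul_assoc, mul_assoc]
        _ = x ^ (k + 1) * (x * n + D) + ((k + 1 : ℕ) : R) * (x ^ (k + 1) * D) := by
            rw [hxD, hD]; congr 2; noncomm_ring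
        _ = x ^ (k + 1 + 1) * n + ((k + 1 + 1 : ℕ) : R) * (x ^ (k + 1) * D) := by
            rw [mul_add, ← mul_assoc, ← pow_succ, add_assoc]
            congr 1
            push_cast
            noncomm_ring
  have hD0 : D = 0 := by
    rcases m with _ | m
    · apply hm; simp
    · have e := hpow m
      rw [hx, mul_one, one_mul] at e
      have e' : ((m + 1 : ℕ) : R) * (x ^ m * D) = 0 := by
        have : n + ((m + 1 : ℕ) : R) * (x ^ m * D) = n + 0 := by rw [add_zero]; exact e.symm
        exact add_left_cancel this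
      have e2 := hm _ e'
      calc D = x ^ (m + 1) * D := by rw [hx, one_mul]
        _ = x * (x ^ m * D) := by rw [pow_succ', mul_assoc]
        _ = 0 := by rw [e2, mul_zero]
  have : n * x = x * n := sub_eq_zero.mp hD0
  rw [add_mul, mul_add, one_mul, mul_one, this]

/-- group form of the quadratic lemma -/
theorem quad77 (p : ℕ) [Fact p.Prime] (hp2 : p ≠ 2) {G : Type u} [Group G]
    (V : Subgroup G) (hV : V.Normal) (hab : Ab V) (hpV : IsPGroup p V) (a x : G)
    (h1 : ∀ v ∈ V, a * ⁅a, v⁆ = ⁅a, v⁆ * a)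
    (h2 : ∀ v ∈ V, ⁅x, a * x * a⁻¹⁆ * v = v * ⁅x, a * x * a⁻¹⁆)
    (h3 : ∃ m : ℕ, m.Coprime p ∧ ∀ v ∈ V, x ^ m * v = v * x ^ m) :
    ∀ v ∈ V, ⁅a, x⁆ * v = v * ⁅a, x⁆ := by
  intro v0 hv0
  classical
  let iV : CommGroup V := { (inferInstance : Group V) with
    mul_comm := fun u w => Subtype.ext (hab u u.2 w w.2) }
  have hpp : p.Prime := Fact.out
  let f : G → AddMonoid.End (Additive V) := fun g =>
    { toFun := fun w => Additive.ofMul ⟨g * ((Additive.toMul w : V) : G) * g⁻¹,
        hV.conj_mem _ (Additive.toMul w : V).2 g⟩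
      map_zero' := by
        apply Additive.toMul.injective
        apply Subtype.ext
        simp
      map_add' := fun w z => by
        apply Additive.toMul.injective
        apply Subtype.ext
        simp }
  have fval : ∀ g (w : Additive V), ((Additive.toMul (f g w) : V) : G)
      = g * ((Additive.toMul w : V) : G) * g⁻¹ := fun g w => rfl
  have ext1 : ∀ w z : Additive V, ((Additive.toMul w : V) : G) = ((Additive.toMul z : V) : G) →
      w = z := fun w z h => Additive.toMul.injective (Subtype.ext h)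
  have mulap : ∀ (r s : AddMonoid.End (Additive V)) (w : Additive V), (r * s) w = r (s w) :=
    fun _ _ _ => rfl
  have fmul : ∀ g h, f (g * h) = f g * f h := by
    intro g h
    ext1 w
    apply ext1
    rw [fval, mulap, fval, fval]
    group
  have fone : f 1 = 1 := by
    ext1 w
    apply ext1
    rw [fval]
    simp
  have fcent : ∀ g, (∀ v ∈ V, g * v = v * g) → f g = 1 := by
    intro g hg
    ext1 w
    apply ext1
    rw [fval, hg _ (Additive.toMul w : V).2, mul_assoc, mul_inv_cancel, mul_one]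
    rfl
  have fcent' : ∀ g, f g = 1 → ∀ v ∈ V, g * v = v * g := by
    intro g hg v hv
    have := fval g (Additive.ofMul ⟨v, hv⟩)
    rw [hg] at this
    have h' : v = g * v * g⁻¹ := this
    calc g * v = (g * v * g⁻¹) * g := by group
      _ = v * g := by rw [← h']
  have fpow : ∀ g (k : ℕ), f (g ^ k) = f g ^ k := by
    intro g k
    induction k with
    | zero => simp [fone]
    | succ k ih => rw [pow_succ, fmul, ih, pow_succ]
  -- torsion
  have tors : ∀ (k : ℕ), k.Coprime p → ∀ w : Additive V, k • w = 0 → w = 0 := by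
    intro k hk w hw
    have h' : (Additive.toMul w : V) ^ k = 1 := by
      have := congrArg Additive.toMul hw
      simpa using this
    obtain ⟨j, hj⟩ := hpV (Additive.toMul w : V)
    have hd : orderOf (Additive.toMul w : V) ∣ 1 := by
      rw [← Nat.Coprime.gcd_eq_one (Nat.Coprime.pow_right j hk)]
      exact Nat.dvd_gcd (orderOf_dvd_of_pow_eq_one h') (orderOf_dvd_of_pow_eq_one hj)
    have h1' : (Additive.toMul w : V) = 1 := orderOf_eq_one_iff.mp (Nat.dvd_one.mp hd)
    exact Additive.toMul.injective h1'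
  have tors' : ∀ (k : ℕ), k.Coprime p → ∀ r : AddMonoid.End (Additive V),
      (k : AddMonoid.End (Additive V)) * r = 0 → r = 0 := by
    intro k hk r hr
    ext1 w
    apply tors k hk
    have := congrArg (fun (e : AddMonoid.End (Additive V)) => e w) hr
    simpa using this
  obtain ⟨m, hmp, hm⟩ := h3
  have key : f a * f x = f x * f a := by
    refine ring77 (f a) (f a⁻¹) (f x) ?_ ?_ ?_ ?_ m (tors' m hmp) ?_
    · rw [← fmul, mul_inv_cancel, fone]
    · ext1 w
      apply ext1
      have e1 : ((Additive.toMul ((f a - 1) w) : V) : G)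
          = ⁅a, ((Additive.toMul w : V) : G)⁆ := by
        have : (f a - 1) w = f a w - w := rfl
        rw [this]
        rw [commutatorElement_def]
        rw [toMul_sub]
        rw [div_eq_mul_inv]
        push_cast
        rw [fval]
      have e2 : ∀ z : Additive V, ((Additive.toMul ((f a - 1) z) : V) : G)
          = a * ((Additive.toMul z : V) : G) * a⁻¹ * ((Additive.toMul z : V) : G)⁻¹ := by
        intro z
        have : (f a - 1) z = f a z - z := rfl
        rw [this, toMul_sub, div_eq_mul_inv]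
        push_cast
        rw [fval]
      rw [mulap, e2, e1, h1 _ (Additive.toMul w : V).2]
      have e3 : ∀ c : G, c * a * a⁻¹ * c⁻¹ = 1 := fun c => by group
      rw [e3]
      rfl
    · have hg := fcent _ h2
      have e : f (x * (a * x * a⁻¹)) = f (⁅x, a * x * a⁻¹⁆) * f ((a * x * a⁻¹) * x) := by
        rw [← fmul, commutatorElement_def]
        congr 1
        group
      rw [hg, one_mul] at e
      rw [fmul, fmul, fmul, fmul, fmul, fmul] at e
      exact e
    · intro r hr
      have h2p : (2 : ℕ).Coprime p := by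
        rw [Nat.coprime_primes Nat.prime_two hpp]
        exact fun h => hp2 h.symm
      apply tors' 2 h2p
      rw [← hr]
      push_cast
      exact two_mul r
    · rw [← fpow]
      exact fcent _ hm
  have fin : f ⁅a, x⁆ = 1 := by
    have e : f (⁅a, x⁆) * f (x * a) = f (a * x) := by
      rw [← fmul, commutatorElement_def]
      congr 1
      group
    rw [fmul a x, key, ← fmul x a] at e
    have e' : f (x * a) * f ((x * a)⁻¹) = 1 := by rw [← fmul, mul_inv_cancel, fone]
    calc f ⁅a, x⁆ = f ⁅a, x⁆ * (f (x * a) * f ((x * a)⁻¹)) := by rw [e', mul_one]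
      _ = (f ⁅a, x⁆ * f (x * a)) * f ((x * a)⁻¹) := by rw [mul_assoc]
      _ = 1 := by rw [e, e']
  exact fcent' _ fin v0 hv0

/-- StEnd from StCent, StKab, StRepl, StJsub, StNorm -/
theorem stEnd_77 (hCent : StCent.{u}) (hKab : StKab.{u}) (hRepl : StRepl.{u}) (hJsub : StJsub.{u})
    (hNorm : StNorm.{u}) : StEnd.{u} := by
  intro p G _ _ _ P U K hp2 S
  have hpp : p.Prime := Fact.out
  obtain ⟨-, V, hVn, hVab, hVp, hVU, hCV⟩ := hCent p G P U K S
  have hK := hKab p G P U K S
  obtain ⟨S0, hS0⟩ := S.syl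
  have hPp : IsPGroup p P := by rw [← hS0]; exact S0.isPGroup'
  have hUn : U.Normal := S.isO.1
  have hKn : K.Normal := S.nor
  have hUP := S.le
  -- elements of U commute with V
  have hUV : ∀ y ∈ U, ∀ v ∈ V, y * v = v * y := by
    intro y hy v hv
    rw [← hCV] at hy
    exact ((Subgroup.mem_centralizer_iff.mp hy) v hv).symm
  have hVU' : ∀ y : G, (∀ v ∈ V, y * v = v * y) → y ∈ U := by
    intro y hy
    rw [← hCV]
    exact Subgroup.mem_centralizer_iff.mpr (fun v hv => (hy v hv).symm)
  -- 1. JJ P is not contained in U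
  have hJ : ¬ JJ P ≤ U := by
    intro hle
    have e := hJsub G P U hUP hle
    have hn := (hNorm p G U).2
    have htop : Subgroup.normalizer (U : Set G) = ⊤ := Subgroup.normalizer_eq_top U
    rw [htop, e] at hn
    have htop2 : Subgroup.normalizer (JJ P : Set G) = ⊤ := top_le_iff.mp hn
    have hnc := S.minc.2.1.2
    rw [htop2] at hnc
    apply S.minc.2.2
    obtain ⟨L, hLn, hLp, k, hk⟩ := hnc
    refine ⟨L.map (Subgroup.topEquiv (G := G)).toMonoidHom, ?_, ?_, k, ?_⟩
    · exact hLn.map _ (Subgroup.topEquiv (G := G)).surjective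
    · rw [Nat.card_congr (L.equivMapOfInjective _ (Subgroup.topEquiv (G := G)).injective).toEquiv.symm]
      exact hLp
    · rw [← hk]
      exact Subgroup.index_map_equiv L (Subgroup.topEquiv (G := G))
  -- 2. some maximal abelian A is not in U
  have hA0 : ∃ A : Subgroup G, MaxAb P A ∧ ¬ A ≤ Subgroup.centralizer (V : Set G) := by
    by_contra hcon
    push Not at hcon
    apply hJ
    refine iSup_le (fun A => ?_)
    have := hcon A.1 A.2
    rwa [hCV] at this
  -- 3. replacement
  obtain ⟨A, hA, hAV, hVA⟩ := hRepl p G P V hPp (hVU.trans hUP) hVn hVab hA0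
  obtain ⟨a, haA, haU⟩ : ∃ a ∈ A, a ∉ U := by
    by_contra hcon
    push Not at hcon
    apply hAV
    rw [hCV]
    exact hcon
  -- 4. quadratic action
  have h1 : ∀ v ∈ V, a * ⁅a, v⁆ = ⁅a, v⁆ * a := by
    intro v hv
    have hm : ⁅a, v⁆ ∈ A := by
      have : ⁅a, v⁆ = a * (v * a⁻¹ * v⁻¹) := by rw [commutatorElement_def]; group
      rw [this]
      exact A.mul_mem haA (hVA v hv _ (A.inv_mem haA))
    exact hA.2.1 a haA _ hm
  have hVpg : IsPGroup p V := by
    intro v
    refine ⟨1, ?_⟩
    apply Subtype.ext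
    rw [pow_one]
    push_cast
    exact hVp v v.2
  -- 5. [a, x] in U for x in K
  have h5 : ∀ x ∈ K, ⁅a, x⁆ ∈ U := by
    intro x hx
    apply hVU'
    apply quad77 p hp2 V hVn hVab hVpg a x h1
    · intro v hv
      apply hUV _ _ v hv
      rw [commutatorElement_def]
      exact hK x hx _ (hKn.conj_mem x hx a)
    · refine ⟨U.relIndex K, ?_, fun v hv => ?_⟩
      · exact ((Nat.Prime.coprime_iff_not_dvd hpp).mpr S.rel).symm
      · apply hUV _ _ v hv
        have hn : (U.subgroupOf K).Normal := by infer_instance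
        have := Subgroup.pow_index_mem (U.subgroupOf K) (⟨x, hx⟩ : K)
        rw [Subgroup.mem_subgroupOf] at this
        exact this
  -- 6. R
  let D : Subgroup G :=
    { carrier := {g | ∀ x ∈ K, ⁅g, x⁆ ∈ U}
      one_mem' := fun x _ => by simp
      mul_mem' := by
        intro g h hg hh x hx
        have e : ⁅g * h, x⁆ = g * ⁅h, x⁆ * g⁻¹ * ⁅g, x⁆ := by
          simp only [commutatorElement_def]; group
        rw [e]
        exact U.mul_mem (hUn.conj_mem _ (hh x hx) g) (hg x hx)
      inv_mem' := by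
        intro g hg x hx
        have e : ⁅g⁻¹, x⁆ = g⁻¹ * (⁅g, x⁆)⁻¹ * g⁻¹⁻¹ := by
          simp only [commutatorElement_def]; group
        rw [e]
        exact hUn.conj_mem _ (U.inv_mem (hg x hx)) g⁻¹ }
  have hD : ∀ g, g ∈ D ↔ ∀ x ∈ K, ⁅g, x⁆ ∈ U := fun g => Iff.rfl
  have hDn : D.Normal := by
    refine ⟨fun g hg c => ?_⟩
    rw [hD] at hg ⊢
    intro x hx
    have e : ⁅c * g * c⁻¹, x⁆ = c * ⁅g, c⁻¹ * x * c⁻¹⁻¹⁆ * c⁻¹ := by
      simp only [commutatorElement_def]; group
    rw [e]
    exact hUn.conj_mem _ (hg _ (hKn.conj_mem x hx c⁻¹)) c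
  have hUD : U ≤ D := by
    intro u hu
    rw [hD]
    intro x hx
    have e : ⁅u, x⁆ = u * (x * u⁻¹ * x⁻¹) := by rw [commutatorElement_def]; group
    rw [e]
    exact U.mul_mem hu (hUn.conj_mem _ (U.inv_mem hu) x)
  have hKP : K ⊔ P = ⊤ := by
    rw [← Subgroup.index_eq_one]
    obtain ⟨k, hk⟩ := S.ind
    have d1 : (K ⊔ P).index ∣ p ^ k := by
      rw [← hk]; exact Subgroup.index_dvd_of_le le_sup_left
    have d2 : (K ⊔ P).index ∣ P.index := Subgroup.index_dvd_of_le le_sup_right
    obtain ⟨j, -, hj⟩ := (Nat.dvd_prime_pow hpp).mp d1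
    rcases Nat.eq_zero_or_pos j with rfl | hjpos
    · simpa using hj
    · exfalso
      have : p ∣ P.index := by
        refine dvd_trans ?_ d2
        rw [hj]
        exact dvd_pow_self p hjpos.ne'
      rw [← hS0] at this
      exact S0.not_dvd_index this
  have hRn : (P ⊓ D).Normal := by
    rw [← Subgroup.normalizer_eq_top_iff, ← top_le_iff, ← hKP]
    have conjmem : ∀ g : G, (∀ r ∈ P ⊓ D, g * r * g⁻¹ ∈ P ⊓ D) →
        (∀ r ∈ P ⊓ D, g⁻¹ * r * g ∈ P ⊓ D) → g ∈ Subgroup.normalizer ((P ⊓ D : Subgroup G) : Set G) := by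
      intro g hg hg'
      rw [Subgroup.mem_normalizer_iff]
      intro h
      refine ⟨fun hh => hg h hh, fun hh => ?_⟩
      have := hg' _ hh
      have e : g⁻¹ * (g * h * g⁻¹) * g = h := by group
      rwa [e] at this
    refine sup_le ?_ ?_
    · have key : ∀ g ∈ K, ∀ r ∈ P ⊓ D, g * r * g⁻¹ ∈ P ⊓ D := by
        intro g hg r hr
        have hc : ⁅g, r⁆ ∈ U := by
          have := (hD r).mp hr.2 g hg
          rw [← commutatorElement_inv]
          exact U.inv_mem this
        have e : g * r * g⁻¹ = ⁅g, r⁆ * r := by rw [commutatorElement_def]; group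
        rw [e]
        exact (P ⊓ D).mul_mem ⟨hUP hc, hUD hc⟩ hr
      intro g hg
      apply conjmem g (key g hg)
      intro r hr
      have := key g⁻¹ (K.inv_mem hg) r hr
      rwa [inv_inv] at this
    · have key : ∀ g ∈ P, ∀ r ∈ P ⊓ D, g * r * g⁻¹ ∈ P ⊓ D := by
        intro g hg r hr
        exact ⟨P.mul_mem (P.mul_mem hg hr.1) (P.inv_mem hg), hDn.conj_mem _ hr.2 g⟩
      intro g hg
      apply conjmem g (key g hg)
      intro r hr
      have := key g⁻¹ (P.inv_mem hg) r hr
      rwa [inv_inv] at this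
  have hRp : IsPGroup p (P ⊓ D : Subgroup G) := hPp.to_le inf_le_left
  exact haU (S.isO.2.2 _ hRn hRp ⟨hA.1 haA, (hD a).mpr h5⟩)

end Pool.Agent.Lib.MP_2b9f9a_al.TH
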