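import Mathlib

/-!
Frobenius' normal p-complement theorem (helper93).
-/

namespace Thomp93

open Subgroup MulAction
open scoped Pointwise commutatorElement

/-- `N_G(X)/C_G(X)` is a p-group for every p-subgroup `X`. -/
def NCp (p : ℕ) (G : Type*) [Group G] : Prop :=
  ∀ X : Subgroup G, IsPGroup p X → ∀ g ∈ normalizer (X : Set G),
    ∃ k : ℕ, g ^ p ^ k ∈ centralizer (X : Set G)

/-- `G` has a normal p-complement. -/
def PNil (p : ℕ) (G : Type*) [Group G] : Prop :=
  ∃ K : Subgroup G, K.Normal ∧ (Nat.card K).Coprime p ∧ ∃ k : ℕ, K.index = p ^ k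

section

variable {G : Type*} [Group G] {p : ℕ}

theorem NCp.subgroup (h : NCp p G) (M : Subgroup G) : NCp p M := by
  intro X hX g hg
  have hX' : IsPGroup p (X.map M.subtype) := hX.map _
  have hg' : (g : G) ∈ normalizer ((X.map M.subtype : Subgroup G) : Set G) := by
    rw [mem_normalizer_iff] at hg ⊢
    intro y
    constructor
    · rintro ⟨x, hx, rfl⟩
      exact ⟨g * x * g⁻¹, (hg x).1 hx, by simp⟩
    · rintro ⟨x, hx, hxy⟩
      have hy : y = ((g⁻¹ * x * g : M) : G) := by
        have : (x : G) = g * y * (g : G)⁻¹ := hxy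
        simp [this, mul_assoc]
      refine ⟨g⁻¹ * x * g, ?_, hy.symm⟩
      rw [SetLike.mem_coe, hg (g⁻¹ * x * g)]
      simpa [mul_assoc] using hx
  obtain ⟨k, hk⟩ := h _ hX' g hg'
  refine ⟨k, ?_⟩
  rw [mem_centralizer_iff] at hk ⊢
  intro x hx
  have := hk x ⟨x, hx, rfl⟩
  exact Subtype.ext (by simpa using this)

variable [Finite G] [Fact p.Prime]

/-- A Sylow subgroup of the normaliser and the centraliser generate the normaliser. -/
theorem NCp.split (h : NCp p G) (X : Subgroup G) (hX : IsPGroup p X)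
    (S : Sylow p (normalizer (X : Set G))) (n : normalizer (X : Set G)) :
    ∃ s ∈ S, ∃ c : normalizer (X : Set G), (c : G) ∈ centralizer (X : Set G) ∧ n = s * c := by
  set f := X.normalizerMonoidHom with hf
  have hR : IsPGroup p f.range := by
    rintro ⟨_, m, rfl⟩
    obtain ⟨k, hk⟩ := h X hX m m.2
    refine ⟨k, Subtype.ext ?_⟩
    have : m ^ p ^ k ∈ f.ker := by
      rw [hf, normalizerMonoidHom_ker, mem_subgroupOf]
      simpa using hk
    rw [MonoidHom.mem_ker, map_pow] at this
    simpa using this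
  have hT := (S.mapSurjective f.rangeRestrict_surjective).is_maximal' (Q := ⊤)
    (hR.of_equiv Subgroup.topEquiv.symm) le_top
  have hmem : f.rangeRestrict n ∈ (S.mapSurjective f.rangeRestrict_surjective : Subgroup f.range) := by
    rw [← hT]; trivial
  rw [Sylow.coe_mapSurjective] at hmem
  obtain ⟨s, hs, hsn⟩ := hmem
  refine ⟨s, hs, s⁻¹ * n, ?_, by group⟩
  have hker : s⁻¹ * n ∈ f.ker := by
    rw [MonoidHom.mem_ker, map_mul, map_inv]
    have : f s = f n := by simpa [Subtype.ext_iff] using hsn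
    rw [this]; simp
  rw [hf, normalizerMonoidHom_ker, mem_subgroupOf] at hker
  exact hker

omit [Finite G] [Fact p.Prime] in
theorem mem_smul_iff (g x : G) (P : Sylow p G) : x ∈ g • P ↔ g⁻¹ * x * g ∈ P := by
  rw [← SetLike.mem_coe, Sylow.coe_smul, Set.mem_smul_set_iff_inv_smul_mem]
  simp

/-- In a finite p-group, a proper subgroup is properly contained in its normaliser. -/
theorem exists_normalize {P : Subgroup G} (hP : IsPGroup p P) {D : Subgroup G} (hD : D ≤ P)
    (hne : D ≠ P) : ∃ x ∈ P, x ∉ D ∧ x ∈ normalizer (D : Set G) := by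
  have hnil : Group.IsNilpotent P := hP.isNilpotent
  have hlt : D.subgroupOf P < ⊤ := by
    rw [lt_top_iff_ne_top, Ne, subgroupOf_eq_top]
    exact fun h => hne (le_antisymm hD h)
  have h1 := Group.normalizerCondition_of_isNilpotent (G := P) (D.subgroupOf P) hlt
  obtain ⟨x, hx, hxD⟩ := SetLike.exists_of_lt h1
  refine ⟨x, x.2, hxD, ?_⟩
  rw [mem_normalizer_iff] at hx ⊢
  intro y
  constructor
  · intro hy
    exact (hx ⟨y, hD hy⟩).1 hy
  · intro hy
    have hyP : y ∈ P := by
      have := P.mul_mem (P.mul_mem (P.inv_mem x.2) (hD hy)) x.2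
      simpa [mul_assoc] using this
    exact (hx ⟨y, hyP⟩).2 hy

/-- Two Sylow subgroups are conjugate by an element centralising their intersection. -/
theorem NCp.conj (h : NCp p G) (m : ℕ) : ∀ P Q : Sylow p G,
    Nat.card G ≤ Nat.card ((P : Subgroup G) ⊓ Q : Subgroup G) + m →
    ∃ c ∈ centralizer (((P : Subgroup G) ⊓ Q : Subgroup G) : Set G), c • Q = P := by
  induction m with
  | zero =>
    intro P Q hc
    have h1 : ((P : Subgroup G) ⊓ Q : Subgroup G) = ⊤ := by
      rw [← card_eq_iff_eq_top]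
      exact le_antisymm (card_le_card_group _) hc
    have hP : (P : Subgroup G) = ⊤ := top_le_iff.1 (h1 ▸ inf_le_left)
    have hQ : (Q : Subgroup G) = ⊤ := top_le_iff.1 (h1 ▸ inf_le_right)
    exact ⟨1, one_mem _, by rw [one_smul]; exact Sylow.ext (hQ.trans hP.symm)⟩
  | succ m ih =>
    intro P Q hc
    by_cases hPQ : Q = P
    · exact ⟨1, one_mem _, by rw [one_smul, hPQ]⟩
    set D : Subgroup G := (P : Subgroup G) ⊓ Q with hD
    have hDP : D ≤ P := inf_le_left
    have hDQ : D ≤ Q := inf_le_right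
    have hcard : Nat.card P = Nat.card Q := by
      rw [P.card_eq_multiplicity, Q.card_eq_multiplicity]
    have hneP : D ≠ P := by
      intro h0
      have hPle : (P : Subgroup G) ≤ Q := h0 ▸ hDQ
      exact hPQ (Sylow.ext (eq_of_le_of_card_ge hPle hcard.ge).symm)
    have hneQ : D ≠ Q := by
      intro h0
      have hQle : (Q : Subgroup G) ≤ P := h0 ▸ hDP
      exact hPQ (Sylow.ext (eq_of_le_of_card_ge hQle hcard.le))
    have hDp : IsPGroup p D := P.2.to_le hDP
    -- the Sylow subgroups of the normaliser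
    obtain ⟨S, hS⟩ := IsPGroup.exists_le_sylow
      (P := (P : Subgroup G).subgroupOf (normalizer (D : Set G)))
      (P.2.comap_of_injective _ (subtype_injective _))
    obtain ⟨T, hT⟩ := IsPGroup.exists_le_sylow
      (P := (Q : Subgroup G).subgroupOf (normalizer (D : Set G)))
      (Q.2.comap_of_injective _ (subtype_injective _))
    obtain ⟨n, hn⟩ := exists_smul_eq (normalizer (D : Set G)) S T
    obtain ⟨s, hs, c, hc0, hsc⟩ := h.split D hDp S n⁻¹
    have hcT : c⁻¹ • S = T := by
      have h1 : n = c⁻¹ * s⁻¹ := by rw [← inv_inj, hsc]; group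
      rw [← hn, h1, mul_smul]
      congr 1
      rw [Sylow.smul_eq_iff_mem_normalizer.2]
      exact inv_mem (le_normalizer hs) |> fun h => by simpa using h
    obtain ⟨R, hR⟩ := (S.2.map (normalizer (D : Set G)).subtype).exists_le_sylow
    -- `D < P ⊓ R`
    have hlt : ∀ (P R : Sylow p G), D ≤ P → D ≠ P →
        (∀ x ∈ P, x ∈ normalizer (D : Set G) → x ∈ R) →
        D ≤ (P : Subgroup G) ⊓ R ∧
          Nat.card G ≤ Nat.card ((P : Subgroup G) ⊓ R : Subgroup G) + m := by
      intro P R hDP hne hR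
      have hle : D ≤ (P : Subgroup G) ⊓ R :=
        le_inf hDP (fun x hx => hR x (hDP hx) (le_normalizer hx))
      refine ⟨hle, ?_⟩
      obtain ⟨x, hxP, hxD, hxN⟩ := exists_normalize P.2 hDP hne
      have hltc : Nat.card D < Nat.card ((P : Subgroup G) ⊓ R : Subgroup G) := by
        refine lt_of_le_of_ne (card_le_of_le hle) fun he => hxD ?_
        rw [eq_of_le_of_card_ge hle he.ge]
        exact ⟨hxP, hR x hxP hxN⟩
      omega
    obtain ⟨hD1, hc1⟩ := hlt P R hDP hneP (fun x hx hxN =>
      hR ⟨⟨x, hxN⟩, hS hx, rfl⟩)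
    obtain ⟨c1, hc1m, hc1R⟩ := ih P R hc1
    obtain ⟨hD2, hc2⟩ := hlt Q ((c : G)⁻¹ • R) hDQ hneQ (fun x hx hxN => by
      have hxT : (⟨x, hxN⟩ : normalizer (D : Set G)) ∈ c⁻¹ • S := by
        rw [hcT]; exact hT hx
      rw [mem_smul_iff] at hxT ⊢
      exact hR ⟨_, hxT, by simp⟩)
    obtain ⟨c2, hc2m, hc2R⟩ := ih Q ((c : G)⁻¹ • R) hc2
    have hcen1 : c1 ∈ centralizer (D : Set G) :=
      centralizer_le (fun x hx => hD1 hx) hc1m
    have hcen2 : c2 ∈ centralizer (D : Set G) :=
      centralizer_le (fun x hx => hD2 hx) hc2m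
    refine ⟨c1 * c * c2⁻¹, mul_mem (mul_mem hcen1 hc0) (inv_mem hcen2), ?_⟩
    rw [← hc2R, ← hc1R]
    simp [mul_smul]

/-- Fusion in `P` is controlled by `P`. -/
theorem NCp.fusion (h : NCp p G) (P : Sylow p G) (x g : G) (hx : x ∈ P)
    (hg : g * x * g⁻¹ ∈ P) : ∃ u ∈ P, g * x * g⁻¹ = u * x * u⁻¹ := by
  obtain ⟨c, hc, hcP⟩ := h.conj (Nat.card G) P (g⁻¹ • P) (by omega)
  have hxc : x * c = c * x := by
    rw [mem_centralizer_iff] at hc
    refine hc x ⟨hx, ?_⟩
    show x ∈ g⁻¹ • P
    rw [mem_smul_iff]; simpa using hg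
  have hm : c * g⁻¹ ∈ normalizer ((P : Subgroup G) : Set G) := by
    have : (c * g⁻¹) • P = P := by rw [mul_smul]; exact hcP
    exact Sylow.smul_eq_iff_mem_normalizer.1 this
  obtain ⟨u, hu, c', hc', hsplit⟩ := h.split P P.2 (P.subtype le_normalizer)
    (⟨c * g⁻¹, hm⟩⁻¹)
  refine ⟨u, hu, ?_⟩
  have h1 : g * c⁻¹ = u * c' := by
    have := congrArg (Subtype.val) hsplit
    simpa using this
  rw [mem_centralizer_iff] at hc'
  have h2 := hc' x hx
  have h3 : g = u * c' * c := by rw [← h1]; group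
  have h4 : c * x * c⁻¹ = x := by rw [← hxc]; group
  have h5 : (c' : G) * x * (c' : G)⁻¹ = x := by rw [← h2]; group
  calc g * x * g⁻¹ = u * (c' * (c * x * c⁻¹) * (c' : G)⁻¹) * (u : G)⁻¹ := by rw [h3]; group
    _ = u * x * (u : G)⁻¹ := by rw [h4, h5]

/-- The focal subgroup is the derived subgroup of `P`. -/
theorem NCp.focal (h : NCp p G) (P : Sylow p G) :
    focalSubgroup (P : Subgroup G) ≤ ⁅(P : Subgroup G), (P : Subgroup G)⁆ := by
  rw [focalSubgroup_def, closure_le]
  rintro _ ⟨hz, x, hx, u, rfl⟩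
  have hx' : x⁻¹ ∈ P := inv_mem hx
  have hz' : u * x⁻¹ * u⁻¹ ∈ P := by
    have : x⁻¹ * ⁅x, u⁆ ∈ P := mul_mem hx' hz
    simpa [commutatorElement_def, mul_assoc] using this
  obtain ⟨v, hv, hvx⟩ := h.fusion P x⁻¹ u hx' hz'
  have h1 : ⁅x, u⁆ = ⁅x, v⁆ := by
    rw [commutatorElement_def, commutatorElement_def]
    calc x * u * x⁻¹ * u⁻¹ = x * (u * x⁻¹ * u⁻¹) := by group
      _ = x * (v * x⁻¹ * v⁻¹) := by rw [hvx]
      _ = x * v * x⁻¹ * v⁻¹ := by group
  rw [h1]
  exact commutator_mem_commutator hx hv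

omit [Finite G] [Fact p.Prime] in
/-- A normal p-complement of a normal subgroup of p-power index. -/
theorem PNil.of_normal {M : Subgroup G} [hM : M.Normal] {k : ℕ} (hk : M.index = p ^ k)
    (h : PNil p M) : PNil p G := by
  obtain ⟨K, hK, hKp, j, hj⟩ := h
  refine ⟨K.map M.subtype, ?_, ?_, j + k, ?_⟩
  · refine ⟨fun x hx g => ?_⟩
    obtain ⟨y, hy, rfl⟩ := hx
    have hgM : g * y * g⁻¹ ∈ M := hM.conj_mem y y.2 g
    refine ⟨⟨g * y * g⁻¹, hgM⟩, ?_, rfl⟩
    have hord : orderOf (⟨g * y * g⁻¹, hgM⟩ : M) = orderOf y := by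
      rw [← orderOf_coe, ← orderOf_coe y]
      show orderOf (g * (y : G) * g⁻¹) = _
      rw [← MulAut.conj_apply, MulEquiv.orderOf_eq]
    have hcop : (orderOf (⟨g * y * g⁻¹, hgM⟩ : M)).Coprime p := by
      rw [hord]
      have h1 : orderOf y ∣ Nat.card K := by
        have := orderOf_dvd_natCard (⟨y, hy⟩ : K)
        rwa [← orderOf_coe] at this
      exact Nat.Coprime.coprime_dvd_left h1 hKp
    rw [SetLike.mem_coe, ← QuotientGroup.eq_one_iff, ← orderOf_eq_one_iff]
    have hd1 : orderOf ((⟨g * y * g⁻¹, hgM⟩ : M) : M ⧸ K) ∣ orderOf (⟨g * y * g⁻¹, hgM⟩ : M) :=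
      orderOf_map_dvd (QuotientGroup.mk' K) _
    have hd2 : orderOf ((⟨g * y * g⁻¹, hgM⟩ : M) : M ⧸ K) ∣ p ^ j := by
      rw [← hj, index_eq_card]; exact orderOf_dvd_natCard _
    exact Nat.eq_one_of_dvd_coprimes (Nat.Coprime.pow_right j hcop) hd1 hd2
  · rwa [card_map_of_injective M.subtype_injective]
  · rw [index_map_subtype, hj, hk, pow_add]

/-- **Frobenius' normal p-complement theorem.** -/
theorem frobenius (n : ℕ) : ∀ (G : Type*) [Group G] [Finite G] (p : ℕ) [Fact p.Prime],
    Nat.card G ≤ n → NCp p G → PNil p G := by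
  induction n with
  | zero =>
    intro G _ _ p _ hn
    exact absurd hn (by have := Nat.card_pos (α := G); omega)
  | succ n ih =>
    intro G _ _ p _ hn h
    obtain ⟨P⟩ := (inferInstance : Nonempty (Sylow p G))
    by_cases hP : (P : Subgroup G) = ⊥
    · refine ⟨⊤, inferInstance, ?_, 0, by simp⟩
      have h1 := P.not_dvd_index
      rw [hP, index_bot] at h1
      rw [card_top]
      exact ((Nat.Prime.coprime_iff_not_dvd Fact.out).2 h1).symm
    · have hne : focalSubgroup (P : Subgroup G) ≠ P := by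
        intro he
        have hle : (P : Subgroup G) ≤ ⁅(P : Subgroup G), (P : Subgroup G)⁆ :=
          he.ge.trans (h.focal P)
        have hnt : Nontrivial P := (nontrivial_iff_ne_bot _).2 hP
        have hnil : Group.IsNilpotent P := P.2.isNilpotent
        have hsol : Group.IsSolvable P := inferInstance
        have hlt := Group.IsSolvable.commutator_lt_top_of_nontrivial P
        have : (_root_.commutator P).map (P : Subgroup G).subtype = P := by
          rw [map_subtype_commutator]
          refine le_antisymm ?_ hle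
          rw [commutator_le]
          intro a ha b hb
          exact mul_mem (mul_mem (mul_mem ha hb) (inv_mem ha)) (inv_mem hb)
        have h2 : _root_.commutator P = ⊤ := by
          apply map_injective (P : Subgroup G).subtype_injective
          rw [this, ← MonoidHom.range_eq_map, range_subtype]
        exact absurd h2 hlt.ne
      set M := (transferFocal (P : Subgroup G)).ker with hMdef
      have hMinf : M ⊓ P = focalSubgroup (P : Subgroup G) :=
        ker_transferFocal_inf_eq_focalSubgroup P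
      have hMt : M ≠ ⊤ := by
        intro he
        rw [he, top_inf_eq] at hMinf
        exact hne hMinf.symm
      have hQ : IsPGroup p (G ⧸ M) :=
        (P.2.to_quotient (focalSubgroupOf (P : Subgroup G))).of_equiv
          (transferFocal.quotientKerMulEquivQuotientFocalSubroupOf P).symm
      obtain ⟨k, hk⟩ := hQ.exists_card_eq
      rw [← index_eq_card] at hk
      have hcard : Nat.card M ≤ n := by
        have h1 := M.card_mul_index
        have h2 : M.index ≠ 1 := fun h => hMt (index_eq_one.1 h)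
        have h3 : 0 < M.index := Nat.pos_of_ne_zero M.index_ne_zero_of_finite
        have h4 : 0 < Nat.card M := Nat.card_pos
        have h5 : Nat.card M * 2 ≤ Nat.card G := by
          rw [← h1]; exact Nat.mul_le_mul_left _ (by omega)
        omega
      exact PNil.of_normal hk (ih M p hcard (h.subgroup M))

end

end Thomp93
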