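import Pool.Agent.Lib.MP_2b9f9a_al.TH.Stmts50
import Pool.Agent.Lib.MP_2b9f9a_al.TH.T1_93

/-!
Frobenius' normal complement theorem in the words of `Stmts50` (helper93).
-/

namespace Pool.Agent.Lib.MP_2b9f9a_al.TH

open Subgroup

universe u

theorem nc_iff_93 {p : ℕ} [hp : Fact p.Prime] {G : Type u} [Group G] :
    NC p G ↔ Thomp93.PNil p G := by
  constructor
  · rintro ⟨K, h1, h2, h3⟩
    exact ⟨K, h1, ((Nat.Prime.coprime_iff_not_dvd hp.out).2 h2).symm, h3⟩
  · rintro ⟨K, h1, h2, h3⟩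
    exact ⟨K, h1, (Nat.Prime.coprime_iff_not_dvd hp.out).1 h2.symm, h3⟩

theorem stFrob_93 : StFrob.{u} := by
  intro p G _ _ hp hL
  rw [nc_iff_93]
  refine Thomp93.frobenius (Nat.card G) G p le_rfl ?_
  intro X hX g hg
  refine ⟨(Nat.card G).factorization p, ?_⟩
  rw [mem_centralizer_iff]
  intro u hu
  by_cases hb : X = ⊥
  · rw [hb] at hu
    rw [SetLike.mem_coe, mem_bot] at hu
    rw [hu]; simp
  · refine (hL X hX hb (g ^ p ^ (Nat.card G).factorization p) (pow_mem hg _) ?_ u hu).symm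
    intro hd
    set a := (Nat.card G).factorization p with ha
    have h2 : orderOf (g ^ p ^ a) ∣ Nat.card G / p ^ a := by
      apply orderOf_dvd_of_pow_eq_one
      rw [← pow_mul, Nat.mul_div_cancel' (Nat.ordProj_dvd _ _)]
      exact pow_card_eq_one'
    exact Nat.not_dvd_ordCompl hp.out Nat.card_pos.ne' (hd.trans h2)

end Pool.Agent.Lib.MP_2b9f9a_al.TH
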