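import Pool.Agent.Lib.MP_2b9f9a_al.TH.Stmts50

/-!
# Thompson's theorem: the functors `Z1` and `JJ` (helper9)
-/

set_option autoImplicit false

namespace Pool.Agent.Lib.MP_2b9f9a_al.TH

universe u

open Subgroup

section maps9

variable {G G' : Type u} [Group G] [Group G'] (f : G →* G') (H : Subgroup G)

theorem card_map9 (hf : Set.InjOn f H) {A : Subgroup G} (hA : A ≤ H) :
    Nat.card (A.map f) = Nat.card A := by
  apply Nat.card_congr
  symm
  refine Equiv.ofBijective (fun a => ⟨f a, mem_map_of_mem f a.2⟩) ⟨fun a b hab => ?_, ?_⟩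
  · exact Subtype.ext (hf (hA a.2) (hA b.2) (congrArg Subtype.val hab))
  · rintro ⟨_, a, ha, rfl⟩
    exact ⟨⟨a, ha⟩, rfl⟩

theorem comap_inf_map9 (A : Subgroup G') (hA : A ≤ H.map f) :
    (A.comap f ⊓ H).map f = A := by
  ext y
  constructor
  · rintro ⟨x, ⟨hx, _⟩, rfl⟩
    exact hx
  · intro hy
    obtain ⟨x, hx, rfl⟩ := hA hy
    exact ⟨x, ⟨hy, hx⟩, rfl⟩

theorem Ab_map9 {A : Subgroup G} (hA : Ab A) : Ab (A.map f) := by
  rintro _ ⟨x, hx, rfl⟩ _ ⟨y, hy, rfl⟩
  rw [← map_mul, ← map_mul, hA x hx y hy]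

theorem Ab_comap9 (hf : Set.InjOn f H) {A : Subgroup G'} (hA : Ab A) :
    Ab (A.comap f ⊓ H) := by
  rintro x ⟨hx, hxH⟩ y ⟨hy, hyH⟩
  apply hf (H.mul_mem hxH hyH) (H.mul_mem hyH hxH)
  rw [map_mul, map_mul]
  exact hA _ hx _ hy

theorem MaxAb_map9 (hf : Set.InjOn f H) {A : Subgroup G} (hA : MaxAb H A) :
    MaxAb (H.map f) (A.map f) := by
  refine ⟨map_mono hA.1, Ab_map9 f hA.2.1, fun B hB hBa => ?_⟩
  rw [card_map9 f H hf hA.1, ← comap_inf_map9 f H B hB, card_map9 f H hf inf_le_right]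
  exact hA.2.2 _ inf_le_right (Ab_comap9 f H hf hBa)

theorem MaxAb_comap9 (hf : Set.InjOn f H) {B : Subgroup G'} (hB : MaxAb (H.map f) B) :
    MaxAb H (B.comap f ⊓ H) := by
  refine ⟨inf_le_right, Ab_comap9 f H hf hB.2.1, fun A hA hAa => ?_⟩
  have := hB.2.2 (A.map f) (map_mono hA) (Ab_map9 f hAa)
  rw [card_map9 f H hf hA] at this
  rwa [← card_map9 f H hf (A := B.comap f ⊓ H) inf_le_right, comap_inf_map9 f H B hB.1]

theorem JJ_map9 (hf : Set.InjOn f H) : (JJ H).map f = JJ (H.map f) := by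
  unfold JJ
  rw [Subgroup.map_iSup]
  apply le_antisymm
  · refine iSup_le fun A => ?_
    exact le_iSup (fun A : {A : Subgroup G' // MaxAb (H.map f) A} => A.1)
      ⟨A.1.map f, MaxAb_map9 f H hf A.2⟩
  · refine iSup_le fun B => ?_
    rw [← comap_inf_map9 f H B.1 B.2.1]
    exact le_iSup (fun A : {A : Subgroup G // MaxAb H A} => A.1.map f)
      ⟨B.1.comap f ⊓ H, MaxAb_comap9 f H hf B.2⟩

theorem Z1_map9 (p : ℕ) (hf : Set.InjOn f H) : (Z1 p H).map f = Z1 p (H.map f) := by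
  ext y
  constructor
  · rintro ⟨z, ⟨hz, hc, hp⟩, rfl⟩
    refine ⟨mem_map_of_mem f hz, ?_, by rw [← map_pow, hp, map_one]⟩
    rintro _ ⟨h, hh, rfl⟩
    rw [← map_mul, ← map_mul, hc h hh]
  · rintro ⟨⟨z, hz, rfl⟩, hc, hp⟩
    refine ⟨z, ⟨hz, fun h hh => ?_, ?_⟩, rfl⟩
    · apply hf (H.mul_mem hh hz) (H.mul_mem hz hh)
      rw [map_mul, map_mul]
      exact hc _ (mem_map_of_mem f hh)
    · apply hf (H.pow_mem hz p) H.one_mem
      rw [map_pow, hp, map_one]

end maps9

section basic9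

variable {G : Type u} [Group G] (H : Subgroup G)

theorem Z1_le9 (p : ℕ) : Z1 p H ≤ H := fun _ hz => hz.1

theorem JJ_le9 : JJ H ≤ H := iSup_le fun A => A.2.1

theorem le_JJ9 {H A : Subgroup G} (hA : MaxAb H A) : A ≤ JJ H :=
  le_iSup (fun A : {A : Subgroup G // MaxAb H A} => A.1) ⟨A, hA⟩

theorem exists_MaxAb9 [Finite G] : ∃ A, MaxAb H A := by
  classical
  have hne : ({A : Subgroup G | A ≤ H ∧ Ab A} : Set (Subgroup G)).Nonempty :=
    ⟨⊥, bot_le, by rintro x hx y hy; rw [mem_bot.1 hx, mem_bot.1 hy]⟩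
  obtain ⟨A, hA, hmax⟩ := Set.exists_max_image {A : Subgroup G | A ≤ H ∧ Ab A}
    (fun A => Nat.card A) (Set.toFinite _) hne
  exact ⟨A, hA.1, hA.2, fun B hB hBa => hmax B ⟨hB, hBa⟩⟩

theorem Z1_ne_bot9 [Finite G] {p : ℕ} [Fact p.Prime] (hp : IsPGroup p H) (hne : H ≠ ⊥) :
    Z1 p H ≠ ⊥ := by
  have : Nontrivial H := (nontrivial_iff_ne_bot H).2 hne
  have hc : Nontrivial (center H) := hp.center_nontrivial
  have hpc : IsPGroup p (center H) := hp.to_subgroup _
  obtain ⟨n, hn⟩ := hpc.exists_card_eq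
  have hdvd : p ∣ Nat.card (center H) := by
    rw [hn]
    apply dvd_pow_self
    rintro rfl
    rw [pow_zero] at hn
    have := Finite.one_lt_card (α := center H)
    omega
  obtain ⟨z, hz⟩ := exists_prime_orderOf_dvd_card' p hdvd
  intro hbot
  have hmem : ((z : H) : G) ∈ Z1 p H := by
    refine ⟨(z : H).2, fun h hh => ?_, ?_⟩
    · have := mem_center_iff.1 z.2 ⟨h, hh⟩
      exact congrArg Subtype.val this
    · have : z ^ p = 1 := by rw [← hz]; exact pow_orderOf_eq_one z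
      have h2 := congrArg (fun w : center H => ((w : H) : G)) this
      simpa using h2
  rw [hbot, mem_bot] at hmem
  have : z = 1 := Subtype.ext (Subtype.ext hmem)
  rw [this, orderOf_one] at hz
  exact (Fact.out : p.Prime).one_lt.ne hz

theorem JJ_ne_bot9 [Finite G] (hne : H ≠ ⊥) : JJ H ≠ ⊥ := by
  obtain ⟨A, hA⟩ := exists_MaxAb9 H
  obtain ⟨x, hx, hx1⟩ := (bot_or_exists_ne_one H).resolve_left hne
  have h1 : Nat.card (zpowers x) ≤ Nat.card A := hA.2.2 _ (by rwa [zpowers_le]) (by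
    rintro _ ⟨a, rfl⟩ _ ⟨b, rfl⟩
    exact (Commute.refl x).zpow_zpow a b)
  intro hbot
  have hA0 : A = ⊥ := by
    rw [eq_bot_iff, ← hbot]
    exact le_JJ9 hA
  have h2 : 1 < Nat.card (zpowers x) := by
    have : Nontrivial (zpowers x) := by
      rw [nontrivial_iff_ne_bot]
      simpa using hx1
    exact Finite.one_lt_card
  rw [hA0, card_bot] at h1
  omega

/-- if `JJ P ≤ U ≤ P` then the maximal abelian subgroups are the same -/
theorem JJ_sub9 [Finite G] {P U : Subgroup G} (hUP : U ≤ P) (hJ : JJ P ≤ U) : JJ U = JJ P := by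
  have key : ∀ A : Subgroup G, MaxAb U A ↔ MaxAb P A := by
    intro A
    obtain ⟨A0, hA0⟩ := exists_MaxAb9 P
    have hA0U : A0 ≤ U := (le_JJ9 hA0).trans hJ
    constructor
    · intro hA
      refine ⟨hA.1.trans hUP, hA.2.1, fun B hB hBa => ?_⟩
      exact (hA0.2.2 B hB hBa).trans (hA.2.2 A0 hA0U hA0.2.1)
    · intro hA
      exact ⟨(le_JJ9 hA).trans hJ, hA.2.1, fun B hB hBa => hA.2.2 B (hB.trans hUP) hBa⟩
  apply le_antisymm
  · exact iSup_le fun A => le_JJ9 ((key _).1 A.2)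
  · exact iSup_le fun A => le_JJ9 ((key _).2 A.2)

theorem conj_inj9 (g : G) (S : Set G) : Set.InjOn (MulAut.conj g).toMonoidHom S :=
  fun _ _ _ _ h => (MulAut.conj g).injective h

theorem mem_nor9 {X : Subgroup G} {g : G} :
    g ∈ normalizer (X : Set G) ↔ X.map (MulAut.conj g).toMonoidHom = X :=
  mem_normalizer_iff_map_conj_eq

theorem norm_Z9 (p : ℕ) (P : Subgroup G) :
    normalizer (P : Set G) ≤ normalizer (Z1 p P : Set G) := by
  intro g hg
  rw [mem_nor9] at hg ⊢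
  rw [Z1_map9 _ _ _ (conj_inj9 g _), hg]

theorem norm_J9 (P : Subgroup G) :
    normalizer (P : Set G) ≤ normalizer (JJ P : Set G) := by
  intro g hg
  rw [mem_nor9] at hg ⊢
  rw [JJ_map9 _ _ (conj_inj9 g _), hg]

end basic9

section Frattini9

variable {G : Type u} [Group G] [Finite G] {p : ℕ} [Fact p.Prime]

/-- Frattini argument: the normalizer of `X M / M`. -/
theorem normalizer_map9 (M X : Subgroup G) [M.Normal] (hM : ¬ p ∣ Nat.card M)
    (hX : IsPGroup p X) :
    normalizer ((X.map (QuotientGroup.mk' M) : Subgroup (G ⧸ M)) : Set (G ⧸ M)) =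
      (normalizer (X : Set G)).map (QuotientGroup.mk' M) := by
  apply le_antisymm _ (le_normalizer_map _)
  intro y hy
  obtain ⟨g, rfl⟩ := QuotientGroup.mk'_surjective M y
  set L : Subgroup G := (X.map (QuotientGroup.mk' M)).comap (QuotientGroup.mk' M) with hL
  have hXL : X ≤ L := le_comap_map _ _
  have hML : M ≤ L := by
    intro m hm
    rw [hL, mem_comap, QuotientGroup.mk'_apply, (QuotientGroup.eq_one_iff m).2 hm]
    exact one_mem _
  have hLs : L = X ⊔ M := by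
    rw [hL, comap_map_eq, QuotientGroup.ker_mk']
  have hgL : ∀ l, l ∈ L → g * l * g⁻¹ ∈ L := by
    intro l hl
    rw [hL, mem_comap] at hl ⊢
    rw [map_mul, map_mul, map_inv]
    exact (mem_normalizer_iff.1 hy _).1 hl
  -- the order of `L`
  obtain ⟨n, hn⟩ := hX.exists_card_eq
  have hcop : (Nat.card M).Coprime (Nat.card X) := by
    rw [hn]
    exact (((Fact.out : p.Prime).coprime_iff_not_dvd.2 hM).pow_left n).symm
  have hinf : M ⊓ X = ⊥ := disjoint_iff.1 (disjoint_of_coprime_natCard hcop)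
  have hrel : ∀ Y : Subgroup G, Y ≤ L → Nat.card Y = Nat.card X → Y.relIndex L = Nat.card M := by
    intro Y hY hc
    have h1 : (⊥ : Subgroup G).relIndex Y * Y.relIndex L = (⊥ : Subgroup G).relIndex L :=
      relIndex_mul_relIndex _ _ _ bot_le hY
    have h2 : (⊥ : Subgroup G).relIndex M * M.relIndex L = (⊥ : Subgroup G).relIndex L :=
      relIndex_mul_relIndex _ _ _ bot_le hML
    have h3 : M.relIndex L = Nat.card X := by
      rw [hLs, relIndex_sup_right, ← inf_relIndex_right, hinf, relIndex_bot_left]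
    rw [relIndex_bot_left, ← h2, relIndex_bot_left, h3, hc, mul_comm (Nat.card M)] at h1
    exact Nat.eq_of_mul_eq_mul_left Nat.card_pos h1
  set Y : Subgroup G := X.map (MulAut.conj g).toMonoidHom with hYdef
  have hYL : Y ≤ L := by
    rintro _ ⟨x, hx, rfl⟩
    exact hgL x (hXL hx)
  have hYc : Nat.card Y = Nat.card X := card_map9 _ X (conj_inj9 g _) le_rfl
  have hYp : IsPGroup p Y := hX.map _
  have hXi : ¬ p ∣ (X.subgroupOf L).index := by
    rw [← relIndex, hrel X hXL rfl]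
    exact hM
  have hYi : ¬ p ∣ (Y.subgroupOf L).index := by
    rw [← relIndex, hrel Y hYL hYc]
    exact hM
  obtain ⟨l, hl⟩ := MulAction.exists_smul_eq L
    (IsPGroup.toSylow (P := X.subgroupOf L) hX.comap_subtype hXi)
    (IsPGroup.toSylow (P := Y.subgroupOf L) hYp.comap_subtype hYi)
  have hlX : ∀ x ∈ X, (l : G) * x * (l : G)⁻¹ ∈ Y := by
    intro x hx
    have h1 : (l * ⟨x, hXL hx⟩ * l⁻¹ : L) ∈ (l • (IsPGroup.toSylow (P := X.subgroupOf L)
        hX.comap_subtype hXi) : Sylow p L) := by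
      show (l * ⟨x, hXL hx⟩ * l⁻¹ : L) ∈ ((l • (IsPGroup.toSylow (P := X.subgroupOf L)
        hX.comap_subtype hXi) : Sylow p L) : Subgroup L)
      rw [Sylow.coe_subgroup_smul]
      exact ⟨⟨x, hXL hx⟩, hx, rfl⟩
    rw [hl] at h1
    exact h1
  have hnor : g⁻¹ * l ∈ normalizer (X : Set G) := by
    have : Finite (X : Set G) := inferInstanceAs (Finite X)
    apply mem_normalizer_fintype
    intro x hx
    obtain ⟨x', hx', he⟩ := hlX x hx
    have : g⁻¹ * ↑l * x * (g⁻¹ * ↑l)⁻¹ = x' := by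
      have he' : g * x' * g⁻¹ = ↑l * x * (↑l)⁻¹ := he
      calc g⁻¹ * ↑l * x * (g⁻¹ * ↑l)⁻¹ = g⁻¹ * (↑l * x * (↑l)⁻¹) * g := by group
        _ = x' := by rw [← he']; group
    rw [this]
    exact hx'
  obtain ⟨x, hx, hxl⟩ : ∃ x ∈ X, QuotientGroup.mk' M x = QuotientGroup.mk' M l := l.2
  refine ⟨x * (g⁻¹ * l)⁻¹, mul_mem (le_normalizer hx) (inv_mem hnor), ?_⟩
  rw [map_mul, hxl, map_inv, map_mul, map_inv, mul_inv_rev, inv_inv, mul_inv_cancel_left]

theorem mk'_injOn9 (M P : Subgroup G) [M.Normal] (hM : ¬ p ∣ Nat.card M) (hP : IsPGroup p P) :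
    Set.InjOn (QuotientGroup.mk' M) P := by
  intro x hx y hy hxy
  obtain ⟨n, hn⟩ := hP.exists_card_eq
  have hcop : (Nat.card M).Coprime (Nat.card P) := by
    rw [hn]
    exact (((Fact.out : p.Prime).coprime_iff_not_dvd.2 hM).pow_left n).symm
  have hinf : M ⊓ P = ⊥ := disjoint_iff.1 (disjoint_of_coprime_natCard hcop)
  have h1 : x⁻¹ * y ∈ M ⊓ P := by
    refine ⟨?_, P.mul_mem (P.inv_mem hx) hy⟩
    exact QuotientGroup.eq.1 hxy
  rw [hinf, mem_bot] at h1
  exact (inv_mul_eq_one.1 h1)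

end Frattini9

/-! ## the rows -/

theorem stZmap_9 : StZmap.{u} := fun p _ _ _ _ f P hf => (Z1_map9 f P p hf).symm

theorem stJmap_9 : StJmap.{u} := fun _ _ _ _ _ _ f P hf => (JJ_map9 f P hf).symm

theorem stZne_9 : StZne.{u} := fun _ _ _ _ _ P hP hne => Z1_ne_bot9 P hP hne

theorem stJne_9 : StJne.{u} := fun _ _ _ _ _ P _ hne => JJ_ne_bot9 P hne

theorem stJle_9 : StJle.{u} := fun _ _ _ P => JJ_le9 P

theorem stJsub_9 : StJsub.{u} := fun _ _ _ _ _ hUP hJ => JJ_sub9 hUP hJ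

theorem stNorm_9 : StNorm.{u} := fun p _ _ _ P => ⟨norm_Z9 p P, norm_J9 P⟩

theorem stNquot_9 : StNquot.{u} := fun _ _ _ _ _ M X _ hM hX => normalizer_map9 M X hM hX

/-- `NC` passes to images of subgroups -/
theorem NC_map9 (hmap : StNCmap.{u}) {p : ℕ} [Fact p.Prime] {G G' : Type u} [Group G] [Finite G]
    [Group G'] [Finite G'] (f : G →* G') (H : Subgroup G) (h : NC p H) : NC p (H.map f) :=
  hmap p H (H.map f) (f.subgroupMap H) (f.subgroupMap_surjective H) h

/-- the normalizer in a subgroup -/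
theorem NC_nor_sub9 (hmap : StNCmap.{u}) (hle : StNCle.{u}) {p : ℕ} [Fact p.Prime] {G : Type u}
    [Group G] [Finite G] (N : Subgroup G) (X : Subgroup N)
    (h : NC p (normalizer ((X.map N.subtype : Subgroup G) : Set G))) :
    NC p (normalizer (X : Set N)) := by
  have h1 : (normalizer (X : Set N)).map N.subtype ≤
      normalizer ((X.map N.subtype : Subgroup G) : Set G) := le_normalizer_map _
  have h2 := hle p G _ _ h1 h
  have e := (normalizer (X : Set N)).equivMapOfInjective N.subtype N.subtype_injective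
  exact hmap p _ _ e.symm.toMonoidHom e.symm.surjective h2

theorem subgroupOf_map9 {G : Type u} [Group G] {S N : Subgroup G} (h : S ≤ N) :
    (S.subgroupOf N).map N.subtype = S := by
  rw [subgroupOf_map_subtype, inf_eq_left.2 h]

theorem stHsub_9 (hmap : StNCmap.{u}) (hle : StNCle.{u}) : StHsub.{u} := by
  intro p G _ _ _ S N hSN h
  have hinj : Set.InjOn N.subtype (S.subgroupOf N) := N.subtype_injective.injOn
  constructor
  · apply NC_nor_sub9 hmap hle
    rw [Z1_map9 _ _ _ hinj, subgroupOf_map9 hSN]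
    exact h.1
  · apply NC_nor_sub9 hmap hle
    rw [JJ_map9 _ _ hinj, subgroupOf_map9 hSN]
    exact h.2

/-- normalizer of a conjugate -/
theorem nor_conj9 {G : Type u} [Group G] (X : Subgroup G) (g : G) :
    normalizer ((X.map (MulAut.conj g).toMonoidHom : Subgroup G) : Set G) =
      (normalizer (X : Set G)).map (MulAut.conj g).toMonoidHom := by
  apply le_antisymm _ (le_normalizer_map _)
  have h1 : ∀ Y : Subgroup G, ∀ h : G, (Y.map (MulAut.conj h).toMonoidHom).map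
      (MulAut.conj h⁻¹).toMonoidHom = Y := by
    intro Y h
    rw [map_map]
    have : (MulAut.conj h⁻¹).toMonoidHom.comp (MulAut.conj h).toMonoidHom = MonoidHom.id G := by
      ext x
      show h⁻¹ * (h * x * h⁻¹) * h⁻¹⁻¹ = x
      group
    rw [this, map_id]
  have h2 := le_normalizer_map (H := X.map (MulAut.conj g).toMonoidHom)
    (MulAut.conj g⁻¹).toMonoidHom
  rw [h1] at h2
  have h3 := map_mono (f := (MulAut.conj g).toMonoidHom) h2
  have h4 := h1 (normalizer ((X.map (MulAut.conj g).toMonoidHom : Subgroup G) : Set G)) g⁻¹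
  rw [inv_inv] at h4
  rwa [h4] at h3

theorem stHconj_9 (hmap : StNCmap.{u}) : StHconj.{u} := by
  intro p G _ _ _ S g h
  constructor
  · rw [← Z1_map9 _ _ _ (conj_inj9 g _), nor_conj9]
    exact NC_map9 hmap _ _ h.1
  · rw [← JJ_map9 _ _ (conj_inj9 g _), nor_conj9]
    exact NC_map9 hmap _ _ h.2

theorem stHquot_9 (hmap : StNCmap.{u}) : StHquot.{u} := by
  intro p G _ _ _ M P _ hM hP h
  have hinj := mk'_injOn9 M P hM hP
  constructor
  · rw [← Z1_map9 _ _ _ hinj, normalizer_map9 M _ hM (hP.to_le (Z1_le9 P p))]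
    exact NC_map9 hmap _ _ h.1
  · rw [← JJ_map9 _ _ hinj, normalizer_map9 M _ hM (hP.to_le (JJ_le9 P))]
    exact NC_map9 hmap _ _ h.2

end Pool.Agent.Lib.MP_2b9f9a_al.TH
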