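import Pool.Agent.Lib.MP_2b9f9a_al.TH.Stmts50

set_option autoImplicit false

namespace Pool.Agent.Lib.MP_2b9f9a_al.TH

universe u

/-- no subgroup normalised by `P` strictly between `U` and `K` -/
theorem irr77 (hCent : StCent.{u}) (hHsub : StHsub.{u}) (hNCc : StNCcent.{u})
    (p : ℕ) (G : Type u) [Group G] [Finite G] [Fact p.Prime] (P U K : Subgroup G)
    (S : Sit p G P U K) (L : Subgroup G) (hUL : U ≤ L) (hLK : L ≤ K)
    (hPL : P ≤ Subgroup.normalizer (L : Set G)) (hne : L ≠ K) : L = U := by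
  have hpp : p.Prime := Fact.out
  obtain ⟨hcU, -⟩ := hCent p G P U K S
  obtain ⟨S0, hS0⟩ := S.syl
  have hPp : IsPGroup p P := by rw [← hS0]; exact S0.isPGroup'
  have hUn : U.Normal := S.isO.1
  have hcop : (U.relIndex K).Coprime p := ((Nat.Prime.coprime_iff_not_dvd hpp).mpr S.rel).symm
  have hpow : ∀ x ∈ K, x ^ (U.relIndex K) ∈ U := by
    intro x hx
    have hn : (U.subgroupOf K).Normal := by infer_instance
    have := Subgroup.pow_index_mem (U.subgroupOf K) (⟨x, hx⟩ : K)
    rw [Subgroup.mem_subgroupOf] at this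
    exact this
  -- elements of K of p-power order lie in U
  have hKU : ∀ x ∈ K, (∃ n : ℕ, x ^ p ^ n = 1) → x ∈ U := by
    rintro x hx ⟨n, hn⟩
    have hc : (U.relIndex K).Coprime (orderOf x) := by
      have hd : orderOf x ∣ p ^ n := orderOf_dvd_of_pow_eq_one hn
      exact Nat.Coprime.coprime_dvd_right hd (Nat.Coprime.pow_right n hcop)
    obtain ⟨m, hm⟩ := exists_pow_eq_self_of_coprime hc
    rw [← hm]
    exact U.pow_mem (hpow x hx) m
  -- H = L ⊔ P
  have hHtop : L ⊔ P ≠ ⊤ := by
    intro htop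
    apply hne
    apply le_antisymm hLK
    intro k hk
    have hkH : k ∈ ((L ⊔ P : Subgroup G) : Set G) := by rw [htop]; trivial
    rw [Subgroup.coe_mul_of_right_le_normalizer_left L P hPL] at hkH
    obtain ⟨l, hl, y, hy, rfl⟩ := Set.mem_mul.mp hkH
    have hyK : y ∈ K := by
      have := K.mul_mem (K.inv_mem (hLK hl)) hk
      rwa [inv_mul_cancel_left] at this
    have hyU : y ∈ U := by
      apply hKU y hyK
      obtain ⟨n, hn⟩ := hPp ⟨y, hy⟩
      refine ⟨n, ?_⟩
      have := congrArg (fun z : P => (z : G)) hn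
      simpa using this
    exact L.mul_mem hl (hUL hyU)
  have hcard : Nat.card (L ⊔ P : Subgroup G) < Nat.card G := by
    refine lt_of_le_of_ne (Subgroup.card_le_card_group _) (fun h => hHtop ?_)
    exact Subgroup.eq_top_of_card_eq _ h
  have hT := S.minc.1 (L ⊔ P : Subgroup G) hcard (S0.subtype (by rw [hS0]; exact le_sup_right))
  have hNC : NC p (L ⊔ P : Subgroup G) := by
    apply hT
    rw [Sylow.coe_subtype, hS0]
    exact hHsub p G P (L ⊔ P) le_sup_right S.minc.2.1
  have hc := hNCc p (L ⊔ P : Subgroup G) hNC (U.subgroupOf (L ⊔ P)) (by infer_instance)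
    (S.isO.2.1.comap_of_injective _ (Subgroup.subtype_injective _))
  -- p'-elements of L are trivial
  have hL1 : ∀ x ∈ L, ¬ p ∣ orderOf x → x = 1 := by
    intro x hx hpx
    have hxH : x ∈ L ⊔ P := (le_sup_left : L ≤ L ⊔ P) hx
    have hxU : x ∈ U := by
      apply hcU
      rw [Subgroup.mem_centralizer_iff]
      intro u hu
      have := hc ⟨x, hxH⟩ (by rwa [Subgroup.orderOf_mk]) ⟨u, (hUL.trans le_sup_left) hu⟩
        (by rw [Subgroup.mem_subgroupOf]; exact hu)
      have := congrArg (fun z : (L ⊔ P : Subgroup G) => (z : G)) this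
      exact this.symm
    obtain ⟨n, hn⟩ := S.isO.2.1 ⟨x, hxU⟩
    have hn' : x ^ p ^ n = 1 := by
      have := congrArg (fun z : U => (z : G)) hn
      simpa using this
    have hd : orderOf x ∣ p ^ n := orderOf_dvd_of_pow_eq_one hn'
    obtain ⟨j, -, hj⟩ := (Nat.dvd_prime_pow hpp).mp hd
    rcases Nat.eq_zero_or_pos j with rfl | hjpos
    · exact orderOf_eq_one_iff.mp (by simpa using hj)
    · exact absurd (by rw [hj]; exact dvd_pow_self p hjpos.ne') hpx
  apply le_antisymm _ hUL
  intro x hx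
  apply hKU x (hLK hx)
  obtain ⟨n, m, hpm, hm⟩ := Nat.exists_eq_pow_mul_and_not_dvd (orderOf_pos x).ne' p hpp.ne_one
  refine ⟨n, ?_⟩
  apply hL1 _ (L.pow_mem hx _)
  intro hd
  apply hpm
  refine dvd_trans hd ?_
  apply orderOf_dvd_of_pow_eq_one
  rw [← pow_mul, ← hm, pow_orderOf_eq_one]

theorem stKab_77 (hCent : StCent.{u}) (hHsub : StHsub.{u}) (hNCc : StNCcent.{u}) :
    StKab.{u} := by
  intro p G _ _ _ P U K S
  have hpp : p.Prime := Fact.out
  have hUn : U.Normal := S.isO.1
  have hKn : K.Normal := S.nor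
  have hirr := irr77 hCent hHsub hNCc p G P U K S
  obtain ⟨S0, hS0⟩ := S.syl
  have hPp : IsPGroup p P := by rw [← hS0]; exact S0.isPGroup'
  -- K ≠ U
  have hKU : U ≠ K := by
    intro h
    apply S.minc.2.2
    obtain ⟨k, hk⟩ := S.ind
    rw [← h] at hk
    obtain ⟨j, hj⟩ := (IsPGroup.iff_card).mp S.isO.2.1
    refine ⟨⊥, inferInstance, ?_, j + k, ?_⟩
    · rw [Subgroup.card_bot]; exact hpp.one_lt.ne' ∘ Nat.dvd_one.mp
    · rw [Subgroup.index_bot, ← Subgroup.card_mul_index U, hj, hk, pow_add]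
  set f := QuotientGroup.mk' U with hf
  have hfs : Function.Surjective f := QuotientGroup.mk'_surjective U
  set Kb : Subgroup (G ⧸ U) := K.map f with hKb
  have hKbn : Kb.Normal := hKn.map f hfs
  have hker : f.ker = U := QuotientGroup.ker_mk' U
  have hcomapK : Kb.comap f = K := by
    rw [hKb, Subgroup.comap_map_eq, hker, sup_eq_left.mpr S.UK]
  have hcardKb : Nat.card Kb = U.relIndex K := by
    rw [hKb, ← Subgroup.relIndex_ker, hker]
  have hpKb : ¬ p ∣ Nat.card Kb := by rw [hcardKb]; exact S.rel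
  have hKb1 : Nat.card Kb ≠ 1 := by
    intro h
    apply hKU
    apply le_antisymm S.UK
    rw [← hcomapK, Subgroup.card_eq_one.mp h]
    intro x hx
    rw [Subgroup.mem_comap, Subgroup.mem_bot] at hx
    rw [← hker]
    exact hx
  obtain ⟨q, hqp, hqd⟩ := Nat.exists_prime_and_dvd hKb1
  have hq : Fact q.Prime := ⟨hqp⟩
  let Q0 : Sylow q Kb := default
  set Q : Subgroup (G ⧸ U) := (Q0 : Subgroup Kb).map Kb.subtype with hQ
  have hNK : Subgroup.normalizer (Q : Set (G ⧸ U)) ⊔ Kb = ⊤ := Sylow.normalizer_sup_eq_top Q0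
  set N : Subgroup (G ⧸ U) := Subgroup.normalizer (Q : Set (G ⧸ U)) with hN
  have hNi : ¬ p ∣ N.index := by
    intro h
    apply hpKb
    refine dvd_trans h ?_
    have e1 : Nat.card N * N.index = Nat.card (G ⧸ U) := Subgroup.card_mul_index N
    have e2 : Nat.card Kb * Kb.index = Nat.card (G ⧸ U) := Subgroup.card_mul_index Kb
    have e3 : Kb.index ∣ Nat.card N := by
      rw [← Subgroup.relIndex_top_right, ← hNK, Subgroup.relIndex_sup_right]
      exact Subgroup.relIndex_dvd_card _ _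
    obtain ⟨t, ht⟩ := e3
    have hpos : 0 < Kb.index := Nat.pos_of_ne_zero Subgroup.index_ne_zero_of_finite
    refine ⟨t, ?_⟩
    have : Kb.index * (N.index * t) = Kb.index * Nat.card Kb := by
      rw [mul_comm Kb.index (Nat.card Kb), e2, ← e1, ht]
      ring
    exact (Nat.eq_of_mul_eq_mul_left hpos this).symm
  -- a fixed point
  let act : MulAction P ((G ⧸ U) ⧸ N) := MulAction.compHom _ (f.comp P.subtype)
  have hact : ∀ (x : P) (c : G ⧸ U), x • ((c : G ⧸ U) : (G ⧸ U) ⧸ N)
      = ((f (x : G) * c : G ⧸ U) : (G ⧸ U) ⧸ N) := fun x c => rfl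
  obtain ⟨pt, hpt⟩ := hPp.nonempty_fixed_point_of_prime_not_dvd_card ((G ⧸ U) ⧸ N)
    (by exact hNi)
  obtain ⟨c, rfl⟩ := QuotientGroup.mk_surjective pt
  have hc : ∀ x ∈ P, c⁻¹ * f x * c ∈ N := by
    intro x hx
    have h1 := hpt ⟨x, hx⟩
    rw [hact, eq_comm, QuotientGroup.eq, ← mul_assoc] at h1
    exact h1
  set Qc : Subgroup (G ⧸ U) := Q.map (MulAut.conj c).toMonoidHom with hQc
  have hmemQc : ∀ y, y ∈ Qc ↔ c⁻¹ * y * c ∈ Q := by
    intro y
    rw [hQc, Subgroup.mem_map]
    constructor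
    · rintro ⟨z, hz, rfl⟩
      have e : c⁻¹ * ((MulAut.conj c).toMonoidHom z) * c = z := by
        simp [MulAut.conj_apply]; group
      rw [e]; exact hz
    · intro h
      refine ⟨_, h, ?_⟩
      simp [MulAut.conj_apply]; group
  have hQKb : Q ≤ Kb := by
    rw [hQ]; exact Subgroup.map_subtype_le _
  have hQcK : Qc ≤ Kb := by
    intro y hy
    have h1 := hQKb ((hmemQc y).mp hy)
    have h2 := hKbn.conj_mem _ h1 c
    have e : c * (c⁻¹ * y * c) * c⁻¹ = y := by group
    rwa [e] at h2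
  have hL : Qc.comap f = K := by
    by_contra hne
    have h1 := hirr (Qc.comap f) (by
        intro u hu
        rw [Subgroup.mem_comap]
        have : f u = 1 := by rw [← MonoidHom.mem_ker, hker]; exact hu
        rw [this]; exact Qc.one_mem)
      (by
        rw [← hcomapK]; exact Subgroup.comap_mono hQcK)
      (by
        intro x hx
        rw [Subgroup.mem_normalizer_iff]
        intro h
        rw [Subgroup.mem_comap, Subgroup.mem_comap, hmemQc, hmemQc]
        have hn := Subgroup.mem_normalizer_iff.mp (hc x hx) (c⁻¹ * f h * c)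
        rw [hn]
        have e : c⁻¹ * f x * c * (c⁻¹ * f h * c) * (c⁻¹ * f x * c)⁻¹
            = c⁻¹ * f (x * h * x⁻¹) * c := by
          rw [map_mul, map_mul, map_inv]; group
        rw [e])
      hne
    -- Q nontrivial
    have hQ1 : Q ≠ ⊥ := by
      intro h
      have hQ0 : (Q0 : Subgroup Kb) = ⊥ := by
        rw [hQ] at h
        exact (Subgroup.map_eq_bot_iff_of_injective _ (Subgroup.subtype_injective _)).mp h
      have h2 : q ∣ Nat.card (Q0 : Subgroup Kb) := Q0.dvd_card_of_dvd_card hqd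
      rw [hQ0, Subgroup.card_bot] at h2
      exact hqp.one_lt.ne' (Nat.dvd_one.mp h2)
    apply hQ1
    rw [Subgroup.eq_bot_iff_forall]
    intro y hy
    obtain ⟨g, hg⟩ := hfs (c * y * c⁻¹)
    have hgL : g ∈ Qc.comap f := by
      rw [Subgroup.mem_comap, hmemQc, hg]
      have e : c⁻¹ * (c * y * c⁻¹) * c = y := by group
      rw [e]; exact hy
    rw [h1, ← hker, MonoidHom.mem_ker, hg] at hgL
    have e : y = c⁻¹ * (c * y * c⁻¹) * c := by group
    rw [e, hgL]; group
  -- Kb is a q-group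
  have hKbQ : Kb = Qc := by
    rw [hKb, ← hL, Subgroup.map_comap_eq_self_of_surjective hfs]
  have hKbq : IsPGroup q Kb := by
    rw [hKbQ, hQc, hQ]
    exact (Q0.isPGroup'.map _).map _
  have hnt : Nontrivial Kb := by
    rw [← Finite.one_lt_card_iff_nontrivial]
    have := Nat.card_pos (α := Kb)
    omega
  have hcn := hKbq.center_nontrivial
  set C : Subgroup (G ⧸ U) := Kb ⊓ Subgroup.centralizer (Kb : Set (G ⧸ U)) with hC
  have hCn : C.Normal := by
    rw [hC]; infer_instance
  have hCne : ∃ z ∈ C, z ≠ 1 := by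
    obtain ⟨z, hz⟩ := exists_ne (1 : Subgroup.center Kb)
    refine ⟨((z : Kb) : G ⧸ U), ⟨(z : Kb).2, ?_⟩, ?_⟩
    · refine Subgroup.mem_centralizer_iff.mpr (fun h hh => ?_)
      have := Subgroup.mem_center_iff.mp z.2 ⟨h, hh⟩
      exact congrArg (fun w : Kb => (w : G ⧸ U)) this
    · intro h
      apply hz
      apply Subtype.ext
      apply Subtype.ext
      exact h
  have hL2 : C.comap f = K := by
    by_contra hne
    have hn2 : (C.comap f).Normal := hCn.comap f
    have h1 := hirr (C.comap f) (by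
        intro u hu
        rw [Subgroup.mem_comap]
        have : f u = 1 := by rw [← MonoidHom.mem_ker, hker]; exact hu
        rw [this]; exact C.one_mem)
      (by
        rw [← hcomapK]; exact Subgroup.comap_mono inf_le_left)
      (by rw [Subgroup.normalizer_eq_top]; exact le_top)
      hne
    obtain ⟨z, hz, hz1⟩ := hCne
    obtain ⟨g, hg⟩ := hfs z
    apply hz1
    have hgL : g ∈ C.comap f := by rw [Subgroup.mem_comap, hg]; exact hz
    rw [h1, ← hker, MonoidHom.mem_ker, hg] at hgL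
    exact hgL
  intro x hx y hy
  rw [← hL2] at hx
  have hx2 := Subgroup.mem_centralizer_iff.mp (Subgroup.mem_comap.mp hx).2
  have h3 := hx2 (f y) (Subgroup.mem_map_of_mem f hy)
  rw [← hker, MonoidHom.mem_ker, map_mul, map_mul, map_mul, map_inv, map_inv, ← h3]
  group

end Pool.Agent.Lib.MP_2b9f9a_al.TH
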