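import Mathlib

set_option autoImplicit false

/-!
# Thompson's theorem: statements of the rows (helper50)
-/

namespace Pool.Agent.Lib.MP_2b9f9a_al.TH

universe u

/-! ## Definitions -/

/-- a normal complement of the Sylow subgroups for `p` -/
def NC (p : ℕ) (G : Type u) [Group G] : Prop :=
  ∃ K : Subgroup G, K.Normal ∧ ¬ p ∣ Nat.card K ∧ ∃ k : ℕ, K.index = p ^ k

/-- elements of order prime to `p` normalising a nontrivial `p`-subgroup centralise it -/
def Loc (p : ℕ) (G : Type u) [Group G] : Prop :=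
  ∀ X : Subgroup G, IsPGroup p X → X ≠ ⊥ →
    ∀ x ∈ Subgroup.normalizer (X : Set G), ¬ p ∣ orderOf x → ∀ u ∈ X, x * u = u * x

/-- pairwise commuting elements -/
def Ab {G : Type u} [Group G] (A : Subgroup G) : Prop := ∀ x ∈ A, ∀ y ∈ A, x * y = y * x

/-- the elements of order dividing `p` of the centre of `P` -/
def Z1 {G : Type u} [Group G] (p : ℕ) (P : Subgroup G) : Subgroup G where
  carrier := {z | z ∈ P ∧ (∀ x ∈ P, x * z = z * x) ∧ z ^ p = 1}
  one_mem' := ⟨P.one_mem, fun x _ => by simp, one_pow p⟩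
  mul_mem' := by
    rintro a b ⟨ha, ha', hap⟩ ⟨hb, hb', hbp⟩
    refine ⟨P.mul_mem ha hb, fun x hx => ?_, ?_⟩
    · rw [← mul_assoc, ha' x hx, mul_assoc, hb' x hx, mul_assoc]
    · have h : Commute a b := hb' a ha
      rw [h.mul_pow, hap, hbp, one_mul]
  inv_mem' := by
    rintro a ⟨ha, ha', hap⟩
    refine ⟨P.inv_mem ha, fun x hx => ?_, by rw [inv_pow, hap, inv_one]⟩
    have h : Commute x a := ha' x hx
    exact h.inv_right

/-- `A` is an abelian subgroup of `P` of maximal order -/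
def MaxAb {G : Type u} [Group G] (P A : Subgroup G) : Prop :=
  A ≤ P ∧ Ab A ∧ ∀ B : Subgroup G, B ≤ P → Ab B → Nat.card B ≤ Nat.card A

/-- the Thompson subgroup: generated by the abelian subgroups of maximal order -/
def JJ {G : Type u} [Group G] (P : Subgroup G) : Subgroup G :=
  ⨆ A : {A : Subgroup G // MaxAb P A}, A.1

/-- `NC` for the two normalizers -/
def Hyp {G : Type u} [Group G] (p : ℕ) (P : Subgroup G) : Prop :=
  NC p (Subgroup.normalizer (Z1 p P : Set G)) ∧ NC p (Subgroup.normalizer (JJ P : Set G))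

/-- no nontrivial normal subgroup of order prime to `p` -/
def NoPrime (p : ℕ) (G : Type u) [Group G] : Prop :=
  ∀ M : Subgroup G, M.Normal → ¬ p ∣ Nat.card M → M = ⊥

/-- `U` contains every normal `p`-subgroup -/
def IsO (p : ℕ) {G : Type u} [Group G] (U : Subgroup G) : Prop :=
  U.Normal ∧ IsPGroup p U ∧ ∀ X : Subgroup G, X.Normal → IsPGroup p X → X ≤ U

/-! ## Rows: basics of `NC` (helper20) -/

def StNCsub : Prop := ∀ (p : ℕ) (G : Type u) [Group G] [Finite G] [Fact p.Prime],
  NC p G → ∀ H : Subgroup G, NC p H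

/-- `H ≤ L`, both as subgroups -/
def StNCle : Prop := ∀ (p : ℕ) (G : Type u) [Group G] [Finite G] [Fact p.Prime]
  (H L : Subgroup G), H ≤ L → NC p L → NC p H

def StNCmap : Prop := ∀ (p : ℕ) (G G' : Type u) [Group G] [Finite G] [Group G'] [Finite G']
  [Fact p.Prime] (f : G →* G'), Function.Surjective f → NC p G → NC p G'

def StNCker : Prop := ∀ (p : ℕ) (G G' : Type u) [Group G] [Finite G] [Group G'] [Finite G']
  [Fact p.Prime] (f : G →* G'), Function.Surjective f → ¬ p ∣ Nat.card f.ker → NC p G' → NC p G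

/-- the complement is the set of elements of order prime to `p` -/
def StNCreg : Prop := ∀ (p : ℕ) (G : Type u) [Group G] [Finite G] [Fact p.Prime]
  (K : Subgroup G), K.Normal → ¬ p ∣ Nat.card K → (∃ k : ℕ, K.index = p ^ k) →
  ∀ x : G, x ∈ K ↔ ¬ p ∣ orderOf x

/-- in a group with a normal complement, elements of order prime to `p` centralise every
normal `p`-subgroup -/
def StNCcent : Prop := ∀ (p : ℕ) (G : Type u) [Group G] [Finite G] [Fact p.Prime],
  NC p G → ∀ U : Subgroup G, U.Normal → IsPGroup p U → ∀ x : G, ¬ p ∣ orderOf x →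
    ∀ u ∈ U, x * u = u * x

/-- a normal subgroup with `NC`: its complement is normal in the whole group -/
def StNCnormal : Prop := ∀ (p : ℕ) (G : Type u) [Group G] [Finite G] [Fact p.Prime]
  (N : Subgroup G), N.Normal → NC p N → ∃ K : Subgroup G, K.Normal ∧ K ≤ N ∧ ¬ p ∣ Nat.card K ∧
    (∃ k : ℕ, K.relIndex N = p ^ k) ∧ ∀ x : G, x ∈ K ↔ x ∈ N ∧ ¬ p ∣ orderOf x

/-- a nilpotent group has a normal complement for every prime -/
def StNCnil : Prop := ∀ (p : ℕ) (G : Type u) [Group G] [Finite G] [Fact p.Prime],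
  Group.IsNilpotent G → NC p G

/-! ## Rows: Frobenius (helper93: StFr1; helper13: StFr2, StFrob) -/

/-- Sylow subgroups `P`, `Q` are conjugate by an element centralising `P ⊓ Q` -/
def StFr1 : Prop := ∀ (p : ℕ) (G : Type u) [Group G] [Finite G] [Fact p.Prime],
  Loc p G → ∀ P Q : Sylow p G, ∃ c : G, (∀ x ∈ (P : Subgroup G) ⊓ Q, c * x = x * c) ∧
    (Q : Subgroup G) = (P : Subgroup G).map (MulAut.conj c).toMonoidHom

/-- `P` controls its own fusion -/
def StFr2 : Prop := ∀ (p : ℕ) (G : Type u) [Group G] [Finite G] [Fact p.Prime],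
  Loc p G → ∀ P : Sylow p G, ∀ x ∈ P, ∀ g : G, g * x * g⁻¹ ∈ P → ∃ h ∈ P, g * x * g⁻¹ = h * x * h⁻¹

def StFrob : Prop := ∀ (p : ℕ) (G : Type u) [Group G] [Finite G] [Fact p.Prime],
  Loc p G → NC p G

/-! ## Rows: the functors (helper9) -/

def StZmap : Prop := ∀ (p : ℕ) (G G' : Type u) [Group G] [Group G'] (f : G →* G')
  (P : Subgroup G), Set.InjOn f P → Z1 p (P.map f) = (Z1 p P).map f

def StJmap : Prop := ∀ (G G' : Type u) [Group G] [Finite G] [Group G'] [Finite G'] (f : G →* G')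
  (P : Subgroup G), Set.InjOn f P → JJ (P.map f) = (JJ P).map f

def StZne : Prop := ∀ (p : ℕ) (G : Type u) [Group G] [Finite G] [Fact p.Prime] (P : Subgroup G),
  IsPGroup p P → P ≠ ⊥ → Z1 p P ≠ ⊥

def StJne : Prop := ∀ (p : ℕ) (G : Type u) [Group G] [Finite G] [Fact p.Prime] (P : Subgroup G),
  IsPGroup p P → P ≠ ⊥ → JJ P ≠ ⊥

def StJle : Prop := ∀ (G : Type u) [Group G] [Finite G] (P : Subgroup G), JJ P ≤ P

/-- if `JJ P ≤ U ≤ P` then `JJ U = JJ P` -/
def StJsub : Prop := ∀ (G : Type u) [Group G] [Finite G] (P U : Subgroup G),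
  U ≤ P → JJ P ≤ U → JJ U = JJ P

def StNorm : Prop := ∀ (p : ℕ) (G : Type u) [Group G] [Finite G] (P : Subgroup G),
  Subgroup.normalizer (P : Set G) ≤ Subgroup.normalizer (Z1 p P : Set G) ∧
  Subgroup.normalizer (P : Set G) ≤ Subgroup.normalizer (JJ P : Set G)

/-- for a subgroup `S ≤ N`, the hypotheses pass from `G` to `N` -/
def StHsub : Prop := ∀ (p : ℕ) (G : Type u) [Group G] [Finite G] [Fact p.Prime]
  (S N : Subgroup G), S ≤ N → Hyp p S → Hyp p (S.subgroupOf N)

/-- and to conjugates -/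
def StHconj : Prop := ∀ (p : ℕ) (G : Type u) [Group G] [Finite G] [Fact p.Prime]
  (S : Subgroup G) (g : G), Hyp p S → Hyp p (S.map (MulAut.conj g).toMonoidHom)

/-- normalizers of `p`-subgroups in a quotient by a normal subgroup of order prime to `p` -/
def StNquot : Prop := ∀ (p : ℕ) (G : Type u) [Group G] [Finite G] [Fact p.Prime]
  (M X : Subgroup G) [M.Normal], ¬ p ∣ Nat.card M → IsPGroup p X →
  Subgroup.normalizer (X.map (QuotientGroup.mk' M) : Set (G ⧸ M)) =
    (Subgroup.normalizer (X : Set G)).map (QuotientGroup.mk' M)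

/-- the hypotheses pass to the quotient by a normal subgroup of order prime to `p` -/
def StHquot : Prop := ∀ (p : ℕ) (G : Type u) [Group G] [Finite G] [Fact p.Prime]
  (M P : Subgroup G) [M.Normal], ¬ p ∣ Nat.card M → IsPGroup p P → Hyp p P →
  Hyp p (P.map (QuotientGroup.mk' M))

/-! ## Thompson's theorem on complements -/

/-- the theorem for the group `G` -/
def TT (p : ℕ) (G : Type u) [Group G] : Prop := ∀ P : Sylow p G, Hyp p (P : Subgroup G) → NC p G

/-- the theorem for all groups of order less than `n` -/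
def TTlt (p n : ℕ) : Prop :=
  ∀ (G : Type u) [Group G] [Finite G], Nat.card G < n → TT p G

/-- a minimal counterexample -/
def MinC (p : ℕ) (G : Type u) [Group G] (P : Subgroup G) : Prop :=
  TTlt.{u} p (Nat.card G) ∧ Hyp p P ∧ ¬ NC p G

/-- reduction I (helper44) -/
def StRed1 : Prop := ∀ (p : ℕ) (G : Type u) [Group G] [Finite G] [Fact p.Prime] (P : Sylow p G),
  MinC p G (P : Subgroup G) → ∃ U : Subgroup G, IsO p U ∧ U ≠ ⊥ ∧ U ≤ P ∧
    ∀ X : Subgroup G, IsPGroup p X → (P : Subgroup G) ≤ Subgroup.normalizer (X : Set G) →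
      Nat.card U < Nat.card X → NC p (Subgroup.normalizer (X : Set G))

/-- the situation after reduction II: `K` -/
structure Sit (p : ℕ) (G : Type u) [Group G] (P U K : Subgroup G) : Prop where
  /-- minimal counterexample -/
  minc : MinC p G P
  /-- `P` is a Sylow subgroup -/
  syl : ∃ S : Sylow p G, (S : Subgroup G) = P
  /-- `U` is the largest normal `p`-subgroup -/
  isO : IsO p U
  /-- not trivial -/
  ne : U ≠ ⊥
  /-- contained in `P` -/
  le : U ≤ P
  /-- `K` is normal -/
  nor : K.Normal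
  /-- and contains `U` -/
  UK : U ≤ K
  /-- `K / U` has order prime to `p` -/
  rel : ¬ p ∣ U.relIndex K
  /-- `G / K` is a `p`-group -/
  ind : ∃ k : ℕ, K.index = p ^ k
  /-- no normal subgroups of order prime to `p` -/
  npr : NoPrime p G

/-- reduction II (helper28) -/
def StRed2 : Prop := ∀ (p : ℕ) (G : Type u) [Group G] [Finite G] [Fact p.Prime] (P : Sylow p G),
  MinC p G (P : Subgroup G) → ∃ U K : Subgroup G, Sit p G (P : Subgroup G) U K

/-- centralizers (helper28) -/
def StCent : Prop := ∀ (p : ℕ) (G : Type u) [Group G] [Finite G] [Fact p.Prime]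
  (P U K : Subgroup G), Sit p G P U K →
  Subgroup.centralizer (U : Set G) ≤ U ∧
  ∃ V : Subgroup G, V.Normal ∧ Ab V ∧ (∀ v ∈ V, v ^ p = 1) ∧ V ≤ U ∧
    Subgroup.centralizer (V : Set G) = U

/-- `K / U` is abelian (helper77) -/
def StKab : Prop := ∀ (p : ℕ) (G : Type u) [Group G] [Finite G] [Fact p.Prime]
  (P U K : Subgroup G), Sit p G P U K → ∀ x ∈ K, ∀ y ∈ K, x * y * x⁻¹ * y⁻¹ ∈ U

/-- replacement (helper30): an abelian subgroup `A` of maximal order of `P`, not centralising `V`,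
and normalised by `V` -/
def StRepl : Prop := ∀ (p : ℕ) (G : Type u) [Group G] [Finite G] [Fact p.Prime]
  (P V : Subgroup G), IsPGroup p P → V ≤ P → V.Normal → Ab V →
  (∃ A : Subgroup G, MaxAb P A ∧ ¬ A ≤ Subgroup.centralizer (V : Set G)) →
  ∃ A : Subgroup G, MaxAb P A ∧ ¬ A ≤ Subgroup.centralizer (V : Set G) ∧
    ∀ v ∈ V, ∀ a ∈ A, v * a * v⁻¹ ∈ A

/-- the sum over the conjugates (helper22) -/
def StPL : Prop := ∀ (p : ℕ) [Fact p.Prime] (R : Type u) [Group R] [Fintype R] (f : R ≃* R)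
  (M : Type u) [AddCommGroup M] [DistribMulAction R M] (a : M →+ M),
  (∀ r : R, (f ^[p]) r = r) → (∀ r : R, f r = r → r = 1) →
  (∀ (r : R) (m : M), a (r • m) = f r • a m) →
  (∀ m : M, ∑ i ∈ Finset.range p, (a ^[i]) m = 0) →
  ∀ m : M, ∑ r : R, r • m = Fintype.card R • m

/-- final contradiction (helper77) -/
def StEnd : Prop := ∀ (p : ℕ) (G : Type u) [Group G] [Finite G] [Fact p.Prime]
  (P U K : Subgroup G), p ≠ 2 → Sit p G P U K → False

/-- Thompson's complement theorem -/
def StTT : Prop := ∀ (p : ℕ) (G : Type u) [Group G] [Finite G] [Fact p.Prime],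
  p ≠ 2 → TT p G

/-! ## Fixed-point-free automorphisms (helper29, helper22) -/

/-- `phi` has prime order `p` (or is the identity) and no fixed point -/
def Fpf (p : ℕ) (G : Type u) [Group G] (phi : MulAut G) : Prop :=
  phi ^ p = 1 ∧ ∀ g : G, phi g = g → g = 1

/-- invariant subgroups are nilpotent if proper, quotients are nilpotent if proper -/
def MinT (p : ℕ) (G : Type u) [Group G] (phi : MulAut G) : Prop :=
  Fpf p G phi ∧
  (∀ H : Subgroup G, H ≠ ⊤ → H.map phi.toMonoidHom = H → Group.IsNilpotent H) ∧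
  (∀ N : Subgroup G, ∀ _ : N.Normal, N ≠ ⊥ → N.map phi.toMonoidHom = N →
    Group.IsNilpotent (G ⧸ N))

/-- an invariant Sylow subgroup -/
def StInvS : Prop := ∀ (p q : ℕ) (G : Type u) [Group G] [Finite G] [Fact p.Prime] [Fact q.Prime]
  (phi : MulAut G), Fpf p G phi →
  ∃ Q : Sylow q G, (Q : Subgroup G).map phi.toMonoidHom = Q

/-- the soluble end (helper22): a nontrivial proper invariant normal subgroup -/
def StSol : Prop := ∀ (p : ℕ) (G : Type u) [Group G] [Finite G] [Fact p.Prime]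
  (phi : MulAut G), MinT p G phi →
  (∃ N : Subgroup G, N.Normal ∧ N ≠ ⊥ ∧ N ≠ ⊤ ∧ N.map phi.toMonoidHom = N) →
  Group.IsNilpotent G

/-- the simple end (helper29) -/
def StSim : Prop := ∀ (p : ℕ) (G : Type u) [Group G] [Finite G] [Fact p.Prime]
  (phi : MulAut G), MinT p G phi →
  (∀ N : Subgroup G, N.Normal → N.map phi.toMonoidHom = N → N = ⊥ ∨ N = ⊤) →
  Group.IsNilpotent G

/-- Thompson's theorem -/
def StThompson : Prop := ∀ (G : Type u) [Group G] [Finite G] (p : ℕ) [Fact p.Prime]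
  (phi : MulAut G), phi ^ p = 1 → (∀ g, phi g = g → g = 1) → Group.IsNilpotent G

end Pool.Agent.Lib.MP_2b9f9a_al.TH
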