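import Mathlib
import Pool.Agent.Lib.MP_2b9f9a_al.TH.Stmts50

set_option autoImplicit false

/-!
# Reduction I (helper44)
-/

namespace Pool.Agent.Lib.MP_2b9f9a_al.TH

open Subgroup

universe u

/-- a `p`-subgroup of `H` has order at most the `p`-part of the order of `H`. -/
theorem card_le44 {G : Type u} [Group G] [Finite G] {p : ℕ} [Fact p.Prime] {T H : Subgroup G}
    (hT : IsPGroup p T) (hTH : T ≤ H) : Nat.card T ≤ p ^ (Nat.card H).factorization p := by
  obtain ⟨k, hk⟩ := (IsPGroup.iff_card (p := p)).1 hT
  have hd : p ^ k ∣ Nat.card H := by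
    rw [← hk]; exact Subgroup.card_dvd_of_le hTH
  have hle : k ≤ (Nat.card H).factorization p :=
    (Nat.Prime.pow_dvd_iff_le_factorization Fact.out Nat.card_pos.ne').1 hd
  rw [hk]
  exact Nat.pow_le_pow_right (Nat.Prime.pos Fact.out) hle

/-- normalizers grow in `p`-groups. -/
theorem grow44 {G : Type u} [Group G] [Finite G] {p : ℕ} [Fact p.Prime] {S Q : Subgroup G}
    (hQ : IsPGroup p Q) (hSQ : S < Q) : S < Q ⊓ normalizer (S : Set G) := by
  have hnil : Group.IsNilpotent Q := hQ.isNilpotent
  have hcond : NormalizerCondition Q := Group.normalizerCondition_of_isNilpotent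
  have hlt : S.subgroupOf Q < ⊤ := by
    rw [lt_top_iff_ne_top]
    intro h
    rw [subgroupOf_eq_top] at h
    exact absurd h (not_le_of_gt hSQ)
  have h2 := hcond _ hlt
  obtain ⟨x, hx, hxn⟩ := SetLike.exists_of_lt h2
  refine lt_of_le_of_ne (le_inf hSQ.le le_normalizer) ?_
  intro h3
  apply hxn
  rw [mem_subgroupOf]
  rw [h3, mem_inf]
  refine ⟨x.2, ?_⟩
  rw [mem_normalizer_iff] at hx ⊢
  intro y
  constructor
  · intro hy
    have := (hx ⟨y, hSQ.le hy⟩).1 (by simpa [mem_subgroupOf] using hy)
    simpa [mem_subgroupOf] using this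
  · intro hy
    have hyQ : y ∈ Q := by
      have h4 : (x : G) * y * (x : G)⁻¹ ∈ Q := hSQ.le hy
      have h5 := Q.mul_mem (Q.mul_mem (Q.inv_mem x.2) h4) x.2
      simpa [mul_assoc] using h5
    have := (hx ⟨y, hyQ⟩).2 (by simpa [mem_subgroupOf] using hy)
    simpa [mem_subgroupOf] using this

/-- a normal `p`-subgroup is contained in every Sylow subgroup. -/
theorem le_syl44 {G : Type u} [Group G] [Finite G] {p : ℕ} [Fact p.Prime] {U : Subgroup G}
    (hU : IsPGroup p U) (hn : U.Normal) (P : Sylow p G) : U ≤ P := by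
  have h1 : IsPGroup p (U ⊔ (P : Subgroup G) : Subgroup G) := hU.to_sup_of_normal_left P.2
  have h2 := P.3 h1 le_sup_right
  rw [← h2]
  exact le_sup_left

theorem red1_44 (hFrob : StFrob.{u}) (hCent : StNCcent.{u}) (hHsub : StHsub.{u})
    (hHconj : StHconj.{u}) (hNorm : StNorm.{u}) (hZne : StZne.{u}) (hJne : StJne.{u})
    (hJle : StJle.{u}) : StRed1.{u} := by
  intro p G _ _ _ P hM
  obtain ⟨hlt, hHyp, hnot⟩ := hM
  classical
  have hp1 : 1 < p := (Fact.out : p.Prime).one_lt
  -- the bad subgroups
  let Bad : Set (Subgroup G) := {D | IsPGroup p D ∧ D ≠ ⊥ ∧ ¬ NC p (normalizer (D : Set G))}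
  have hBne : Bad.Nonempty := by
    have hL : ¬ Loc p G := fun h => hnot (hFrob p G h)
    unfold Loc at hL
    push Not at hL
    obtain ⟨X, hX, hX1, x, hx, hxp, u, hu, hne⟩ := hL
    refine ⟨X, hX, hX1, fun hN => hne ?_⟩
    have h1 := hCent p (normalizer (X : Set G)) hN (X.subgroupOf (normalizer (X : Set G)))
      inferInstance (hX.comap_of_injective _ (Subtype.val_injective)) ⟨x, hx⟩
      (by rwa [orderOf_mk]) ⟨u, le_normalizer hu⟩ (by simpa [mem_subgroupOf] using hu)
    exact congrArg Subtype.val h1
  let e : Subgroup G → ℕ := fun D => (Nat.card (normalizer (D : Set G))).factorization p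
  let f : Subgroup G → ℕ := fun D => e D * (Nat.card G + 1) + Nat.card D
  obtain ⟨U, hU, hUmax⟩ := Set.exists_max_image Bad f (Set.toFinite Bad) hBne
  obtain ⟨hUp, hUne, hUnot⟩ := hU
  have hcard : ∀ D : Subgroup G, Nat.card D ≤ Nat.card G := fun D => D.card_le_card_group
  have hm1 : ∀ D ∈ Bad, e D ≤ e U := by
    intro D hD
    by_contra hlt'
    push Not at hlt'
    have h1 := hUmax D hD
    have h2 : f U < f D := by
      show e U * (Nat.card G + 1) + Nat.card U < e D * (Nat.card G + 1) + Nat.card D
      have h3 : (e U + 1) * (Nat.card G + 1) ≤ e D * (Nat.card G + 1) :=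
        Nat.mul_le_mul_right _ hlt'
      have h4 := hcard U
      nlinarith [Nat.zero_le (Nat.card D)]
    omega
  have hm2 : ∀ D ∈ Bad, e D = e U → Nat.card D ≤ Nat.card U := by
    intro D hD hDe
    have h1 : f D ≤ f U := hUmax D hD
    have h2 : e D * (Nat.card G + 1) + Nat.card D ≤ e U * (Nat.card G + 1) + Nat.card U := h1
    rw [hDe] at h2
    omega
  -- the normalizer of `U` is everything
  have htop : normalizer (U : Set G) = ⊤ := by
    by_contra hnt
    let H : Subgroup G := normalizer (U : Set G)
    have hcH : Nat.card H < Nat.card G := by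
      refine lt_of_le_of_ne (hcard H) fun h => hnt ?_
      exact Subgroup.eq_top_of_card_eq H h
    obtain ⟨S'⟩ : Nonempty (Sylow p H) := inferInstance
    let S : Subgroup G := (S' : Subgroup H).map H.subtype
    have hSH : S ≤ H := map_subtype_le _
    have hSp : IsPGroup p S := S'.2.map _
    have hScard : Nat.card S = p ^ e U := by
      have h1 : Nat.card S = Nat.card (S' : Subgroup H) :=
        (Nat.card_congr ((S' : Subgroup H).equivMapOfInjective H.subtype
          H.subtype_injective).toEquiv).symm
      rw [h1]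
      exact S'.card_eq_multiplicity
    have hUS : U ≤ S := by
      have hn : (U.subgroupOf H).Normal := normal_in_normalizer
      have h1 : U.subgroupOf H ≤ S' :=
        le_syl44 (hUp.comap_of_injective _ (Subtype.val_injective)) hn S'
      have h2 := map_mono (f := H.subtype) h1
      rwa [subgroupOf_map_subtype, inf_eq_left.2 le_normalizer] at h2
    have hSne : S ≠ ⊥ := fun h => hUne (le_bot_iff.1 (h ▸ hUS))
    obtain ⟨Q, hSQ⟩ := hSp.exists_le_sylow
    have hHS : Hyp p S := by
      by_cases hSeq : S = Q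
      · -- `S` is a Sylow subgroup of `G`
        obtain ⟨g, hg⟩ := MulAction.exists_smul_eq G P Q
        have h1 := hHconj p G (P : Subgroup G) g hHyp
        have h2 : (P : Subgroup G).map (MulAut.conj g).toMonoidHom = (Q : Subgroup G) := by
          rw [← hg]; rfl
        rw [hSeq, ← h2]
        exact h1
      · have hlt2 : S < Q := lt_of_le_of_ne hSQ hSeq
        have hgr := grow44 Q.2 hlt2
        -- every subgroup normalised by `N(S)` is not bad
        have key : ∀ X : Subgroup G, X ≤ S → X ≠ ⊥ →
            normalizer (S : Set G) ≤ normalizer (X : Set G) → NC p (normalizer (X : Set G)) := by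
          intro X hXS hXne hN
          by_contra hXnot
          have hXB : X ∈ Bad := ⟨hSp.to_le hXS, hXne, hXnot⟩
          have h1 := hm1 X hXB
          have hTp : IsPGroup p ((Q : Subgroup G) ⊓ normalizer (S : Set G) : Subgroup G) :=
            Q.2.to_le inf_le_left
          have h2 : Nat.card ((Q : Subgroup G) ⊓ normalizer (S : Set G) : Subgroup G) ≤
              p ^ e X := card_le44 hTp (inf_le_right.trans hN)
          have h3 : Nat.card S < Nat.card ((Q : Subgroup G) ⊓ normalizer (S : Set G) : Subgroup G) :=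
            Set.Finite.card_lt_card (Set.toFinite _) (by exact_mod_cast hgr)
          rw [hScard] at h3
          have h4 : p ^ e U < p ^ e X := lt_of_lt_of_le h3 h2
          have h5 := (Nat.pow_lt_pow_iff_right hp1).1 h4
          omega
        have hZle : Z1 p S ≤ S := fun z hz => hz.1
        exact ⟨key _ hZle (hZne p G S hSp hSne) (hNorm p G S).1,
          key _ (hJle G S) (hJne p G S hSp hSne) (hNorm p G S).2⟩
    have hHS' := hHsub p G S H hSH hHS
    have hcm : S.subgroupOf H = (S' : Subgroup H) :=
      comap_map_eq_self_of_injective H.subtype_injective _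
    rw [hcm] at hHS'
    exact hUnot (hlt H hcH S' hHS')
  have hUnor : U.Normal := normalizer_eq_top_iff.1 htop
  have heU : e U = (Nat.card G).factorization p := by
    show (Nat.card (normalizer (U : Set G))).factorization p = _
    rw [htop, Subgroup.card_top]
  refine ⟨U, ⟨hUnor, hUp, ?_⟩, hUne, le_syl44 hUp hUnor P, ?_⟩
  · intro W hW hWp
    have hWU : (W ⊔ U).Normal := inferInstance
    have h1 : IsPGroup p (W ⊔ U : Subgroup G) := hWp.to_sup_of_normal_left hUp
    have h2 : normalizer ((W ⊔ U : Subgroup G) : Set G) = ⊤ := normalizer_eq_top_iff.2 hWU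
    have h3 : (W ⊔ U : Subgroup G) ∈ Bad := by
      refine ⟨h1, fun h => hUne (le_bot_iff.1 (h ▸ le_sup_right)), ?_⟩
      rw [h2, ← htop]
      exact hUnot
    have h4 : e (W ⊔ U) = e U := by
      show (Nat.card (normalizer ((W ⊔ U : Subgroup G) : Set G))).factorization p =
        (Nat.card (normalizer (U : Set G))).factorization p
      rw [h2, htop]
    have h5 := hm2 _ h3 h4
    have h6 : U = W ⊔ U := Subgroup.eq_of_le_of_card_ge le_sup_right h5
    rw [h6]
    exact le_sup_left
  · intro X hX hPX hcX
    by_contra hXnot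
    have hXne : X ≠ ⊥ := by
      rintro rfl
      rw [Subgroup.card_bot] at hcX
      have : 0 < Nat.card U := Nat.card_pos
      omega
    have hXB : X ∈ Bad := ⟨hX, hXne, hXnot⟩
    have h1 := hm1 X hXB
    have h2 : Nat.card (P : Subgroup G) ≤ p ^ e X := card_le44 P.2 hPX
    have h3 : Nat.card (P : Subgroup G) = p ^ e U := by
      rw [heU]; exact P.card_eq_multiplicity
    rw [h3] at h2
    have h4 := (Nat.pow_le_pow_iff_right hp1).1 h2
    have h5 := hm2 X hXB (le_antisymm h1 h4)
    omega

end Pool.Agent.Lib.MP_2b9f9a_al.TH
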