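import Pool.Agent.Lib.MP_2b9f9a_al.TH.Redb28

/-!
Rows StCent and StRed2 (helper28).
-/

namespace TH28

open Subgroup Pool.Agent.Lib.MP_2b9f9a_al.TH

universe u

/-- row StCent, from the row StNorm -/
theorem stCent_28 (hNorm : StNorm.{u}) : StCent.{u} := by
  intro p G _ _ hp P U K h
  obtain ⟨S, hS⟩ := h.syl
  obtain ⟨hUn, hUp, hmax⟩ := h.isO
  have hK := h.nor
  obtain ⟨k, hk⟩ := h.ind
  have hc : centralizer (U : Set G) ≤ U := centralizer_le h.npr U hUp hmax K h.rel hk
  refine ⟨hc, ?_⟩
  have hVn : (Z1 p U).Normal := by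
    rw [← Subgroup.normalizer_eq_top_iff]
    have h1 := (hNorm p G U).1
    rw [Subgroup.normalizer_eq_top_iff.2 hUn] at h1
    exact top_le_iff.1 h1
  refine ⟨Z1 p U, hVn, ?_, ?_, ?_, ?_⟩
  · intro x hx y hy
    exact hy.2.1 x hx.1
  · intro v hv
    exact hv.2.2
  · intro v hv
    exact hv.1
  · apply centralizer_eq h.npr U hmax (Z1 p P) (Z1 p U)
    · intro z hz
      have hzU : z ∈ U := by
        apply hc
        rw [mem_centralizer_iff]
        intro u hu
        exact hz.2.1 u (h.le hu)
      exact ⟨hzU, fun x hx => hz.2.1 x (h.le hx), hz.2.2⟩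
    · intro u hu
      rw [mem_centralizer_iff]
      intro v hv
      exact (hv.2.1 u hu).symm
    · exact h.minc.2.1.1

/-- preimage of a nontrivial functor value in the quotient -/
theorem aux_28 {p : ℕ} {G : Type u} [Group G] [Finite G] [Fact p.Prime] (P : Sylow p G)
    (U : Subgroup G) [U.Normal] (hUP : U ≤ P)
    (hU : ∀ X : Subgroup G, IsPGroup p X → (P : Subgroup G) ≤ Subgroup.normalizer (X : Set G) →
      Nat.card U < Nat.card X → NC p (Subgroup.normalizer (X : Set G)))
    (X : Subgroup (G ⧸ U)) (hX : X ≤ (P : Subgroup G).map (QuotientGroup.mk' U))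
    (hXn : (P : Subgroup G).map (QuotientGroup.mk' U) ≤ normalizer (X : Set (G ⧸ U)))
    (hne : X ≠ ⊥) : NC p (normalizer (X : Set (G ⧸ U))) := by
  have hs := QuotientGroup.mk'_surjective U
  set π := QuotientGroup.mk' U with hπ
  have hker : π.ker = U := QuotientGroup.ker_mk' U
  have hcomap : ((P : Subgroup G).map π).comap π = P := by
    rw [comap_map_eq, hker]
    exact sup_eq_left.2 hUP
  have hVP : X.comap π ≤ P := by
    rw [← hcomap]
    exact comap_mono hX
  have hUV : U ≤ X.comap π := by
    intro x hx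
    rw [mem_comap]
    have : π x = 1 := by rw [← MonoidHom.mem_ker, hker]; exact hx
    rw [this]; exact X.one_mem
  have hlt : U < X.comap π := by
    refine lt_of_le_of_ne hUV ?_
    intro h1
    apply hne
    have h2 : (X.comap π).map π = X := map_comap_eq_self_of_surjective hs X
    rw [← h2, ← h1, Subgroup.map_eq_bot_iff, hker]
  have hnorm : (normalizer (X : Set (G ⧸ U))).comap π = normalizer ((X.comap π : Subgroup G) : Set G) :=
    comap_normalizer_eq_of_surjective X hs
  have hPN : (P : Subgroup G) ≤ normalizer ((X.comap π : Subgroup G) : Set G) := by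
    rw [← hnorm]
    exact map_le_iff_le_comap.1 hXn
  have hcard : Nat.card U < Nat.card (X.comap π : Subgroup G) := by
    apply lt_of_le_of_ne (card_le_of_le hUV)
    intro h1
    exact hlt.ne (eq_of_le_of_card_ge hUV h1.ge)
  have h1 := hU (X.comap π) (P.2.to_le hVP) hPN hcard
  rw [← hnorm] at h1
  exact nc_of_surjective (π.subgroupComap (normalizer (X : Set (G ⧸ U))))
    (π.subgroupComap_surjective_of_surjective _ hs) h1

/-- row StRed2 -/
theorem stRed2_28 (hRed1 : StRed1.{u}) (hNorm : StNorm.{u}) (hZne : StZne.{u}) (hJne : StJne.{u})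
    (hJle : StJle.{u}) (hHq : StHquot.{u}) (hker : StNCker.{u}) : StRed2.{u} := by
  intro p G _ _ hp P hmin
  obtain ⟨U, hO, hUne, hUP, hU⟩ := hRed1 p G P hmin
  obtain ⟨hUn, hUp, hmax⟩ := hO
  obtain ⟨hlt, hH, hnc⟩ := hmin
  have hs := QuotientGroup.mk'_surjective U
  -- P ≠ U
  have hPU : (P : Subgroup G) ≠ U := by
    intro h
    apply hnc
    have h2 := (hNorm p G (P : Subgroup G)).1
    have h3 : normalizer ((P : Subgroup G) : Set G) = ⊤ := by
      rw [Subgroup.normalizer_eq_top_iff, h]; exact hUn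
    rw [h3, top_le_iff] at h2
    have h4 := hH.1
    rw [h2] at h4
    exact nc_of_injective (Subgroup.topEquiv (G := G)).symm.toMonoidHom
      (Subgroup.topEquiv (G := G)).symm.injective h4
  -- the image of P
  have hPbne : (P : Subgroup G).map (QuotientGroup.mk' U) ≠ ⊥ := by
    intro h1
    rw [Subgroup.map_eq_bot_iff, QuotientGroup.ker_mk'] at h1
    exact hPU (le_antisymm h1 hUP)
  have hPbp : IsPGroup p ((P : Subgroup G).map (QuotientGroup.mk' U)) := P.2.map _
  have hHyp : Hyp p ((P : Subgroup G).map (QuotientGroup.mk' U)) := by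
    constructor
    · apply aux_28 P U hUP hU
      · intro z hz
        exact hz.1
      · exact le_trans le_normalizer (hNorm p _ _).1
      · exact hZne p _ _ hPbp hPbne
    · apply aux_28 P U hUP hU
      · exact hJle _ _
      · exact le_trans le_normalizer (hNorm p _ _).2
      · exact hJne p _ _ hPbp hPbne
  have hncq : NC p (G ⧸ U) := by
    have h1 : Nat.card (G ⧸ U) < Nat.card G := by
      rw [Subgroup.card_eq_card_quotient_mul_card_subgroup U]
      have h2 : 1 < Nat.card U := by
        rw [Subgroup.one_lt_card_iff_ne_bot]; exact hUne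
      have h3 : 0 < Nat.card (G ⧸ U) := Nat.card_pos
      nlinarith
    exact hlt (G ⧸ U) h1 (P.mapSurjective hs) hHyp
  have hnpr : NoPrime p G := by
    intro M hM hMp
    by_contra hne
    apply hnc
    have hsM := QuotientGroup.mk'_surjective M
    apply hker p G (G ⧸ M) (QuotientGroup.mk' M) hsM
    · rw [QuotientGroup.ker_mk']; exact hMp
    · have h1 : Nat.card (G ⧸ M) < Nat.card G := by
        rw [Subgroup.card_eq_card_quotient_mul_card_subgroup M]
        have h2 : 1 < Nat.card M := by
          rw [Subgroup.one_lt_card_iff_ne_bot]; exact hne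
        have h3 : 0 < Nat.card (G ⧸ M) := Nat.card_pos
        nlinarith
      exact hlt (G ⧸ M) h1 (P.mapSurjective hsM) (hHq p G M P hMp P.2 hH)
  obtain ⟨K, hK, hUK, h1, h2⟩ := exists_K U hncq
  exact ⟨U, K, ⟨⟨hlt, hH, hnc⟩, ⟨P, rfl⟩, ⟨hUn, hUp, hmax⟩, hUne, hUP, hK, hUK, h1, h2, hnpr⟩⟩

end TH28
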