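import Mathlib

/-!
Thompson replacement (helper30).  `P` a p-subgroup of a finite group `G` (only nilpotency is used),
`V ≤ P` abelian and normalised by `P`, `A ≤ P` abelian of maximal order among the abelian subgroups
of `P`.  If `V` does not normalise `A`, there is `B ≤ P` abelian, `|B| = |A|`,
`A ⊓ V < B ⊓ V`, and `B` normalises `A`.
-/

namespace Pool.MP_2b9f9a_al.TH30

open Subgroup
open scoped commutatorElement

/-- if `x` conjugates the finite subgroup `A` into itself then `x` normalises `A`. -/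
lemma mem_norm_of_conj {G : Type*} [Group G] [Finite G] (A : Subgroup G) (x : G)
    (h : ∀ a ∈ A, x * a * x⁻¹ ∈ A) : x ∈ normalizer (A : Set G) :=
  mem_normalizer_fintype (S := (A : Set G)) h

/-- there is `x ∈ V \ N` with `[x, A] ≤ N`. -/
lemma exists_step {G : Type*} [Group G] (P V A N : Subgroup G)
    (hP : Group.IsNilpotent P) (hVP : V ≤ P) (hVn : ∀ g ∈ P, ∀ v ∈ V, g * v * g⁻¹ ∈ V)
    (hAP : A ≤ P) (hN : ¬ V ≤ N) :
    ∃ x ∈ V, x ∉ N ∧ ∀ a ∈ A, a * x * a⁻¹ * x⁻¹ ∈ N := by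
  classical
  obtain ⟨n, hn⟩ := (isNilpotent_iff_lowerCentralSeries (S := P)).1 hP
  -- the set of indices
  let S : Set ℕ := {i | ∃ x ∈ V, x ∉ N ∧ x ∈ P.lowerCentralSeries i}
  have hS0 : ∃ i, ¬ (i ∈ S) := by
    refine ⟨n, ?_⟩
    rintro ⟨x, hxV, hxN, hx⟩
    rw [hn, mem_bot] at hx
    exact hxN (hx ▸ one_mem N)
  have h0 : 0 ∈ S := by
    obtain ⟨x, hx, hxN⟩ := Set.not_subset.1 hN
    exact ⟨x, hx, hxN, by rw [Subgroup.lowerCentralSeries_zero]; exact hVP hx⟩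
  -- first index not in S
  have hfind := Nat.find_spec hS0
  have hpos : Nat.find hS0 ≠ 0 := fun h => by rw [h] at hfind; exact hfind h0
  obtain ⟨k, hk⟩ := Nat.exists_eq_succ_of_ne_zero hpos
  have hkS : k ∈ S := by
    by_contra hcon
    have := Nat.find_min' hS0 hcon
    omega
  obtain ⟨x, hxV, hxN, hx⟩ := hkS
  refine ⟨x, hxV, hxN, fun a ha => ?_⟩
  have hmemV : a * x * a⁻¹ * x⁻¹ ∈ V := mul_mem (hVn a (hAP ha) x hxV) (inv_mem hxV)
  by_contra hcon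
  apply hfind
  rw [hk]
  refine ⟨a * x * a⁻¹ * x⁻¹, hmemV, hcon, ?_⟩
  have h1 : ⁅x, a⁆ ∈ P.lowerCentralSeries (k + 1) := by
    rw [Subgroup.lowerCentralSeries_succ]
    exact commutator_mem_commutator hx (hAP ha)
  have h2 : a * x * a⁻¹ * x⁻¹ = ⁅x, a⁆⁻¹ := by
    rw [commutatorElement_inv, commutatorElement_def]
  rw [h2]
  exact inv_mem h1

/-- `M` abelian, `C` abelian, commuting with each other: `M ⊔ C` is abelian. -/
lemma sup_comm {G : Type*} [Group G] (M C : Subgroup G)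
    (hM : ∀ x ∈ M, ∀ y ∈ M, x * y = y * x) (hC : ∀ x ∈ C, ∀ y ∈ C, x * y = y * x)
    (hMC : ∀ x ∈ M, ∀ y ∈ C, x * y = y * x) :
    ∀ x ∈ M ⊔ C, ∀ y ∈ M ⊔ C, x * y = y * x := by
  have hS : ∀ x ∈ ((M : Set G) ∪ C), ∀ y ∈ ((M : Set G) ∪ C), x * y = y * x := by
    rintro x (hx | hx) y (hy | hy)
    · exact hM x hx y hy
    · exact hMC x hx y hy
    · exact (hMC y hy x hx).symm
    · exact hC x hx y hy
  have hcl : M ⊔ C = closure ((M : Set G) ∪ C) := by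
    rw [Subgroup.closure_union, Subgroup.closure_eq, Subgroup.closure_eq]
  intro x hx y hy
  rw [hcl] at hx hy
  have h0 : IsMulCommutative (closure ((M : Set G) ∪ C)) := isMulCommutative_closure hS
  have := h0.is_comm.comm (⟨x, hx⟩ : closure ((M : Set G) ∪ C)) ⟨y, hy⟩
  exact congrArg Subtype.val this

/-- THOMPSON REPLACEMENT. -/
theorem replacement {G : Type*} [Group G] [Finite G] (P V A : Subgroup G)
    (hP : Group.IsNilpotent P) (hVP : V ≤ P) (hVn : ∀ g ∈ P, ∀ v ∈ V, g * v * g⁻¹ ∈ V)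
    (hVc : ∀ v ∈ V, ∀ w ∈ V, v * w = w * v)
    (hAP : A ≤ P) (hAc : ∀ v ∈ A, ∀ w ∈ A, v * w = w * v)
    (hAmax : ∀ B ≤ P, (∀ v ∈ B, ∀ w ∈ B, v * w = w * v) → Nat.card B ≤ Nat.card A)
    (hn : ¬ V ≤ normalizer (A : Set G)) :
    ∃ B ≤ P, (∀ v ∈ B, ∀ w ∈ B, v * w = w * v) ∧ Nat.card B = Nat.card A ∧
      A ⊓ V < B ⊓ V ∧ B ≤ normalizer (A : Set G) := by
  classical
  obtain ⟨x, hxV, hxN, hx⟩ := exists_step P V A (normalizer (A : Set G)) hP hVP hVn hAP hn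
  -- K a = a x a⁻¹ x⁻¹ ∈ V
  have hKV : ∀ a ∈ A, a * x * a⁻¹ * x⁻¹ ∈ V := fun a ha =>
    mul_mem (hVn a (hAP ha) x hxV) (inv_mem hxV)
  set M : Subgroup G := closure {y | ∃ a ∈ A, y = a * x * a⁻¹ * x⁻¹} with hM
  have hMV : M ≤ V := by
    rw [hM, closure_le]
    rintro _ ⟨a, ha, rfl⟩
    exact hKV a ha
  have hMN : M ≤ normalizer (A : Set G) := by
    rw [hM, closure_le]
    rintro _ ⟨a, ha, rfl⟩
    exact hx a ha
  have hKM : ∀ a ∈ A, a * x * a⁻¹ * x⁻¹ ∈ M := fun a ha => subset_closure ⟨a, ha, rfl⟩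
  set C : Subgroup G := A ⊓ centralizer (M : Set G) with hC
  have hCA : C ≤ A := inf_le_left
  have hCM : ∀ m ∈ M, ∀ c ∈ C, m * c = c * m := by
    intro m hm c hc
    exact (mem_centralizer_iff.1 hc.2 m hm)
  have hBc := sup_comm M C (fun y hy z hz => hVc y (hMV hy) z (hMV hz))
    (fun y hy z hz => hAc y (hCA hy) z (hCA hz)) hCM
  have hBP : M ⊔ C ≤ P := sup_le (hMV.trans hVP) (hCA.trans hAP)
  -- membership in C through the generators of M
  have hCmem : ∀ w ∈ A, (∀ a ∈ A, w * (a * x * a⁻¹ * x⁻¹) = (a * x * a⁻¹ * x⁻¹) * w) → w ∈ C := by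
    intro w hw h
    refine mem_inf.2 ⟨hw, ?_⟩
    rw [mem_centralizer_iff]
    have : M ≤ centralizer {w} := by
      rw [hM, closure_le]
      rintro _ ⟨a, ha, rfl⟩
      rw [SetLike.mem_coe, mem_centralizer_iff]
      rintro _ rfl
      exact h a ha
    intro m hm
    have h1 := mem_centralizer_iff.1 (this hm) w rfl
    exact h1.symm
  -- key: K u⁻¹ K v ∈ C  implies  u⁻¹ v ∈ C
  have key : ∀ u ∈ A, ∀ v ∈ A, (u * x * u⁻¹ * x⁻¹)⁻¹ * (v * x * v⁻¹ * x⁻¹) ∈ C → u⁻¹ * v ∈ C := by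
    intro u hu v hv h
    set w := u⁻¹ * v with hw
    have hwA : w ∈ A := mul_mem (inv_mem hu) hv
    -- y = w x w⁻¹ x⁻¹, and u y u⁻¹ = the element of C
    set y := w * x * w⁻¹ * x⁻¹ with hy
    have hyV : y ∈ V := hKV w hwA
    have hconj : u * y * u⁻¹ = (u * x * u⁻¹ * x⁻¹)⁻¹ * (v * x * v⁻¹ * x⁻¹) := by
      -- all in the abelian group V
      have e1 : u * y * u⁻¹ = (v * x * v⁻¹) * (u * x * u⁻¹)⁻¹ := by
        rw [hy, hw]; group
      have hA1 : v * x * v⁻¹ ∈ V := hVn v (hAP hv) x hxV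
      have hA2 : u * x * u⁻¹ ∈ V := hVn u (hAP hu) x hxV
      have e2 : (u * x * u⁻¹ * x⁻¹)⁻¹ * (v * x * v⁻¹ * x⁻¹)
          = x * (u * x * u⁻¹)⁻¹ * ((v * x * v⁻¹) * x⁻¹) := by group
      rw [e1, e2]
      have c1 := hVc x hxV ((u * x * u⁻¹)⁻¹ * (v * x * v⁻¹)) (mul_mem (inv_mem hA2) hA1)
      have c2 := hVc (v * x * v⁻¹) hA1 (u * x * u⁻¹)⁻¹ (inv_mem hA2)
      rw [c2]
      calc (u * x * u⁻¹)⁻¹ * (v * x * v⁻¹)
          = (u * x * u⁻¹)⁻¹ * (v * x * v⁻¹) * x * x⁻¹ := by group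
        _ = x * ((u * x * u⁻¹)⁻¹ * (v * x * v⁻¹)) * x⁻¹ := by rw [c1]
        _ = x * (u * x * u⁻¹)⁻¹ * ((v * x * v⁻¹) * x⁻¹) := by group
    have hyA : y ∈ A := by
      have h1 : u * y * u⁻¹ ∈ A := by rw [hconj]; exact hCA h
      have h2 := mul_mem (mul_mem (inv_mem hu) h1) hu
      have h3 : u⁻¹ * (u * y * u⁻¹) * u = y := by group
      rwa [h3] at h2
    apply hCmem w hwA
    intro a ha
    -- w (a x a⁻¹) w⁻¹ = a (w x w⁻¹) a⁻¹ = a (y x) a⁻¹ = y (a x a⁻¹)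
    have hwa : w * a = a * w := hAc w hwA a ha
    have hya : a * y = y * a := hAc a ha y hyA
    have hwx : w * x * w⁻¹ = y * x := by rw [hy]; group
    have hZ : a * x * a⁻¹ ∈ V := hVn a (hAP ha) x hxV
    have e1 : w * (a * x * a⁻¹) * w⁻¹ = y * (a * x * a⁻¹) := by
      calc w * (a * x * a⁻¹) * w⁻¹ = (w * a) * x * (w * a)⁻¹ := by group
        _ = (a * w) * x * (a * w)⁻¹ := by rw [hwa]
        _ = a * (w * x * w⁻¹) * a⁻¹ := by group
        _ = (a * y) * x * a⁻¹ := by rw [hwx]; group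
        _ = y * (a * x * a⁻¹) := by rw [hya]; group
    have e2 : w * (a * x * a⁻¹ * x⁻¹) * w⁻¹ = a * x * a⁻¹ * x⁻¹ := by
      calc w * (a * x * a⁻¹ * x⁻¹) * w⁻¹
          = (w * (a * x * a⁻¹) * w⁻¹) * (w * x * w⁻¹)⁻¹ := by group
        _ = y * (a * x * a⁻¹) * (y * x)⁻¹ := by rw [e1, hwx]
        _ = y * ((a * x * a⁻¹) * x⁻¹) * y⁻¹ := by group
        _ = a * x * a⁻¹ * x⁻¹ := by
            rw [hVc y hyV ((a * x * a⁻¹) * x⁻¹) (mul_mem hZ (inv_mem hxV))]; group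
    calc w * (a * x * a⁻¹ * x⁻¹) = (w * (a * x * a⁻¹ * x⁻¹) * w⁻¹) * w := by group
      _ = (a * x * a⁻¹ * x⁻¹) * w := by rw [e2]
  -- cardinality
  have hcard : Nat.card A ≤ Nat.card ↥(M ⊔ C) := by
    have hCB : C ≤ M ⊔ C := le_sup_right
    let f : A ⧸ C.subgroupOf A → ↥(M ⊔ C) ⧸ C.subgroupOf (M ⊔ C) := fun q =>
      QuotientGroup.mk (⟨(q.out : A).1 * x * (q.out : A).1⁻¹ * x⁻¹,
        (le_sup_left : M ≤ M ⊔ C) (hKM _ (q.out : A).2)⟩ : ↥(M ⊔ C))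
    have hf : Function.Injective f := by
      intro q r hqr
      have h1 := QuotientGroup.eq.1 hqr
      rw [mem_subgroupOf] at h1
      have h2 := key _ (q.out : A).2 _ (r.out : A).2 h1
      rw [← QuotientGroup.out_eq' q, ← QuotientGroup.out_eq' r]
      apply QuotientGroup.eq.2
      rw [mem_subgroupOf]
      exact h2
    have h1 : Nat.card (A ⧸ C.subgroupOf A) ≤ Nat.card (↥(M ⊔ C) ⧸ C.subgroupOf (M ⊔ C)) :=
      Nat.card_le_card_of_injective f hf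
    have h2 : Nat.card A = Nat.card (A ⧸ C.subgroupOf A) * Nat.card C := by
      rw [Subgroup.card_eq_card_quotient_mul_card_subgroup (C.subgroupOf A)]
      congr 1
      exact Nat.card_congr (subgroupOfEquivOfLe hCA).toEquiv
    have h3 : Nat.card ↥(M ⊔ C) = Nat.card (↥(M ⊔ C) ⧸ C.subgroupOf (M ⊔ C)) * Nat.card C := by
      rw [Subgroup.card_eq_card_quotient_mul_card_subgroup (C.subgroupOf (M ⊔ C))]
      congr 1
      exact Nat.card_congr (subgroupOfEquivOfLe hCB).toEquiv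
    rw [h2, h3]
    exact Nat.mul_le_mul_right _ h1
  refine ⟨M ⊔ C, hBP, hBc, le_antisymm (hAmax _ hBP hBc) hcard, ?_, ?_⟩
  · have hle : A ⊓ V ≤ C := by
      intro z hz
      refine mem_inf.2 ⟨hz.1, ?_⟩
      rw [mem_centralizer_iff]
      intro m hm
      exact hVc m (hMV hm) z hz.2
    refine lt_of_le_of_ne (le_inf (hle.trans le_sup_right) inf_le_right) ?_
    intro heq
    apply hxN
    apply mem_norm_of_conj
    intro a ha
    have h1 : a⁻¹ * x * a⁻¹⁻¹ * x⁻¹ ∈ A ⊓ V := by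
      rw [heq]
      exact ⟨(le_sup_left : M ≤ M ⊔ C) (hKM _ (inv_mem ha)), hMV (hKM _ (inv_mem ha))⟩
    have h2 := mul_mem ha h1.1
    have h3 : a * (a⁻¹ * x * a⁻¹⁻¹ * x⁻¹) = x * a * x⁻¹ := by group
    rwa [h3] at h2
  · exact sup_le hMN (hCA.trans le_normalizer)

end Pool.MP_2b9f9a_al.TH30
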