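import Pool.Agent.Lib.MP_2b9f9a_al.TH.Stmts50
import Pool.Agent.Lib.MP_2b9f9a_al.TH.Repl30

/-!
Row StRepl (helper30).
-/

namespace Pool.Agent.Lib.MP_2b9f9a_al.TH

open Subgroup

universe u

theorem stRepl_30 : StRepl.{u} := by
  intro p G _ _ _ P V hP hVP hVn hVc hex
  classical
  let S : Set (Subgroup G) := {A | MaxAb P A ∧ ¬ A ≤ centralizer (V : Set G)}
  have hSne : S.Nonempty := hex
  obtain ⟨A, ⟨⟨hAP, hAc, hAmax⟩, hAU⟩, hmax⟩ := Set.exists_max_image S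
    (fun A => Nat.card ↥(A ⊓ V)) (Set.toFinite S) hSne
  refine ⟨A, ⟨hAP, hAc, hAmax⟩, hAU, ?_⟩
  have hPn : Group.IsNilpotent P := hP.isNilpotent
  have hVn' : ∀ g ∈ P, ∀ v ∈ V, g * v * g⁻¹ ∈ V := fun g _ v hv => hVn.conj_mem v hv g
  have hVA : V ≤ normalizer (A : Set G) := by
    by_contra hn
    obtain ⟨B, hBP, hBc, hBcard, hlt, hBn⟩ :=
      Pool.MP_2b9f9a_al.TH30.replacement P V A hPn hVP hVn' hVc hAP hAc hAmax hn
    have hBmax : ∀ D ≤ P, (∀ v ∈ D, ∀ w ∈ D, v * w = w * v) → Nat.card D ≤ Nat.card B := by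
      intro D hD hDc
      rw [hBcard]
      exact hAmax D hD hDc
    have hBU : B ≤ centralizer (V : Set G) := by
      by_contra hBU
      have h1 := hmax B ⟨⟨hBP, hBc, hBmax⟩, hBU⟩
      exact hlt.ne (Subgroup.eq_of_le_of_card_ge hlt.le h1)
    have hsup := Pool.MP_2b9f9a_al.TH30.sup_comm V B hVc hBc
      (fun v hv b hb => mem_centralizer_iff.1 (hBU hb) v hv)
    have h2 := hBmax (V ⊔ B) (sup_le hVP hBP) hsup
    have h3 : B = V ⊔ B := Subgroup.eq_of_le_of_card_ge le_sup_right h2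
    have h4 : V ≤ B := by rw [h3]; exact le_sup_left
    exact hn (h4.trans hBn)
  intro v hv a ha
  exact (mem_normalizer_iff.1 (hVA hv) a).1 ha

end Pool.Agent.Lib.MP_2b9f9a_al.TH
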