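import Pool.Agent.Lib.MP_2b9f9a_al.TH.T5_29

set_option autoImplicit false

/-!
# Thompson's theorem: the assembly (T5d)
-/

namespace Pool.Agent.TH29

/-- `G` has a normal `p`-complement. -/
def NC29 (p : ℕ) (G : Type) [Group G] : Prop :=
  ∃ K : Subgroup G, K.Normal ∧ ¬ p ∣ Nat.card K ∧ ∃ k, K.index = p ^ k

/-- Thompson's normal `p`-complement theorem (`p` odd), in the form with all characteristic
subgroups of a Sylow subgroup. -/
def St71 : Prop :=
  ∀ (G : Type) [Group G] [Finite G] (p : ℕ) [Fact p.Prime], p ≠ 2 → ∀ P : Sylow p G,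
    (∀ X : Subgroup P, X.Characteristic → X ≠ ⊥ →
      NC29 p (Subgroup.normalizer ((X.map (P : Subgroup G).subtype : Subgroup G) : Set G))) →
    NC29 p G

/-- A finite nilpotent group has a normal `p`-complement. -/
lemma nc_of_nilpotent (p : ℕ) [hp : Fact p.Prime] (G : Type) [Group G] [Finite G]
    (hG : Group.IsNilpotent G) : NC29 p G := by
  by_cases hd : p ∣ Nat.card G
  swap
  · refine ⟨⊤, inferInstance, ?_, 0, by simp⟩
    rwa [Subgroup.card_top]
  obtain ⟨e⟩ := ((Group.isNilpotent_of_finite_tfae (G := G)).out 0 4).mp hG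
  have hmem : p ∈ (Nat.card G).primeFactors :=
    Nat.mem_primeFactors.mpr ⟨hp.out, hd, Nat.card_pos.ne'⟩
  let s0 : (Nat.card G).primeFactors := ⟨p, hmem⟩
  let pi : G →* (∀ P : Sylow s0 G, (P : Subgroup G)) :=
    (Pi.evalMonoidHom (fun s : (Nat.card G).primeFactors => ∀ P : Sylow s G, (P : Subgroup G))
      s0).comp e.symm.toMonoidHom
  have hpi : ∀ g, pi g = e.symm g s0 := fun g => rfl
  refine ⟨pi.ker, inferInstance, ?_, ?_⟩
  · intro hdv
    obtain ⟨g, hg⟩ := exists_prime_orderOf_dvd_card' (G := pi.ker) p hdv
    have hgp : (g : G) ^ p = 1 := by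
      have := pow_orderOf_eq_one g
      rw [hg] at this
      exact congrArg Subtype.val this
    have hx : e.symm (g : G) = 1 := by
      funext s P
      by_cases hs : s = s0
      · subst hs
        have h1 : pi g = 1 := g.2
        rw [hpi] at h1
        rw [h1]
        rfl
      · have hsp : Fact (s : ℕ).Prime := ⟨(Nat.mem_primeFactors.mp s.2).1⟩
        have hne : p ≠ s := fun h => hs (Subtype.ext h.symm)
        have h2 : (e.symm (g : G) s P) ^ p = 1 := by
          have h3 : (e.symm (g : G)) ^ p = 1 := by rw [← map_pow, hgp, map_one]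
          have h4 := congrFun (congrFun h3 s) P
          exact h4
        have h5 : orderOf (e.symm (g : G) s P) ∣ p := orderOf_dvd_of_pow_eq_one h2
        obtain ⟨k, hk⟩ := IsPGroup.iff_orderOf.mp P.isPGroup' (e.symm (g : G) s P)
        have h6 : orderOf (e.symm (g : G) s P) = 1 := by
          rcases (Nat.dvd_prime hp.out).mp h5 with h7 | h7
          · exact h7
          · exfalso
            rw [h7] at hk
            have h8 : p ∣ (s : ℕ) ^ k := by rw [← hk]
            exact hne ((Nat.prime_dvd_prime_iff_eq hp.out hsp.out).mp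
              (hp.out.dvd_of_dvd_pow h8))
        rw [orderOf_eq_one_iff] at h6
        rw [h6]
        rfl
    have h9 : (g : G) = 1 := by
      have := congrArg e hx
      simpa using this
    have h10 : g = 1 := Subtype.ext h9
    rw [h10, orderOf_one] at hg
    exact hp.out.one_lt.ne hg
  · have hq : IsPGroup p (G ⧸ pi.ker) := by
      intro x
      obtain ⟨g, rfl⟩ := QuotientGroup.mk_surjective x
      refine ⟨(Nat.card G).factorization p, ?_⟩
      rw [← QuotientGroup.mk_pow, QuotientGroup.eq_one_iff, MonoidHom.mem_ker, map_pow]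
      funext P
      have h1 : Nat.card (P : Subgroup G) = p ^ (Nat.card G).factorization p :=
        Sylow.card_eq_multiplicity (p := p) P
      have h2 : (pi g P) ^ (p ^ (Nat.card G).factorization p) = 1 := by
        rw [← h1]
        exact pow_card_eq_one'
      exact h2
    obtain ⟨k, hk⟩ := IsPGroup.iff_card.mp hq
    exact ⟨k, hk⟩

/-- Uniqueness of the complement: it is invariant under automorphisms. -/
lemma nc_inv (p : ℕ) (hp : p.Prime) {G : Type} [Group G] [Finite G] (K : Subgroup G) [K.Normal]
    (h1 : ¬ p ∣ Nat.card K) (k : ℕ) (h2 : K.index = p ^ k) (phi : MulAut G) :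
    ∀ x ∈ K, phi x ∈ K := by
  intro x hx
  have h3 : x ^ Nat.card K = 1 :=
    congrArg Subtype.val (pow_card_eq_one' (x := (⟨x, hx⟩ : K)))
  have h4 : (QuotientGroup.mk (phi x) : G ⧸ K) ^ Nat.card K = 1 := by
    rw [← QuotientGroup.mk_pow, ← map_pow, h3, map_one]
    rfl
  have h5 : orderOf (QuotientGroup.mk (phi x) : G ⧸ K) ∣ Nat.card K :=
    orderOf_dvd_of_pow_eq_one h4
  have h6 : orderOf (QuotientGroup.mk (phi x) : G ⧸ K) ∣ p ^ k := by
    rw [← h2]
    exact orderOf_dvd_natCard _
  have h7 : Nat.Coprime (Nat.card K) (p ^ k) :=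
    (Nat.Coprime.pow_right k ((Nat.Prime.coprime_iff_not_dvd hp).mpr h1).symm)
  have h8 : orderOf (QuotientGroup.mk (phi x) : G ⧸ K) = 1 :=
    Nat.dvd_one.mp (h7 ▸ Nat.dvd_gcd h5 h6)
  rw [orderOf_eq_one_iff, QuotientGroup.eq_one_iff] at h8
  exact h8

/-- The assembly. -/
theorem thompson_aux (H71 : St71) (n : ℕ) : ∀ (G : Type) [Group G] [Finite G] (p : ℕ), p.Prime →
    ∀ phi : MulAut G, Nat.card G = n → phi ^ p = 1 → Fpf phi → Group.IsNilpotent G := by
  induction n using Nat.strong_induction_on with
  | _ n ih =>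
  intro G _ _ p hpp phi hcard hp hfix
  by_cases hodd : ∃ r, r.Prime ∧ r ≠ 2 ∧ r ∣ Nat.card G
  swap
  · -- a 2-group
    have h2 : ∀ {d : ℕ}, d.Prime → d ∣ Nat.card G → d = 2 := by
      intro d hd hdd
      by_contra hne
      exact hodd ⟨d, hd, hne, hdd⟩
    have h3 := Nat.eq_prime_pow_of_unique_prime_dvd Nat.card_pos.ne' h2
    have h4 : IsPGroup 2 G := IsPGroup.of_card h3
    have h5 : Fact (Nat.Prime 2) := ⟨Nat.prime_two⟩
    exact h4.isNilpotent
  obtain ⟨r, hr, hr2, hrd⟩ := hodd
  have hrF : Fact r.Prime := ⟨hr⟩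
  have hsolv : Group.IsSolvable G := by
    obtain ⟨P, hP⟩ := exists_inv_sylow phi hfix r
    have hinvX : ∀ X : Subgroup (P : Subgroup G), X.Characteristic →
        ∀ x ∈ X.map (P : Subgroup G).subtype, phi x ∈ X.map (P : Subgroup G).subtype := by
      rintro X hX _ ⟨x, hx, rfl⟩
      have h1 := Subgroup.characteristic_iff_map_eq.mp hX (res phi (P : Subgroup G) hP)
      have h2 : res phi (P : Subgroup G) hP x ∈ X := by
        rw [← h1]
        exact ⟨x, hx, rfl⟩
      exact ⟨_, h2, rfl⟩
    by_cases hX : ∃ X : Subgroup (P : Subgroup G), X.Characteristic ∧ X ≠ ⊥ ∧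
        Subgroup.normalizer ((X.map (P : Subgroup G).subtype : Subgroup G) : Set G) = ⊤
    · obtain ⟨X, hXc, hX0, hXn⟩ := hX
      set Y : Subgroup G := X.map (P : Subgroup G).subtype with hY
      have hYn : Y.Normal := Subgroup.normalizer_eq_top_iff.mp hXn
      have hY0 : 1 < Nat.card Y := by
        rw [hY, Subgroup.card_map_of_injective (Subgroup.subtype_injective _),
          Subgroup.one_lt_card_iff_ne_bot]
        exact hX0
      have hYs : Group.IsSolvable Y := by
        have h1 : IsPGroup r Y := by
          rw [hY]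
          exact (P.isPGroup'.to_subgroup X).map _
        have := h1.isNilpotent
        infer_instance
      have hquo : Group.IsNilpotent (G ⧸ Y) := by
        have hc := Subgroup.card_eq_card_quotient_mul_card_subgroup Y
        have hpos : 0 < Nat.card (G ⧸ Y) := Nat.card_pos
        have hlt : Nat.card (G ⧸ Y) < n := by
          rw [← hcard, hc]
          nlinarith
        exact ih _ hlt (G ⧸ Y) p hpp (quo phi Y (hinvX X hXc)) rfl
          (quo_pow phi Y _ p hp) (quo_fpf phi Y _ hfix)
      exact (Group.isSolvable_iff_subgroup_quotient Y).mpr ⟨hYs, inferInstance⟩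
    · have hNC : NC29 r G := by
        apply H71 G r hr2 P
        intro X hXc hX0
        set N := Subgroup.normalizer ((X.map (P : Subgroup G).subtype : Subgroup G) : Set G) with hN
        have hNt : N ≠ ⊤ := fun h => hX ⟨X, hXc, hX0, h⟩
        have hNphi : ∀ x ∈ N, phi x ∈ N := by
          intro x hx
          have hmap := map_eq_of_inv phi _ (hinvX X hXc)
          rw [hN, Subgroup.mem_normalizer_iff] at hx ⊢
          intro h
          obtain ⟨h', rfl⟩ := phi.surjective h
          have hmem : ∀ y, phi y ∈ (X.map (P : Subgroup G).subtype : Subgroup G) ↔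
              y ∈ (X.map (P : Subgroup G).subtype : Subgroup G) := by
            intro y
            constructor
            · intro hy
              rw [← hmap] at hy
              obtain ⟨z, hz, hz2⟩ := hy
              have : z = y := phi.injective hz2
              rwa [← this]
            · exact hinvX X hXc y
          have h3 : phi x * phi h' * (phi x)⁻¹ = phi (x * h' * x⁻¹) := by simp
          have hx' := hx h'
          rw [h3, hmem, hmem]
          exact hx'
        have hlt : Nat.card N < n := by
          rw [← hcard]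
          exact lt_of_le_of_ne (Subgroup.card_le_card_group N)
            (fun h => hNt (Subgroup.card_eq_iff_eq_top N |>.mp h))
        exact nc_of_nilpotent r N (ih _ hlt N p hpp (res phi N hNphi) rfl
          (res_pow phi N hNphi p hp) (res_fpf phi N hNphi hfix))
      obtain ⟨K, hKn, hK1, k, hK2⟩ := hNC
      have hKphi := nc_inv r hr K hK1 k hK2 phi
      have hlt : Nat.card K < n := by
        rw [← hcard]
        apply lt_of_le_of_ne (Subgroup.card_le_card_group K)
        intro h
        rw [h] at hK1
        exact hK1 hrd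
      have hKnil := ih _ hlt K p hpp (res phi K hKphi) rfl
          (res_pow phi K hKphi p hp) (res_fpf phi K hKphi hfix)
      have hQ : IsPGroup r (G ⧸ K) := IsPGroup.of_card (n := k) hK2
      have hQn := hQ.isNilpotent
      exact (Group.isSolvable_iff_subgroup_quotient K).mpr ⟨inferInstance, inferInstance⟩
  exact solv n G p hpp phi hcard hsolv hp hfix

/-- Thompson's theorem from Thompson's normal `p`-complement theorem. -/
theorem thompson_of71 (H71 : St71) : ∀ (G : Type) [Group G] [Finite G] (p : ℕ) [Fact p.Prime]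
    (phi : MulAut G), phi ^ p = 1 → (∀ g, phi g = g → g = 1) → Group.IsNilpotent G :=
  fun G _ _ p hp phi h1 h2 => thompson_aux H71 (Nat.card G) G p hp.out phi rfl h1 h2

end Pool.Agent.TH29
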