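import Pool.Agent.Lib.MP_2b9f9a_al.TH.Stmts50
import Pool.Agent.Lib.MP_2b9f9a_al.TH.T5d_29

set_option autoImplicit false

/-!
# Thompson's theorem: the assembly in the words of the statement file (helper29)
-/

namespace Pool.Agent.TH29

open Pool.Agent.Lib.MP_2b9f9a_al.TH

lemma map_top_aut {G : Type} [Group G] (phi : G ≃* G) :
    (⊤ : Subgroup G).map phi.toMonoidHom = ⊤ := by
  rw [← MonoidHom.range_eq_map]
  exact MonoidHom.range_eq_top.mpr phi.surjective

theorem st71_of (hTT : StTT.{0}) (hZm : StZmap.{0}) (hJm : StJmap.{0}) (hZn : StZne.{0})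
    (hJn : StJne.{0}) : St71 := by
  intro G _ _ p _ hp2 P hX
  by_cases hP : (P : Subgroup G) = ⊥
  · refine ⟨⊤, inferInstance, ?_, 0, by simp⟩
    rw [Subgroup.card_top]
    intro hd
    exact Sylow.ne_bot_of_dvd_card P hd hP
  have hne : (⊤ : Subgroup (P : Subgroup G)) ≠ ⊥ := by
    intro h
    apply hP
    rw [eq_bot_iff]
    intro x hx
    have h1 : (⟨x, hx⟩ : (P : Subgroup G)) ∈ (⊤ : Subgroup (P : Subgroup G)) := Subgroup.mem_top _
    rw [h, Subgroup.mem_bot] at h1
    exact congrArg Subtype.val h1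
  have hpg : IsPGroup p (⊤ : Subgroup (P : Subgroup G)) := P.isPGroup'.to_subgroup ⊤
  have hmt : (⊤ : Subgroup (P : Subgroup G)).map (P : Subgroup G).subtype = P := by
    rw [← MonoidHom.range_eq_map, Subgroup.range_subtype]
  have hinj : Set.InjOn (P : Subgroup G).subtype (⊤ : Subgroup (P : Subgroup G)) :=
    (Subgroup.subtype_injective _).injOn
  -- the centre
  have hZc : (Z1 p (⊤ : Subgroup (P : Subgroup G))).Characteristic := by
    rw [Subgroup.characteristic_iff_map_eq]
    intro phi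
    rw [← hZm p _ _ phi.toMonoidHom ⊤ phi.injective.injOn, map_top_aut]
  have hZe : (Z1 p (⊤ : Subgroup (P : Subgroup G))).map (P : Subgroup G).subtype =
      Z1 p (P : Subgroup G) := by
    rw [← hZm p _ _ _ ⊤ hinj, hmt]
  have hJc : (JJ (⊤ : Subgroup (P : Subgroup G))).Characteristic := by
    rw [Subgroup.characteristic_iff_map_eq]
    intro phi
    rw [← hJm _ _ phi.toMonoidHom ⊤ phi.injective.injOn, map_top_aut]
  have hJe : (JJ (⊤ : Subgroup (P : Subgroup G))).map (P : Subgroup G).subtype =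
      JJ (P : Subgroup G) := by
    rw [← hJm _ _ _ ⊤ hinj, hmt]
  have h1 := hX _ hZc (hZn p _ ⊤ hpg hne)
  have h2 := hX _ hJc (hJn p _ ⊤ hpg hne)
  rw [hZe] at h1
  rw [hJe] at h2
  exact hTT p G hp2 P ⟨h1, h2⟩

/-- The row `StThompson` of the statement file. -/
theorem stThompson_29 (hTT : StTT.{0}) (hZm : StZmap.{0}) (hJm : StJmap.{0}) (hZn : StZne.{0})
    (hJn : StJne.{0}) : StThompson.{0} :=
  thompson_of71 (st71_of hTT hZm hJm hZn hJn)

end Pool.Agent.TH29
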