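import Pool.Agent.Lib.MP_2b9f9a_al.TH.Stmts50

set_option autoImplicit false

namespace Pool.Agent.Lib.MP_2b9f9a_al.TH

universe u

theorem ttlt_50 (hRed2 : StRed2.{u}) (hEnd : StEnd.{u}) (p : ℕ) [Fact p.Prime] (hp : p ≠ 2) :
    ∀ n : ℕ, TTlt.{u} p n := by
  intro n
  induction n with
  | zero => intro G _ _ h; exact absurd h (Nat.not_lt_zero _)
  | succ n ih =>
    intro G _ _ h P hP
    by_contra hnc
    have h1 : TTlt.{u} p (Nat.card G) := fun G' _ _ h' => ih G' (lt_of_lt_of_le h' (by omega))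
    obtain ⟨U, K, hS⟩ := hRed2 p G P ⟨h1, hP, hnc⟩
    exact hEnd p G _ U K hp hS

theorem stTT_50 (hRed2 : StRed2.{u}) (hEnd : StEnd.{u}) : StTT.{u} := by
  intro p G _ _ _ hp
  exact ttlt_50 hRed2 hEnd p hp (Nat.card G + 1) G (Nat.lt_succ_self _)

end Pool.Agent.Lib.MP_2b9f9a_al.TH
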