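import Pool.Agent.Lib.MP_2b9f9a_al.TH.NC_50
import Pool.Agent.Lib.MP_2b9f9a_al.TH.TT_50
import Pool.Agent.Lib.MP_2b9f9a_al.TH.Frob_93
import Pool.Agent.Lib.MP_2b9f9a_al.TH.Fun9
import Pool.Agent.Lib.MP_2b9f9a_al.TH.Repl_30
import Pool.Agent.Lib.MP_2b9f9a_al.TH.Kab_77
import Pool.Agent.Lib.MP_2b9f9a_al.TH.End_77
import Pool.Agent.Lib.MP_2b9f9a_al.TH.Red1_44
import Pool.Agent.Lib.MP_2b9f9a_al.TH.Red2_28
import Pool.Agent.Lib.MP_2b9f9a_al.TH.StThompson_29

set_option autoImplicit false

/-!
# Thompson's theorems (union of the rows)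

Rows: helper93 (Frobenius), helper9 (functors), helper44 and helper28 (reductions), helper30
(replacement), helper77 (last step), helper29 (soluble case, assembly), helper50.
-/

namespace Pool.Agent.Lib.MP_2b9f9a_al.TH

universe u

theorem stHsub_all50 : StHsub.{u} := stHsub_9 stNCmap_50 stNCle_50

theorem stRed1_all50 : StRed1.{u} :=
  red1_44 stFrob_93 stNCcent_50 stHsub_all50 (stHconj_9 stNCmap_50) stNorm_9 stZne_9 stJne_9
    stJle_9

theorem stCent_all50 : StCent.{u} := TH28.stCent_28 stNorm_9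

theorem stRed2_all50 : StRed2.{u} :=
  TH28.stRed2_28 stRed1_all50 stNorm_9 stZne_9 stJne_9 stJle_9 (stHquot_9 stNCmap_50) stNCker_50

theorem stKab_all50 : StKab.{u} := stKab_77 stCent_all50 stHsub_all50 stNCcent_50

theorem stEnd_all50 : StEnd.{u} :=
  stEnd_77 stCent_all50 stKab_all50 stRepl_30 stJsub_9 stNorm_9

/-- **Thompson's normal complement theorem** for odd primes, two functors -/
theorem stTT_all50 : StTT.{u} := stTT_50 stRed2_all50 stEnd_all50

/-- **Thompson 1959**: a finite group with a fixed-point-free automorphism of prime order is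
nilpotent -/
theorem stThompson_all50 : StThompson.{0} :=
  Pool.Agent.TH29.stThompson_29 stTT_all50 stZmap_9 stJmap_9 stZne_9 stJne_9

/-- the version for a nontrivial group of automorphisms all of whose nonidentity elements are
fixed point free -/
theorem nilpotent_all50 (G : Type) [Group G] [Finite G] (F : Subgroup (MulAut G)) (hF : F ≠ ⊥)
    (hfree : ∀ y ∈ F, y ≠ 1 → ∀ g : G, y g = g → g = 1) : Group.IsNilpotent G := by
  have hnt : Nontrivial F := (Subgroup.nontrivial_iff_ne_bot F).2 hF
  have hfin : Finite F := inferInstance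
  obtain ⟨p, hp, hpd⟩ := Nat.exists_prime_and_dvd (Finite.one_lt_card (α := F)).ne'
  have := Fact.mk hp
  obtain ⟨x, hx⟩ := exists_prime_orderOf_dvd_card' p hpd
  refine stThompson_all50 G p (x : MulAut G) ?_ (hfree x x.2 ?_)
  · have : x ^ p = 1 := by rw [← hx, pow_orderOf_eq_one]
    have := congrArg Subtype.val this
    simpa using this
  · intro h
    have h1 : x = 1 := Subtype.ext h
    rw [h1, orderOf_one] at hx
    exact hp.one_lt.ne hx

end Pool.Agent.Lib.MP_2b9f9a_al.TH
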