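import Pool.Agent.Lib.MP_2b9f9a_al.TH.Stmts50

set_option autoImplicit false

namespace Pool.Agent.Lib.MP_2b9f9a_al.TH

universe u

theorem stNCmap_50 : StNCmap.{u} := by
  rintro p G G' _ _ _ _ hp f hf ⟨K, hK, hKp, k, hk⟩
  refine ⟨K.map f, hK.map f hf, fun h => hKp (h.trans (Subgroup.card_map_dvd K f)), ?_⟩
  have h1 := Subgroup.index_map_dvd K hf
  rw [hk] at h1
  obtain ⟨j, -, hj⟩ := (Nat.dvd_prime_pow hp.out).1 h1
  exact ⟨j, hj⟩

theorem stNCsub_50 : StNCsub.{u} := by
  rintro p G _ _ hp ⟨K, hK, hKp, k, hk⟩ H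
  refine ⟨K.subgroupOf H, inferInstance, fun h => hKp (h.trans ?_), ?_⟩
  · exact Subgroup.card_comap_dvd_of_injective K H.subtype H.subtype_injective
  · have h1 : K.relIndex H ∣ K.index := Subgroup.relIndex_dvd_index_of_normal K H
    rw [hk] at h1
    obtain ⟨j, -, hj⟩ := (Nat.dvd_prime_pow hp.out).1 h1
    exact ⟨j, hj⟩

theorem stNCle_50 : StNCle.{u} := by
  intro p G _ _ _ H L hHL hL
  have h1 := stNCsub_50 p L hL (H.subgroupOf L)
  exact stNCmap_50 p _ _ (Subgroup.subgroupOfEquivOfLe hHL).toMonoidHom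
    (Subgroup.subgroupOfEquivOfLe hHL).surjective h1

theorem card_not_dvd50 {p : ℕ} (hp : p.Prime) {G : Type u} [Group G] [Finite G] (K : Subgroup G)
    (h : ∀ x ∈ K, orderOf x ≠ p) : ¬ p ∣ Nat.card K := by
  have := Fact.mk hp
  intro h1
  obtain ⟨x, hx⟩ := exists_prime_orderOf_dvd_card' p h1
  exact h x.1 x.2 (by rw [← hx, Subgroup.orderOf_coe])

theorem order_not_dvd50 {p : ℕ} {G : Type u} [Group G] {K : Subgroup G}
    (h : ¬ p ∣ Nat.card K) {x : G} (hx : x ∈ K) : ¬ p ∣ orderOf x := fun h1 =>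
  h (h1.trans (Subgroup.orderOf_dvd_natCard K hx))

theorem stNCker_50 : StNCker.{u} := by
  rintro p G G' _ _ _ _ hp f hf hker ⟨K, hK, hKp, k, hk⟩
  refine ⟨K.comap f, hK.comap f, ?_, k, by rw [Subgroup.index_comap_of_surjective K hf, hk]⟩
  apply card_not_dvd50 hp.out
  intro x hx hxp
  have h1 : orderOf (f x) ∣ p := hxp ▸ orderOf_map_dvd f x
  rcases (Nat.dvd_prime hp.out).1 h1 with h2 | h2
  · have h3 : x ∈ f.ker := by
      rw [MonoidHom.mem_ker]
      exact orderOf_eq_one_iff.1 h2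
    exact order_not_dvd50 hker h3 (hxp ▸ dvd_rfl)
  · exact order_not_dvd50 hKp (Subgroup.mem_comap.1 hx) (h2 ▸ dvd_rfl)

theorem stNCreg_50 : StNCreg.{u} := by
  rintro p G _ _ hp K hK hKp ⟨k, hk⟩ x
  refine ⟨fun hx => order_not_dvd50 hKp hx, fun hx => ?_⟩
  rw [← QuotientGroup.eq_one_iff, ← orderOf_eq_one_iff]
  have h1 : orderOf (x : G ⧸ K) ∣ orderOf x := orderOf_map_dvd (QuotientGroup.mk' K) x
  have h2 : orderOf (x : G ⧸ K) ∣ p ^ k := hk ▸ orderOf_dvd_natCard _
  obtain ⟨j, -, hj⟩ := (Nat.dvd_prime_pow hp.out).1 h2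
  rcases Nat.eq_zero_or_pos j with h0 | h0
  · rw [hj, h0, pow_zero]
  · exact absurd ((hj ▸ dvd_pow_self p h0.ne' : p ∣ orderOf (x : G ⧸ K)).trans h1) hx

theorem pgroup_reg50 {p : ℕ} [Fact p.Prime] {G : Type u} [Group G] [Finite G] {U : Subgroup G}
    (hU : IsPGroup p U) {y : G} (hy : y ∈ U) (h : ¬ p ∣ orderOf y) : y = 1 := by
  obtain ⟨k, hk⟩ := hU ⟨y, hy⟩
  have h1 : orderOf y ∣ p ^ k := by
    apply orderOf_dvd_of_pow_eq_one
    have := congrArg Subtype.val hk
    simpa using this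
  obtain ⟨j, -, hj⟩ := (Nat.dvd_prime_pow (Fact.out : p.Prime)).1 h1
  rcases Nat.eq_zero_or_pos j with h0 | h0
  · rw [h0, pow_zero] at hj
    exact orderOf_eq_one_iff.1 hj
  · exact absurd (hj ▸ dvd_pow_self p h0.ne') h

theorem stNCcent_50 : StNCcent.{u} := by
  rintro p G _ _ hp ⟨K, hK, hKp, hk⟩ U hU hUp x hx u hu
  have hxK : x ∈ K := (stNCreg_50 p G K hK hKp hk x).2 hx
  have h1 : x * u * x⁻¹ * u⁻¹ ∈ K := by
    have := K.mul_mem hxK (hK.conj_mem _ (K.inv_mem hxK) u)
    simpa [mul_assoc] using this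
  have h2 : x * u * x⁻¹ * u⁻¹ ∈ U := U.mul_mem (hU.conj_mem _ hu x) (U.inv_mem hu)
  have h3 := pgroup_reg50 hUp h2 (order_not_dvd50 hKp h1)
  rw [mul_inv_eq_one, mul_inv_eq_iff_eq_mul] at h3
  exact h3

theorem stNCnormal_50 : StNCnormal.{u} := by
  rintro p G _ _ hp N hN ⟨K, hK, hKp, k, hk⟩
  have hmem : ∀ x : G, x ∈ K.map N.subtype ↔ x ∈ N ∧ ¬ p ∣ orderOf x := by
    intro x
    constructor
    · rintro ⟨y, hy, rfl⟩
      refine ⟨y.2, ?_⟩
      rw [Subgroup.coe_subtype, Subgroup.orderOf_coe]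
      exact (stNCreg_50 p N K hK hKp ⟨k, hk⟩ y).1 hy
    · rintro ⟨hx, hx'⟩
      refine ⟨⟨x, hx⟩, ?_, rfl⟩
      apply (stNCreg_50 p N K hK hKp ⟨k, hk⟩ _).2
      rwa [← Subgroup.orderOf_coe]
  refine ⟨K.map N.subtype, ⟨fun x hx g => ?_⟩, ?_, ?_, ⟨k, ?_⟩, hmem⟩
  · rw [hmem] at hx ⊢
    refine ⟨hN.conj_mem _ hx.1 g, ?_⟩
    have : orderOf (g * x * g⁻¹) = orderOf x := by
      have := orderOf_injective (MulAut.conj g).toMonoidHom (MulAut.conj g).injective x
      simpa [MulAut.conj_apply] using this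
    rw [this]
    exact hx.2
  · rintro x ⟨y, -, rfl⟩
    exact y.2
  · rwa [Subgroup.card_map_of_injective N.subtype_injective]
  · rw [Subgroup.relIndex, Subgroup.subgroupOf, Subgroup.comap_map_eq_self_of_injective
      N.subtype_injective, hk]

theorem stNCnil_50 : StNCnil.{u} := by
  intro p G _ _ hp hG
  by_cases hpG : p ∣ Nat.card G
  · obtain ⟨e⟩ := (Group.isNilpotent_of_finite_tfae (G := G)).out 0 4 rfl rfl |>.mp hG
    let P : Sylow p G := default
    have hpm : p ∈ (Nat.card G).primeFactors := by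
      rw [Nat.mem_primeFactors]
      exact ⟨hp.out, hpG, Nat.card_pos.ne'⟩
    let pp : (Nat.card G).primeFactors := ⟨p, hpm⟩
    let f : (∀ p : (Nat.card G).primeFactors, ∀ P : Sylow p G, (↑P : Subgroup G)) →* P :=
      (Pi.evalMonoidHom (fun Q : Sylow (pp : ℕ) G => (↑Q : Subgroup G)) P).comp
        (Pi.evalMonoidHom (fun p : (Nat.card G).primeFactors =>
          ∀ P : Sylow p G, (↑P : Subgroup G)) pp)
    let g : G →* P := f.comp e.symm.toMonoidHom
    refine ⟨g.ker, inferInstance, ?_, ?_⟩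
    · apply card_not_dvd50 hp.out
      intro x hx hxp
      have hy : (e.symm x) ^ p = 1 := by
        rw [← map_pow, ← hxp, pow_orderOf_eq_one, map_one]
      have hz : e.symm x = 1 := by
        funext q Q
        have hqp : Fact (q : ℕ).Prime := ⟨Nat.prime_of_mem_primeFactors q.2⟩
        by_cases hq : q = pp
        · subst hq
          have hQP : Q = P := by
            have : (P : Subgroup G).Normal :=
              (Group.isNilpotent_of_finite_tfae (G := G)).out 0 3 rfl rfl |>.mp hG p hp P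
            have := Sylow.unique_of_normal P this
            exact Subsingleton.elim _ _
          subst hQP
          exact hx
        · have h1 : (e.symm x q Q) ^ p = 1 := by
            have := congrFun (congrFun hy q) Q
            simpa using this
          have h2 : IsPGroup (q : ℕ) Q := Q.2
          obtain ⟨k, hk⟩ := h2 (e.symm x q Q)
          have h3 : orderOf (e.symm x q Q) ∣ p := orderOf_dvd_of_pow_eq_one h1
          have h4 : orderOf (e.symm x q Q) ∣ (q : ℕ) ^ k := orderOf_dvd_of_pow_eq_one hk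
          have h5 : Nat.Coprime p ((q : ℕ) ^ k) := by
            apply Nat.Coprime.pow_right
            rw [Nat.coprime_primes hp.out hqp.out]
            rintro rfl
            exact hq (Subtype.ext rfl)
          exact orderOf_eq_one_iff.1 (Nat.dvd_one.1 (h5 ▸ Nat.dvd_gcd h3 h4))
      have : x = 1 := by
        have := congrArg e hz
        simpa using this
      rw [this, orderOf_one] at hxp
      exact hp.out.one_lt.ne hxp
    · have h1 : IsPGroup p g.range := P.2.to_subgroup _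
      obtain ⟨n, hn⟩ := IsPGroup.iff_card.1 h1
      exact ⟨n, by rw [← hn, Subgroup.index_ker]⟩
  · refine ⟨⊤, inferInstance, ?_, 0, by simp⟩
    rwa [Subgroup.card_top]

end Pool.Agent.Lib.MP_2b9f9a_al.TH
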