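import Mathlib

/-!
# The sum over a group with a fixed point free automorphism of prime order

`R` is a finite group acting on an abelian group `M`, `e` is an automorphism of `R` with
`e ^ p = 1` and without fixed points, `f : M → M` is additive and compatible with `e`.
If `m + f m + ... + f ^ (p - 1) m = 0` for all `m`, then `∑ r, r m = |R| m` for all `m`.
-/

namespace MP2b9f9a.TH22

open Finset

/-- `e ^ i` has no fixed points for `0 < i < p`. -/
theorem fpf_pow {R : Type*} [Group R] {p : ℕ} (hp : p.Prime) (e : MulAut R)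
    (he : e ^ p = 1) (hfix : ∀ x, e x = x → x = 1) {i : ℕ} (h0 : 0 < i) (hi : i < p) (x : R)
    (hx : (e ^ i) x = x) : x = 1 := by
  apply hfix
  have hcop : Nat.Coprime i (orderOf e) := by
    have h1 : Nat.Coprime i p := (Nat.coprime_of_lt_prime h0.ne' hi hp).symm
    exact Nat.Coprime.coprime_dvd_right (orderOf_dvd_of_pow_eq_one he) h1
  obtain ⟨k, hk⟩ := exists_pow_eq_self_of_coprime hcop
  have h2 : ∀ k : ℕ, ((e ^ i) ^ k) x = x := by
    intro k
    induction k with
    | zero => simp
    | succ k ih => rw [pow_succ, MulAut.mul_apply, hx, ih]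
  have := h2 k
  rwa [hk] at this

/-- `x ↦ x (e x)⁻¹` is injective for a fixed point free `e`. -/
theorem inj_of_fpf {R : Type*} [Group R] (e : MulAut R) (hfix : ∀ x, e x = x → x = 1) :
    Function.Injective (fun x : R => x * (e x)⁻¹) := by
  intro x y hxy
  simp only at hxy
  have h1 : e (y⁻¹ * x) = y⁻¹ * x := by
    rw [map_mul, map_inv]
    have h2 : x = y * (e y)⁻¹ * e x := by
      rw [← hxy]
      group
    calc (e y)⁻¹ * e x = y⁻¹ * (y * (e y)⁻¹ * e x) := by group
      _ = y⁻¹ * x := by rw [← h2]
  have h3 := hfix _ h1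
  rw [inv_mul_eq_one] at h3
  exact h3.symm

/-- The sum lemma. -/
theorem pl22 {R M : Type*} [Group R] [Fintype R] [AddCommGroup M] [DistribMulAction R M]
    {p : ℕ} (hp : p.Prime) (e : MulAut R) (he : e ^ p = 1) (hfix : ∀ x, e x = x → x = 1)
    (f : M →+ M) (hf : ∀ (x : R) (m : M), f (x • m) = e x • f m)
    (hsum : ∀ m, ∑ i ∈ range p, f^[i] m = 0) (m : M) :
    ∑ r : R, r • m = Fintype.card R • m := by
  classical
  have hfi : ∀ (i : ℕ) (x : R) (m : M), f^[i] (x • m) = (e ^ i) x • f^[i] m := by
    intro i
    induction i with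
    | zero => intro x m; simp
    | succ i ih =>
      intro x m
      rw [Function.iterate_succ_apply, hf, ih, Function.iterate_succ_apply, pow_succ,
        MulAut.mul_apply]
  have h1 : ∑ x : R, x • (∑ i ∈ range p, f^[i] (x⁻¹ • m)) = 0 := by
    simp [hsum]
  have h2 : ∀ x : R, x • (∑ i ∈ range p, f^[i] (x⁻¹ • m))
      = ∑ i ∈ range p, (x * ((e ^ i) x)⁻¹) • f^[i] m := by
    intro x
    rw [Finset.smul_sum]
    refine Finset.sum_congr rfl (fun i _ => ?_)
    rw [hfi, map_inv, smul_smul]
  rw [Finset.sum_congr rfl (fun x _ => h2 x), Finset.sum_comm] at h1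
  have h3 : ∑ i ∈ range p, ∑ x : R, x • f^[i] m = 0 := by
    rw [Finset.sum_comm]
    simp only [← Finset.smul_sum, hsum, smul_zero, Finset.sum_const_zero]
  have hp0 : 0 ∈ range p := Finset.mem_range.mpr hp.pos
  rw [← Finset.add_sum_erase _ _ hp0] at h1 h3
  have h4 : ∑ i ∈ (range p).erase 0, ∑ x : R, (x * ((e ^ i) x)⁻¹) • f^[i] m
      = ∑ i ∈ (range p).erase 0, ∑ x : R, x • f^[i] m := by
    refine Finset.sum_congr rfl (fun i hi => ?_)
    rw [Finset.mem_erase, Finset.mem_range] at hi
    have hinj : Function.Injective (fun x : R => x * ((e ^ i) x)⁻¹) :=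
      inj_of_fpf (e ^ i) (fun x hx => fpf_pow hp e he hfix (Nat.pos_of_ne_zero hi.1) hi.2 x hx)
    have hbij : Function.Bijective (fun x : R => x * ((e ^ i) x)⁻¹) :=
      Finite.injective_iff_bijective.mp hinj
    exact Function.Bijective.sum_comp hbij (fun y => y • f^[i] m)
  rw [h4] at h1
  have h5 := h1.trans h3.symm
  have h6 := add_right_cancel h5
  simp only [pow_zero, MulAut.one_apply, mul_inv_cancel, one_smul, Function.iterate_zero, id_eq,
    Finset.sum_const, Finset.card_univ] at h6
  exact h6.symm

/-- The norm vanishes if `f` has no nonzero fixed point and `f ^ p = 1`. -/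
theorem norm22 {M : Type*} [AddCommGroup M] {p : ℕ} (f : M →+ M) (hfp : ∀ m, f^[p] m = m)
    (hfix : ∀ m, f m = m → m = 0) (m : M) : ∑ i ∈ range p, f^[i] m = 0 := by
  apply hfix
  rw [map_sum]
  have h1 : ∑ i ∈ range p, f (f^[i] m) = ∑ i ∈ range p, f^[i + 1] m := by
    refine Finset.sum_congr rfl (fun i _ => ?_)
    rw [Function.iterate_succ_apply']
  rw [h1]
  have h2 := Finset.sum_range_succ (fun i => f^[i] m) p
  have h3 := Finset.sum_range_succ' (fun i => f^[i] m) p
  simp only [Function.iterate_zero, id_eq] at h3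
  rw [h3, hfp] at h2
  exact add_right_cancel h2

/-- A group of order prime to `r` with a fixed point free automorphism of prime order acts
trivially on an abelian group of exponent dividing `r` with a compatible fixed point free
automorphism of the same order. -/
theorem triv22 {R M : Type*} [Group R] [Fintype R] [AddCommGroup M] [DistribMulAction R M]
    {p : ℕ} (hp : p.Prime) (e : MulAut R) (he : e ^ p = 1) (hfix : ∀ x, e x = x → x = 1)
    (f : M →+ M) (hf : ∀ (x : R) (m : M), f (x • m) = e x • f m)
    (hfp : ∀ m, f^[p] m = m) (hffix : ∀ m, f m = m → m = 0)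
    {r : ℕ} (hr : ∀ m : M, r • m = 0) (hRr : (Fintype.card R).Coprime r) (x : R) (m : M) :
    x • m = m := by
  have h1 := pl22 hp e he hfix f hf (norm22 f hfp hffix) m
  have h2 : x • (∑ r : R, r • m) = ∑ r : R, r • m := by
    rw [Finset.smul_sum]
    simp only [smul_smul]
    exact Function.Bijective.sum_comp (Group.mulLeft_bijective x) (fun y => y • m)
  rw [h1] at h2
  have h3 : Fintype.card R • (x • m - m) = 0 := by
    rw [smul_sub, ← h2, sub_eq_zero]
    rw [smul_comm]
  have h4 : r • (x • m - m) = 0 := hr _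
  have h5 : addOrderOf (x • m - m) ∣ 1 := by
    have h6 := Nat.dvd_gcd (addOrderOf_dvd_of_nsmul_eq_zero h3) (addOrderOf_dvd_of_nsmul_eq_zero h4)
    rwa [hRr] at h6
  rw [Nat.dvd_one, AddMonoid.addOrderOf_eq_one_iff, sub_eq_zero] at h5
  exact h5

/-- The same inside a group: `Q` centralises `V`. -/
theorem comm22 {G : Type*} [Group G] [Finite G] {p : ℕ} (hp : p.Prime) (φ : MulAut G)
    (hφp : φ ^ p = 1) (hfix : ∀ g, φ g = g → g = 1) (V Q : Subgroup G)
    (hVφ : ∀ v ∈ V, φ v ∈ V) (hQφ : ∀ x ∈ Q, φ x ∈ Q)
    (hVc : ∀ x ∈ V, ∀ y ∈ V, x * y = y * x) (hQV : ∀ x ∈ Q, ∀ v ∈ V, x * v * x⁻¹ ∈ V)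
    {r : ℕ} (hVr : ∀ v ∈ V, v ^ r = 1) (hQr : (Nat.card Q).Coprime r) :
    ∀ x ∈ Q, ∀ v ∈ V, x * v = v * x := by
  classical
  letI : CommGroup V := { (inferInstance : Group V) with
    mul_comm := fun a b => Subtype.ext (hVc a a.2 b b.2) }
  letI : Fintype Q := Fintype.ofFinite Q
  have hinjQ : Function.Injective ((φ.toMonoidHom.comp Q.subtype).codRestrict Q
      (fun x => hQφ x x.2)) := by
    intro a b hab
    have := congrArg Subtype.val hab
    exact Subtype.ext (φ.injective this)
  let e : MulAut Q := MulEquiv.ofBijective _ (Finite.injective_iff_bijective.mp hinjQ)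
  have hev : ∀ x : Q, ((e x : Q) : G) = φ x := fun x => rfl
  have hei : ∀ (n : ℕ) (x : Q), (((e ^ n) x : Q) : G) = (φ ^ n) x := by
    intro n
    induction n with
    | zero => intro x; simp
    | succ n ih => intro x; rw [pow_succ, pow_succ, MulAut.mul_apply, MulAut.mul_apply, ih, hev]
  have hep : e ^ p = 1 := by
    ext x
    rw [hei, hφp]
    rfl
  have hefix : ∀ x, e x = x → x = 1 := by
    intro x hx
    exact Subtype.ext (hfix _ (congrArg Subtype.val hx))
  letI actQ : MulDistribMulAction Q V :=
    { smul := fun x v => ⟨x * v * x⁻¹, hQV x x.2 v v.2⟩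
      one_smul := fun v => Subtype.ext (by
        change ((1 : Q) : G) * v * ((1 : Q) : G)⁻¹ = v
        simp)
      mul_smul := fun x y v => Subtype.ext (by
        change ((x * y : Q) : G) * v * ((x * y : Q) : G)⁻¹ = x * (y * v * (y : G)⁻¹) * (x : G)⁻¹
        push_cast
        group)
      smul_mul := fun x v w => Subtype.ext (by
        change (x : G) * ((v * w : V) : G) * (x : G)⁻¹
          = (x * v * (x : G)⁻¹) * (x * w * (x : G)⁻¹)
        push_cast
        group)
      smul_one := fun x => Subtype.ext (by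
        change (x : G) * ((1 : V) : G) * (x : G)⁻¹ = 1
        simp) }
  letI act : DistribMulAction Q (Additive V) :=
    { smul := fun x v => Additive.ofMul (x • v.toMul)
      one_smul := fun v => congrArg Additive.ofMul (one_smul Q v.toMul)
      mul_smul := fun x y v => congrArg Additive.ofMul (mul_smul x y v.toMul)
      smul_add := fun x v w => congrArg Additive.ofMul (smul_mul' x v.toMul w.toMul)
      smul_zero := fun x => congrArg Additive.ofMul (smul_one x) }
  let f0 : V →* V := (φ.toMonoidHom.comp V.subtype).codRestrict V (fun x => hVφ x x.2)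
  let f : Additive V →+ Additive V := f0.toAdditive
  have hfv : ∀ m : Additive V, (((f m).toMul : V) : G) = φ (m.toMul : V) := fun m => rfl
  have hfi : ∀ (n : ℕ) (m : Additive V), (((f^[n] m).toMul : V) : G) = (φ ^ n) (m.toMul : V) := by
    intro n
    induction n with
    | zero => intro m; simp
    | succ n ih =>
      intro m
      rw [Function.iterate_succ_apply, ih, hfv, pow_succ, MulAut.mul_apply]
  intro x hx v hv
  have key := triv22 (M := Additive V) hp e hep hefix f
    (by
      intro x m
      apply Additive.toMul.injective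
      apply Subtype.ext
      change φ ((x : G) * (m.toMul : V) * (x : G)⁻¹)
        = φ x * (φ (m.toMul : V)) * (φ x)⁻¹
      rw [map_mul, map_mul, map_inv])
    (by
      intro m
      apply Additive.toMul.injective
      apply Subtype.ext
      rw [hfi, hφp]
      rfl)
    (by
      intro m hm
      apply Additive.toMul.injective
      apply Subtype.ext
      apply hfix
      exact (hfv m).symm.trans (congrArg (fun z : Additive V => ((z.toMul : V) : G)) hm))
    (r := r)
    (by
      intro m
      apply Additive.toMul.injective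
      apply Subtype.ext
      change (((m.toMul ^ r : V)) : G) = 1
      rw [Subgroup.coe_pow]
      exact hVr _ m.toMul.2)
    (by rwa [← Nat.card_eq_fintype_card]) ⟨x, hx⟩ (Additive.ofMul ⟨v, hv⟩)
  have key2 : x * v * x⁻¹ = v :=
    congrArg (fun z : Additive V => ((z.toMul : V) : G)) key
  calc x * v = x * v * x⁻¹ * x := by group
    _ = v * x := by rw [key2]

end MP2b9f9a.TH22
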