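import Pool.Agent.Lib.MP_2b9f9a_al.TH.PL22

/-!
# Solvable groups with a fixed point free automorphism of prime order are nilpotent
-/

namespace MP2b9f9a.TH22

open Finset Pointwise

/-- `p` does not divide the order of a finite group with a fixed point free automorphism of
prime order `p`. -/
theorem not_dvd_card {G : Type*} [Group G] [Finite G] {p : ℕ} [Fact p.Prime] (φ : MulAut G)
    (hφp : φ ^ p = 1) (hfix : ∀ g, φ g = g → g = 1) : ¬ p ∣ Nat.card G := by
  have hP : IsPGroup p (Subgroup.zpowers φ) := by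
    apply IsPGroup.of_card_dvd_pow (n := 1)
    rw [pow_one, Nat.card_zpowers]
    exact orderOf_dvd_of_pow_eq_one hφp
  have h1 := hP.card_modEq_card_fixedPoints G
  have h2 : MulAction.fixedPoints (Subgroup.zpowers φ) G = {1} := by
    ext g
    simp only [MulAction.mem_fixedPoints, Set.mem_singleton_iff]
    constructor
    · intro h
      exact hfix g (h ⟨φ, Subgroup.mem_zpowers φ⟩)
    · rintro rfl m
      change (m : MulAut G) 1 = 1
      exact map_one _
  rw [h2] at h1
  simp only [Nat.card_eq_fintype_card, Fintype.card_unique] at h1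
  intro hd
  have h3 : Nat.card G ≡ 1 [MOD p] := by simpa [Nat.card_eq_fintype_card] using h1
  have h4 := (Nat.modEq_zero_iff_dvd.mpr hd).symm.trans h3
  have h5 := (Nat.modEq_iff_dvd' (Nat.zero_le 1)).mp h4
  exact (Fact.out : p.Prime).one_lt.ne' (Nat.dvd_one.mp h5)

/-- A finite group with an automorphism `φ` with `φ ^ p = 1`, `p` prime not dividing the order
of the group, has a `φ`-invariant Sylow `q`-subgroup. -/
theorem exists_inv_sylow {G : Type*} [Group G] [Finite G] {p : ℕ} [Fact p.Prime] (φ : MulAut G)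
    (hφp : φ ^ p = 1) (hpG : ¬ p ∣ Nat.card G) (q : ℕ) [Fact q.Prime] :
    ∃ Q : Sylow q G, ∀ x ∈ (Q : Subgroup G), φ x ∈ (Q : Subgroup G) := by
  have hP : IsPGroup p (Subgroup.zpowers φ) := by
    apply IsPGroup.of_card_dvd_pow (n := 1)
    rw [pow_one, Nat.card_zpowers]
    exact orderOf_dvd_of_pow_eq_one hφp
  have h1 : ¬ p ∣ Nat.card (Sylow q G) := by
    intro h
    apply hpG
    have h2 := Sylow.card_dvd_index (default : Sylow q G)
    exact h.trans (h2.trans (Subgroup.index_dvd_card _))
  obtain ⟨Q, hQ⟩ := hP.nonempty_fixed_point_of_prime_not_dvd_card (Sylow q G) h1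
  refine ⟨Q, fun x hx => ?_⟩
  rw [MulAction.mem_fixedPoints] at hQ
  have h3 := hQ ⟨φ, Subgroup.mem_zpowers φ⟩
  have h4 : φ • Q = Q := h3
  have h5 : φ • (Q : Subgroup G) = Q := by
    rw [← Sylow.pointwise_smul_def, h4]
  rw [← h5]
  exact Subgroup.smul_mem_pointwise_smul x φ _ hx

/-- Fixed point freeness passes to quotients by invariant normal subgroups. -/
theorem fpf_quot {G : Type*} [Group G] [Finite G] (φ : MulAut G)
    (hfix : ∀ g, φ g = g → g = 1) (N : Subgroup G) [N.Normal] (hN : ∀ x ∈ N, φ x ∈ N)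
    (ψ : MulAut (G ⧸ N)) (hψ : ∀ g : G, ψ (g : G ⧸ N) = (φ g : G)) (y : G ⧸ N)
    (hy : ψ y = y) : y = 1 := by
  classical
  obtain ⟨g, rfl⟩ := QuotientGroup.mk_surjective y
  have h1 : (g : G ⧸ N) = (φ g : G) := by
    rw [← hψ]; exact hy.symm
  rw [QuotientGroup.eq] at h1
  -- `h1 : g⁻¹ * φ g ∈ N`; find `n ∈ N` with `n * (φ n)⁻¹ = g⁻¹ φ g`
  have hinjN : Function.Injective (fun n : N => (⟨(n : G) * (φ (n : G))⁻¹,
      N.mul_mem n.2 (N.inv_mem (hN n n.2))⟩ : N)) := by
    intro a b hab
    have h2 := congrArg Subtype.val hab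
    exact Subtype.ext (inj_of_fpf φ hfix h2)
  obtain ⟨n, hn⟩ := (Finite.injective_iff_surjective.mp hinjN) ⟨g⁻¹ * φ g, h1⟩
  have h3 : (n : G) * (φ (n : G))⁻¹ = g⁻¹ * φ g := congrArg Subtype.val hn
  have h4 : φ (g * n) = g * n := by
    rw [map_mul]
    calc φ g * φ (n : G) = g * (g⁻¹ * φ g) * φ (n : G) := by group
      _ = g * ((n : G) * (φ (n : G))⁻¹) * φ (n : G) := by rw [h3]
      _ = g * n := by group
  have h5 := hfix _ h4
  have h6 : g = ((n : G))⁻¹ := by
    rw [eq_inv_iff_mul_eq_one]; exact h5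
  rw [h6]
  exact (QuotientGroup.eq_one_iff _).mpr (N.inv_mem n.2)

/-- If the centraliser of `v` contains a Sylow `q`-subgroup for every prime `q`, then `v` is
central. -/
theorem eq_top_of_sylow {G : Type*} [Group G] [Finite G] (C : Subgroup G)
    (hC : ∀ q : ℕ, ∀ _ : Fact q.Prime, ∃ Q : Sylow q G, (Q : Subgroup G) ≤ C) : C = ⊤ := by
  apply Subgroup.eq_top_of_card_eq
  apply Nat.dvd_antisymm (Subgroup.card_subgroup_dvd_card C)
  rw [Nat.dvd_iff_prime_pow_dvd_dvd]
  intro q k hq hk
  have : Fact q.Prime := ⟨hq⟩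
  obtain ⟨Q, hQ⟩ := hC q ⟨hq⟩
  have h1 : k ≤ (Nat.card G).factorization q :=
    (hq.pow_dvd_iff_le_factorization Nat.card_pos.ne').mp hk
  have h2 : q ^ k ∣ Nat.card Q := by
    rw [Sylow.card_eq_multiplicity]
    exact pow_dvd_pow q h1
  exact h2.trans (Subgroup.card_dvd_of_le hQ)

/-- The centre of a nontrivial finite solvable group with a fixed point free automorphism of
prime order is not trivial. -/
theorem center_ne_bot {G : Type*} [Group G] [Finite G] [Nontrivial G] [Group.IsSolvable G] {p : ℕ}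
    [Fact p.Prime] (φ : MulAut G) (hφp : φ ^ p = 1) (hfix : ∀ g, φ g = g → g = 1) :
    Subgroup.center G ≠ ⊥ := by
  classical
  have hp : p.Prime := Fact.out
  -- the last nontrivial term of the derived series
  obtain ⟨n, hn1, hn2⟩ : ∃ n, derivedSeries G n ≠ ⊥ ∧ derivedSeries G (n + 1) = ⊥ := by
    have hex : ∃ n, derivedSeries G n = ⊥ := (isSolvable_def G).mp inferInstance
    have h0 : Nat.find hex ≠ 0 := by
      intro h
      have := Nat.find_spec hex
      rw [h, derivedSeries_zero] at this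
      exact top_ne_bot this
    obtain ⟨m, hm⟩ := Nat.exists_eq_succ_of_ne_zero h0
    refine ⟨m, ?_, ?_⟩
    · exact Nat.find_min hex (by rw [hm]; exact Nat.lt_succ_self m)
    · have := Nat.find_spec hex
      rwa [hm] at this
  set D := derivedSeries G n with hD
  have hDc : ∀ x ∈ D, ∀ y ∈ D, x * y = y * x := by
    rw [derivedSeries_succ, Subgroup.commutator_eq_bot_iff_le_centralizer] at hn2
    intro x hx y hy
    exact (Subgroup.mem_centralizer_iff.mp (hn2 hx) y hy).symm
  have hDchar : D.Characteristic := derivedSeries_characteristic G n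
  have hDφ : ∀ x ∈ D, φ x ∈ D := by
    intro x hx
    have h1 := hDchar.fixed φ
    have h2 : x ∈ D.comap φ.toMonoidHom := by rw [h1]; exact hx
    exact h2
  have hDn : D.Normal := inferInstance
  -- a prime dividing `|D|`
  have hDnt : Nat.card D ≠ 1 := by
    intro h
    exact hn1 (Subgroup.card_eq_one.mp h)
  obtain ⟨r, hr, hrD⟩ := Nat.exists_prime_and_dvd hDnt
  have : Fact r.Prime := ⟨hr⟩
  -- the elements of order dividing `r` in `D`
  let V : Subgroup G :=
    { carrier := {x | x ∈ D ∧ x ^ r = 1}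
      mul_mem' := by
        rintro a b ⟨ha, ha'⟩ ⟨hb, hb'⟩
        refine ⟨D.mul_mem ha hb, ?_⟩
        have : Commute a b := hDc a ha b hb
        rw [this.mul_pow, ha', hb', one_mul]
      one_mem' := ⟨D.one_mem, one_pow r⟩
      inv_mem' := by
        rintro a ⟨ha, ha'⟩
        exact ⟨D.inv_mem ha, by rw [inv_pow, ha', inv_one]⟩ }
  have hVmem : ∀ x, x ∈ V ↔ x ∈ D ∧ x ^ r = 1 := fun x => Iff.rfl
  have hVn : V.Normal := by
    constructor
    intro x hx g
    rw [hVmem] at hx ⊢
    refine ⟨hDn.conj_mem x hx.1 g, ?_⟩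
    rw [conj_pow, hx.2]
    group
  have hVφ : ∀ x ∈ V, φ x ∈ V := by
    intro x hx
    rw [hVmem] at hx ⊢
    exact ⟨hDφ x hx.1, by rw [← map_pow, hx.2, map_one]⟩
  have hVc : ∀ x ∈ V, ∀ y ∈ V, x * y = y * x := fun x hx y hy => hDc x hx.1 y hy.1
  have hVr : ∀ x ∈ V, x ^ r = 1 := fun x hx => hx.2
  have hVp : IsPGroup r V := fun v => ⟨1, by
    rw [pow_one]
    exact Subtype.ext (by rw [Subgroup.coe_pow]; exact hVr v v.2)⟩
  have hVnt : Nontrivial V := by
    obtain ⟨x, hx⟩ := exists_prime_orderOf_dvd_card' r hrD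
    refine ⟨⟨⟨x, x.2, ?_⟩, 1, ?_⟩⟩
    · have := pow_orderOf_eq_one x
      rw [hx] at this
      rw [← Subgroup.coe_pow, this]
      rfl
    · intro h
      have h1 : (x : G) = 1 := congrArg Subtype.val h
      have h2 : x = 1 := Subtype.ext h1
      rw [h2, orderOf_one] at hx
      exact hr.one_lt.ne hx
  -- a Sylow `r`-subgroup has a nontrivial fixed point on `V`
  let R : Sylow r G := default
  letI act : MulAction R V := MulAction.compHom V
    ((MulAut.conjNormal (H := V)).comp (R : Subgroup G).subtype)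
  have hact : ∀ (g : R) (v : V), (((g • v : V)) : G) = g * v * (g : G)⁻¹ := by
    intro g v
    exact MulAut.conjNormal_apply (H := V) (g : G) v
  have hrV : r ∣ Nat.card V := by
    rcases hVp.card_eq_or_dvd with h | h
    · exact absurd h (Finite.one_lt_card (α := V)).ne'
    · exact h
  obtain ⟨v, hv1, hv2⟩ := R.2.exists_fixed_point_of_prime_dvd_card_of_fixed_point V hrV
    (a := (1 : V)) (by
      intro g
      apply Subtype.ext
      rw [hact]
      simp)
  rw [MulAction.mem_fixedPoints] at hv1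
  have hC : Subgroup.centralizer {(v : G)} = ⊤ := by
    apply eq_top_of_sylow
    intro q hq
    by_cases hqr : q = r
    · subst hqr
      refine ⟨R, fun g hg => ?_⟩
      rw [Subgroup.mem_centralizer_singleton_iff]
      have h1 := hact ⟨g, hg⟩ v
      rw [hv1] at h1
      have h2 : (v : G) = g * v * g⁻¹ := h1
      calc g * (v : G) = g * v * g⁻¹ * g := by group
        _ = v * g := by rw [← h2]
    · obtain ⟨Q, hQ⟩ := exists_inv_sylow φ hφp (not_dvd_card φ hφp hfix) q
      refine ⟨Q, fun g hg => ?_⟩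
      rw [Subgroup.mem_centralizer_singleton_iff]
      refine comm22 hp φ hφp hfix V Q hVφ hQ hVc (fun x _ v hv => hVn.conj_mem v hv x) hVr ?_ g hg
        v v.2
      obtain ⟨k, hk⟩ := IsPGroup.iff_card.mp Q.2
      rw [hk]
      exact Nat.Coprime.pow_left k ((Nat.coprime_primes hq.out hr).mpr hqr)
  intro hcen
  apply hv2
  apply Subtype.ext
  have h1 : (v : G) ∈ Subgroup.center G := by
    rw [Subgroup.mem_center_iff]
    intro g
    have : g ∈ Subgroup.centralizer {(v : G)} := by rw [hC]; trivial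
    exact (Subgroup.mem_centralizer_singleton_iff.mp this)
  rw [hcen, Subgroup.mem_bot] at h1
  exact h1.symm

/-- **Solvable case.** -/
theorem solv22_aux (p : ℕ) [Fact p.Prime] : ∀ (n : ℕ) (G : Type*) [Group G] [Finite G]
    [Group.IsSolvable G] (φ : MulAut G), Nat.card G = n → φ ^ p = 1 → (∀ g, φ g = g → g = 1) →
    Group.IsNilpotent G := by
  intro n
  induction n using Nat.strong_induction_on with
  | _ n ih =>
  intro G _ _ _ φ hn hφp hfix
  classical
  by_cases hG : Nontrivial G
  · have hc := center_ne_bot φ hφp hfix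
    have hmap : (Subgroup.center G).map φ.toMonoidHom = Subgroup.center G :=
      Subgroup.characteristic_iff_map_eq.mp inferInstance φ
    let ψ : MulAut (G ⧸ Subgroup.center G) := QuotientGroup.congr _ _ φ hmap
    have hψ : ∀ g : G, ψ (g : G ⧸ Subgroup.center G) = (φ g : G) := fun g => rfl
    have hψn : ∀ (k : ℕ) (g : G), (ψ ^ k) (g : G ⧸ Subgroup.center G) = ((φ ^ k) g : G) := by
      intro k
      induction k with
      | zero => intro g; simp
      | succ k ih => intro g; rw [pow_succ, pow_succ, MulAut.mul_apply, MulAut.mul_apply, hψ, ih]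
    apply Group.of_quotient_center_nilpotent
    refine ih (Nat.card (G ⧸ Subgroup.center G)) ?_ (G ⧸ Subgroup.center G) ψ rfl ?_ ?_
    · rw [← hn, Subgroup.card_eq_card_quotient_mul_card_subgroup (Subgroup.center G)]
      have h1 : 1 < Nat.card (Subgroup.center G) := by
        by_contra h
        have h2 : Nat.card (Subgroup.center G) = 1 :=
          le_antisymm (not_lt.mp h) Nat.card_pos
        exact hc (Subgroup.card_eq_one.mp h2)
      exact lt_mul_of_one_lt_right Nat.card_pos h1
    · ext y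
      obtain ⟨g, rfl⟩ := QuotientGroup.mk_surjective y
      rw [hψn, hφp]
      rfl
    · intro y hy
      refine fpf_quot φ hfix (Subgroup.center G) ?_ ψ hψ y hy
      intro x hx
      rw [← hmap]
      exact Subgroup.mem_map_of_mem _ hx
  · have : Subsingleton G := not_nontrivial_iff_subsingleton.mp hG
    infer_instance

/-- **Solvable case.** A finite solvable group with a fixed point free automorphism of prime
order is nilpotent. -/
theorem solv22 (G : Type*) [Group G] [Finite G] [Group.IsSolvable G] (p : ℕ) [Fact p.Prime]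
    (φ : MulAut G) (hφp : φ ^ p = 1) (hfix : ∀ g, φ g = g → g = 1) : Group.IsNilpotent G :=
  solv22_aux p (Nat.card G) G φ rfl hφp hfix

end MP2b9f9a.TH22
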