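import Pool.Agent.Lib.MP_2b9f9a_al.TH.Stmts50
import Pool.Agent.Lib.MP_2b9f9a_al.TH.Solv22

/-!
# Rows `StPL` and `StSol`
-/

set_option autoImplicit false

namespace Pool.Agent.Lib.MP_2b9f9a_al.TH

open MP2b9f9a.TH22

universe u

theorem pow_apply_22 {R : Type*} [Group R] (e : MulAut R) (n : ℕ) (r : R) :
    (e ^ n) r = (⇑e)^[n] r := by
  induction n generalizing r with
  | zero => rfl
  | succ n ih => rw [pow_succ, MulAut.mul_apply, ih, Function.iterate_succ_apply]

theorem stPL_22 : StPL.{u} := by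
  intro p hp R _ _ f M _ _ a hfp hfix hfa hsum m
  have he : (f : MulAut R) ^ p = 1 := by
    apply MulEquiv.ext
    intro r
    rw [pow_apply_22]
    exact hfp r
  exact pl22 hp.out f he hfix a hfa hsum m

theorem stSol_22 : StSol.{u} := by
  intro p G _ _ _ phi hT hN
  obtain ⟨N, hNn, hNb, hNt, hNphi⟩ := hN
  obtain ⟨⟨hp, hfix⟩, h1, h2⟩ := hT
  have : Group.IsNilpotent N := h1 N hNt hNphi
  have : Group.IsNilpotent (G ⧸ N) := h2 N hNn hNb hNphi
  have : Group.IsSolvable N := inferInstance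
  have : Group.IsSolvable (G ⧸ N) := inferInstance
  have : Group.IsSolvable G := Group.isSolvable_of_ker_le_range N.subtype (QuotientGroup.mk' N)
    (by rw [QuotientGroup.ker_mk', Subgroup.range_subtype])
  exact solv22 G p phi hp hfix

end Pool.Agent.Lib.MP_2b9f9a_al.TH
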