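import Pool.Agent.Lib.MP_2b9f9a_al.TH.Stmts50

/-!
Thompson room, reduction II (helper28).
-/

namespace TH28

open Subgroup Pool.Agent.Lib.MP_2b9f9a_al.TH

universe u

variable {p : ℕ} [hp : Fact p.Prime]

/-- elements of the complement -/
theorem mem_compl_iff {G : Type u} [Group G] [Finite G] {K : Subgroup G} [K.Normal]
    (hK : ¬ p ∣ Nat.card K) {k : ℕ} (hk : K.index = p ^ k) (x : G) :
    x ∈ K ↔ ¬ p ∣ orderOf x := by
  constructor
  · intro hx h
    apply hK
    have h1 : orderOf (⟨x, hx⟩ : K) ∣ Nat.card K := orderOf_dvd_natCard _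
    rw [Subgroup.orderOf_mk] at h1
    exact h.trans h1
  · intro hx
    have h1 : x ^ (p ^ k) ∈ K := by
      rw [← hk]; exact K.pow_index_mem x
    have h2 : (orderOf x).Coprime (p ^ k) :=
      (((Nat.Prime.coprime_iff_not_dvd hp.out).2 hx).symm).pow_right k
    obtain ⟨m, hm⟩ := exists_pow_eq_self_of_coprime h2.symm
    rw [← hm]
    exact K.pow_mem h1 m

/-- uniqueness -/
theorem compl_unique {G : Type u} [Group G] [Finite G] {K L : Subgroup G} [K.Normal] [L.Normal]
    (hK : ¬ p ∣ Nat.card K) {k : ℕ} (hk : K.index = p ^ k)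
    (hL : ¬ p ∣ Nat.card L) {l : ℕ} (hl : L.index = p ^ l) : K = L := by
  ext x
  rw [mem_compl_iff hK hk, mem_compl_iff hL hl]

theorem nc_of_injective {G H : Type u} [Group G] [Group H] [Finite G] (f : H →* G)
    (hf : Function.Injective f) (h : NC p G) : NC p H := by
  obtain ⟨K, hK, h1, k, hk⟩ := h
  refine ⟨K.comap f, inferInstance, ?_, ?_⟩
  · intro h2
    apply h1
    refine h2.trans ?_
    have h3 : Function.Injective (f.subgroupComap K) := by
      intro a b hab
      apply Subtype.ext
      apply hf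
      exact congrArg Subtype.val hab
    exact Subgroup.card_dvd_of_injective _ h3
  · have h2 : (K.comap f).index ∣ p ^ k := by
      rw [index_comap, ← hk]
      exact relIndex_dvd_index_of_normal K _
    obtain ⟨j, -, hj⟩ := (Nat.dvd_prime_pow hp.out).1 h2
    exact ⟨j, hj⟩

theorem nc_of_surjective {G H : Type u} [Group G] [Group H] [Finite G] (f : G →* H)
    (hf : Function.Surjective f) (h : NC p G) : NC p H := by
  obtain ⟨K, hK, h1, k, hk⟩ := h
  refine ⟨K.map f, Normal.map hK f hf, ?_, ?_⟩
  · intro h2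
    exact h1 (h2.trans (Subgroup.card_map_dvd K f))
  · have h2 : (K.map f).index ∣ p ^ k := by
      rw [← hk]
      exact index_map_dvd K hf
    obtain ⟨j, -, hj⟩ := (Nat.dvd_prime_pow hp.out).1 h2
    exact ⟨j, hj⟩

theorem nc_mono {G : Type u} [Group G] [Finite G] {A B : Subgroup G} (hAB : A ≤ B)
    (h : NC p B) : NC p A :=
  nc_of_injective (Subgroup.inclusion hAB) (Subgroup.inclusion_injective hAB) h

/-- kernel p' -/
theorem nc_of_quotient {G : Type u} [Group G] [Finite G] (N : Subgroup G) [N.Normal]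
    (hN : ¬ p ∣ Nat.card N) (h : NC p (G ⧸ N)) : NC p G := by
  obtain ⟨K, hK, h1, k, hk⟩ := h
  refine ⟨K.comap (QuotientGroup.mk' N), inferInstance, ?_, k, ?_⟩
  · have h2 : Nat.card (K.comap (QuotientGroup.mk' N)) = Nat.card N * Nat.card K := by
      have h3 := card_mul_index (K.comap (QuotientGroup.mk' N))
      rw [index_comap_of_surjective K (QuotientGroup.mk'_surjective N)] at h3
      have h4 := card_mul_index K
      have h5 := Subgroup.card_eq_card_quotient_mul_card_subgroup N
      have h6 : K.index ≠ 0 := index_ne_zero_of_finite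
      have h7 : (Nat.card (K.comap (QuotientGroup.mk' N))) * K.index =
          (Nat.card N * Nat.card K) * K.index := by
        rw [h3, h5, ← h4]; ring
      exact Nat.eq_of_mul_eq_mul_right (Nat.pos_of_ne_zero h6) h7
    rw [h2, hp.out.dvd_mul]
    tauto
  · rw [index_comap_of_surjective K (QuotientGroup.mk'_surjective N), hk]

/-- the complement of a normal subgroup is normal -/
theorem core_pgroup {G : Type u} [Group G] [Finite G]
    (hG : ∀ N : Subgroup G, N.Normal → ¬ p ∣ Nat.card N → N = ⊥)
    (D : Subgroup G) [hD : D.Normal] (h : NC p D) : IsPGroup p D := by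
  obtain ⟨K, hK, h1, k, hk⟩ := h
  have h2 : (K.map D.subtype).Normal := by
    constructor
    intro x hx g
    rw [Subgroup.mem_map] at hx ⊢
    obtain ⟨y, hy, rfl⟩ := hx
    refine ⟨⟨g * y * g⁻¹, hD.conj_mem _ y.2 g⟩, ?_, rfl⟩
    rw [mem_compl_iff h1 hk] at hy ⊢
    rw [Subgroup.orderOf_mk]
    rw [← Subgroup.orderOf_coe] at hy
    have h3 : orderOf (g * (y : G) * g⁻¹) = orderOf (y : G) := by
      have := (MulAut.conj g).orderOf_eq (y : G)
      simpa [MulAut.conj_apply] using this
    rwa [h3]
  have h3 : K.map D.subtype = ⊥ := hG _ h2 (by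
    rw [Subgroup.card_map_of_injective (Subgroup.subtype_injective D)]
    exact h1)
  have h4 : K = ⊥ := (Subgroup.map_eq_bot_iff_of_injective K (Subgroup.subtype_injective D)).1 h3
  rw [h4, Subgroup.index_bot] at hk
  exact IsPGroup.of_card hk

/-- normal subgroup with a central Sylow p-subgroup has a normal p-complement -/
theorem nc_of_central {D : Type u} [Group D] [Finite D] (Z : Subgroup D) (hZ : IsPGroup p Z)
    (hZc : Z ≤ Subgroup.center D) (hidx : ¬ p ∣ Z.index) : NC p D := by
  let P : Sylow p D := hZ.toSylow hidx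
  have hP : (P : Subgroup D) = Z := rfl
  have hc : normalizer (P : Set D) ≤ centralizer (P : Set D) := by
    intro x _
    rw [mem_centralizer_iff]
    intro z hz
    have : z ∈ Subgroup.center D := hZc hz
    exact ((mem_center_iff.1 this) x).symm
  refine ⟨(MonoidHom.transferSylow P hc).ker, inferInstance,
    MonoidHom.not_dvd_card_ker_transferSylow P hc, ?_⟩
  have h1 := (MonoidHom.ker_transferSylow_isComplement' P hc).symm.index_eq_card
  obtain ⟨k, hk⟩ := P.2.exists_card_eq
  exact ⟨k, h1.trans hk⟩

end TH28
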