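import Pool.Agent.Lib.MP_2b9f9a_al.TH.Red28

namespace TH28

open Subgroup Pool.Agent.Lib.MP_2b9f9a_al.TH

universe u

variable {p : ℕ} [hp : Fact p.Prime]

omit hp in
/-- the preimage of the complement of G/U -/
theorem exists_K {G : Type u} [Group G] [Finite G] (U : Subgroup G) [U.Normal]
    (h : NC p (G ⧸ U)) : ∃ K : Subgroup G, K.Normal ∧ U ≤ K ∧ ¬ p ∣ U.relIndex K ∧
      ∃ k, K.index = p ^ k := by
  obtain ⟨K, hK, h1, k, hk⟩ := h
  have hle : U ≤ K.comap (QuotientGroup.mk' U) := by
    intro x hx
    rw [mem_comap]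
    have : (QuotientGroup.mk' U) x = 1 := by
      rw [← MonoidHom.mem_ker, QuotientGroup.ker_mk']; exact hx
    rw [this]; exact K.one_mem
  refine ⟨K.comap (QuotientGroup.mk' U), inferInstance, hle, ?_, k, ?_⟩
  · have h2 : U.relIndex (K.comap (QuotientGroup.mk' U)) = Nat.card K := by
      have h3 := relIndex_mul_index hle
      rw [index_comap_of_surjective K (QuotientGroup.mk'_surjective U)] at h3
      have h4 := card_mul_index K
      have h6 : K.index ≠ 0 := index_ne_zero_of_finite
      have h5 : U.index = Nat.card (G ⧸ U) := rfl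
      rw [h5, ← h4] at h3
      exact Nat.eq_of_mul_eq_mul_right (Nat.pos_of_ne_zero h6) h3
    rw [h2]; exact h1
  · rw [index_comap_of_surjective K (QuotientGroup.mk'_surjective U), hk]

omit hp in
/-- a subgroup C with C ⊓ K a p-group, K normal of p-power index, is a p-group -/
theorem pgroup_of_inf {G : Type u} [Group G] {K : Subgroup G} [K.Normal]
    {k : ℕ} (hk : K.index = p ^ k) (C : Subgroup G) (h : IsPGroup p (C ⊓ K : Subgroup G)) :
    IsPGroup p C := by
  intro x
  have h1 : (x : G) ^ (p ^ k) ∈ K := by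
    rw [← hk]; exact K.pow_index_mem _
  have h2 : (x : G) ^ (p ^ k) ∈ C := C.pow_mem x.2 _
  obtain ⟨j, hj⟩ := h ⟨(x : G) ^ (p ^ k), h2, h1⟩
  refine ⟨k + j, ?_⟩
  apply Subtype.ext
  have h3 := congrArg Subtype.val hj
  simp only [Subgroup.coe_pow, Subgroup.coe_one] at h3 ⊢
  rw [pow_add, pow_mul, h3]

/-- C_G(U) ≤ U -/
theorem centralizer_le {G : Type u} [Group G] [Finite G]
    (hG : ∀ N : Subgroup G, N.Normal → ¬ p ∣ Nat.card N → N = ⊥)
    (U : Subgroup G) [hUn : U.Normal] (hU : IsPGroup p U)
    (hmax : ∀ N : Subgroup G, N.Normal → IsPGroup p N → N ≤ U)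
    (K : Subgroup G) [hK : K.Normal] (h1 : ¬ p ∣ U.relIndex K) {k : ℕ} (hk : K.index = p ^ k) :
    centralizer (U : Set G) ≤ U := by
  have hCn : (centralizer (U : Set G)).Normal := inferInstance
  set C := centralizer (U : Set G) with hC
  have hDn : (C ⊓ K).Normal := inferInstance
  -- D = C ⊓ K has a central Sylow p-subgroup
  have hD : NC p (C ⊓ K : Subgroup G) := by
    apply nc_of_central (U.subgroupOf (C ⊓ K))
    · exact hU.comap_subtype
    · intro z hz
      rw [mem_center_iff]
      intro g
      apply Subtype.ext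
      have h2 : (z : G) ∈ U := mem_subgroupOf.1 hz
      have h3 : (g : G) ∈ C := g.2.1
      exact ((mem_centralizer_iff.1 h3) _ h2).symm
    · intro h2
      apply h1
      refine h2.trans ?_
      have h3 : (U.subgroupOf (C ⊓ K)).index = U.relIndex (C ⊓ K) := rfl
      rw [h3]
      have h4 : (C ⊓ K) ≤ K := inf_le_right
      -- relIndex U (C ⊓ K) divides relIndex U K as U normal
      have h5 := relIndex_dvd_of_le_left (K := U) (H := U) (C ⊓ K) le_rfl
      have h6 : (U.subgroupOf K).relIndex ((C ⊓ K).subgroupOf K) ∣ (U.subgroupOf K).index :=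
        relIndex_dvd_index_of_normal _ _
      rw [relIndex_subgroupOf h4] at h6
      exact h6
  have hDp := core_pgroup hG (C ⊓ K) hD
  exact hmax C hCn (pgroup_of_inf hk C hDp)

/-- C_G(V) = U -/
theorem centralizer_eq {G : Type u} [Group G] [Finite G]
    (hG : ∀ N : Subgroup G, N.Normal → ¬ p ∣ Nat.card N → N = ⊥)
    (U : Subgroup G)
    (hmax : ∀ N : Subgroup G, N.Normal → IsPGroup p N → N ≤ U)
    (W V : Subgroup G) [V.Normal] (hWV : W ≤ V) (hVU : U ≤ centralizer (V : Set G))
    (hW : NC p (normalizer (W : Set G))) : centralizer (V : Set G) = U := by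
  apply le_antisymm _ hVU
  have h1 : centralizer (V : Set G) ≤ normalizer (W : Set G) := by
    intro x hx
    rw [mem_normalizer_iff]
    intro w
    have hx' := mem_centralizer_iff.1 hx
    constructor
    · intro hw
      have := hx' w (hWV hw)
      have h2 : x * w * x⁻¹ = w := by rw [← this]; group
      rw [h2]; exact hw
    · intro hw
      have := hx' _ (hWV hw)
      have h2 : x * w * x⁻¹ = w := by
        have h3 : x * w * x⁻¹ * x = x * (x * w * x⁻¹) := this
        have h4 : x * w = x * (x * w * x⁻¹) := by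
          rw [← h3]; group
        exact (mul_left_cancel h4).symm
      rw [h2] at hw; exact hw
  exact hmax _ inferInstance (core_pgroup hG _ (nc_mono h1 hW))

end TH28
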