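import Mathlib

set_option autoImplicit false

/-!
# Thompson's theorem on fixed-point-free automorphisms of prime order, part T5

Contents: elementary facts on fixed-point-free automorphisms of finite groups (T5a), the
Frobenius sum (T5b), the solvable case (T5c) and the assembly from Thompson's normal
p-complement theorem (T5d).
-/

namespace Pool.Agent.TH29

open scoped commutatorElement

/-- `phi` has no nontrivial fixed point. -/
def Fpf {G : Type} [Group G] (phi : MulAut G) : Prop := ∀ g : G, phi g = g → g = 1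

section basics

variable {G : Type} [Group G]

lemma inj_comm {phi : MulAut G} (h : Fpf phi) :
    Function.Injective (fun x : G => x⁻¹ * phi x) := by
  intro x y hxy
  have hxy' : x⁻¹ * phi x = y⁻¹ * phi y := hxy
  have : phi (y * x⁻¹) = y * x⁻¹ := by
    rw [map_mul, map_inv]
    have h1 : phi x = x * (y⁻¹ * phi y) := by rw [← hxy']; group
    rw [h1]
    group
  have h2 := h _ this
  rw [mul_inv_eq_one] at h2
  exact h2.symm

lemma surj_comm [Finite G] {phi : MulAut G} (h : Fpf phi) (g : G) :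
    ∃ x : G, x⁻¹ * phi x = g :=
  (Finite.surjective_of_injective (inj_comm h)) g

/-- the restriction of an automorphism to an invariant subgroup -/
noncomputable def res [Finite G] (phi : MulAut G) (H : Subgroup G) (hH : ∀ x ∈ H, phi x ∈ H) :
    MulAut H :=
  MulEquiv.ofBijective
    (((phi : MulAut G).toMonoidHom.comp H.subtype).codRestrict H (fun x => hH x x.2))
    (Finite.injective_iff_bijective.mp (by
      intro x y hxy
      have := congrArg (Subgroup.subtype H) hxy
      exact Subtype.ext (phi.injective this)))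

@[simp] lemma res_coe [Finite G] (phi : MulAut G) (H : Subgroup G) (hH : ∀ x ∈ H, phi x ∈ H)
    (x : H) : ((res phi H hH x : H) : G) = phi (x : G) := rfl

lemma res_pow_coe [Finite G] (phi : MulAut G) (H : Subgroup G) (hH : ∀ x ∈ H, phi x ∈ H)
    (n : ℕ) (x : H) : (((res phi H hH ^ n) x : H) : G) = (phi ^ n) (x : G) := by
  induction n generalizing x with
  | zero => simp
  | succ n ih =>
    rw [pow_succ, pow_succ, MulAut.mul_apply, MulAut.mul_apply, ih]
    rfl

lemma res_pow [Finite G] (phi : MulAut G) (H : Subgroup G) (hH : ∀ x ∈ H, phi x ∈ H)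
    (n : ℕ) (h : phi ^ n = 1) : res phi H hH ^ n = 1 := by
  ext x
  rw [res_pow_coe, h]
  rfl

lemma res_fpf [Finite G] (phi : MulAut G) (H : Subgroup G) (hH : ∀ x ∈ H, phi x ∈ H)
    (h : Fpf phi) : Fpf (res phi H hH) := by
  intro x hx
  have h1 := congrArg (Subtype.val) hx
  rw [res_coe] at h1
  exact Subtype.ext (h _ h1)

lemma map_eq_of_inv [Finite G] (phi : MulAut G) (H : Subgroup G) (hH : ∀ x ∈ H, phi x ∈ H) :
    H.map phi.toMonoidHom = H := by
  apply Subgroup.eq_of_le_of_card_ge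
  · rintro _ ⟨x, hx, rfl⟩
    exact hH x hx
  · rw [Subgroup.card_map_of_injective (f := phi.toMonoidHom) phi.injective]

/-- the automorphism of a quotient by an invariant normal subgroup -/
noncomputable def quo [Finite G] (phi : MulAut G) (N : Subgroup G) [N.Normal]
    (hN : ∀ x ∈ N, phi x ∈ N) : MulAut (G ⧸ N) :=
  QuotientGroup.congr N N phi (map_eq_of_inv phi N hN)

lemma quo_mk [Finite G] (phi : MulAut G) (N : Subgroup G) [N.Normal]
    (hN : ∀ x ∈ N, phi x ∈ N) (x : G) :
    quo phi N hN (QuotientGroup.mk x) = QuotientGroup.mk (phi x) := rfl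

lemma quo_pow_mk [Finite G] (phi : MulAut G) (N : Subgroup G) [N.Normal]
    (hN : ∀ x ∈ N, phi x ∈ N) (n : ℕ) (x : G) :
    (quo phi N hN ^ n) (QuotientGroup.mk x) = QuotientGroup.mk ((phi ^ n) x) := by
  induction n generalizing x with
  | zero => simp
  | succ n ih =>
    rw [pow_succ, pow_succ, MulAut.mul_apply, MulAut.mul_apply, quo_mk, ih]

lemma quo_pow [Finite G] (phi : MulAut G) (N : Subgroup G) [N.Normal]
    (hN : ∀ x ∈ N, phi x ∈ N) (n : ℕ) (h : phi ^ n = 1) : quo phi N hN ^ n = 1 := by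
  ext x
  obtain ⟨x, rfl⟩ := QuotientGroup.mk_surjective x
  rw [quo_pow_mk, h]
  rfl

lemma quo_fpf [Finite G] (phi : MulAut G) (N : Subgroup G) [N.Normal]
    (hN : ∀ x ∈ N, phi x ∈ N) (h : Fpf phi) : Fpf (quo phi N hN) := by
  intro x hx
  obtain ⟨g, rfl⟩ := QuotientGroup.mk_surjective x
  rw [quo_mk] at hx
  have h1 : g⁻¹ * phi g ∈ N := QuotientGroup.eq.mp hx.symm
  obtain ⟨n, hn⟩ := surj_comm (res_fpf phi N hN h) ⟨_, h1⟩
  have h2 : (n : G)⁻¹ * phi n = g⁻¹ * phi g := congrArg Subtype.val hn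
  have h3 := inj_comm h h2
  rw [QuotientGroup.eq_one_iff, ← h3]
  exact n.2

/-- an invariant Sylow subgroup exists -/
lemma exists_inv_sylow [Finite G] (phi : MulAut G) (h : Fpf phi) (q : ℕ) [Fact q.Prime] :
    ∃ P : Sylow q G, ∀ x ∈ P, phi x ∈ P := by
  classical
  obtain ⟨P⟩ := (inferInstance : Nonempty (Sylow q G))
  obtain ⟨g, hg⟩ := MulAction.exists_smul_eq G P (phi • P)
  obtain ⟨x, hx⟩ := surj_comm h g⁻¹
  have hmem : ∀ (a : G) (y : G), y ∈ a • P ↔ ∃ z ∈ P, a * z * a⁻¹ = y := by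
    intro a y
    constructor
    · intro hy
      have : y ∈ ((a • P : Sylow q G) : Subgroup G) := hy
      rw [Sylow.coe_subgroup_smul, Subgroup.mem_smul_pointwise_iff_exists] at this
      obtain ⟨z, hz, rfl⟩ := this
      exact ⟨z, hz, rfl⟩
    · rintro ⟨z, hz, rfl⟩
      show a * z * a⁻¹ ∈ ((a • P : Sylow q G) : Subgroup G)
      rw [Sylow.coe_subgroup_smul, Subgroup.mem_smul_pointwise_iff_exists]
      exact ⟨z, hz, rfl⟩
  have hphi : ∀ z ∈ P, phi z ∈ phi • P := by
    intro z hz
    show phi z ∈ ((phi • P : Sylow q G) : Subgroup G)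
    rw [Sylow.pointwise_smul_def]
    exact Subgroup.smul_mem_pointwise_smul z phi (P : Subgroup G) hz
  refine ⟨x • P, fun y hy => ?_⟩
  obtain ⟨z, hz, rfl⟩ := (hmem x y).mp hy
  have h1 := hphi z hz
  rw [← hg] at h1
  obtain ⟨w, hw, hw2⟩ := (hmem g _).mp h1
  rw [hmem]
  refine ⟨w, hw, ?_⟩
  have hx1 : phi x = x * g⁻¹ := by rw [← hx]; group
  rw [map_mul, map_mul, map_inv, hx1, ← hw2]
  group

end basics

section frob

lemma prod_pow_eq_one {A : Type} [CommGroup A] (psi : MulAut A) (p : ℕ) (hp : psi ^ p = 1)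
    (h : ∀ a, psi a = a → a = 1) (w : A) : ∏ i ∈ Finset.range p, (psi ^ i) w = 1 := by
  apply h
  rw [map_prod]
  have h1 : ∀ i ∈ Finset.range p, psi ((psi ^ i) w) = (psi ^ (i + 1)) w := by
    intro i _
    rw [pow_succ', MulAut.mul_apply]
  rw [Finset.prod_congr rfl h1]
  have h2 := Finset.prod_range_succ (fun i => (psi ^ i) w) p
  rw [Finset.prod_range_succ', hp] at h2
  simpa using h2

lemma pow_fpf {G : Type} [Group G] (phi : MulAut G) {p : ℕ} (hpp : p.Prime) (hp : phi ^ p = 1)
    (h : Fpf phi) (i : ℕ) (hi0 : i ≠ 0) (hi : i < p) : Fpf (phi ^ i) := by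
  intro g hg
  apply h
  have hco : Nat.Coprime i p := by
    rw [Nat.coprime_comm, Nat.Prime.coprime_iff_not_dvd hpp]
    intro hd
    exact absurd (Nat.le_of_dvd (Nat.pos_of_ne_zero hi0) hd) (by omega)
  have h1 : phi ^ i ∈ MulAction.stabilizer (MulAut G) g := hg
  have h2 : phi ^ p ∈ MulAction.stabilizer (MulAut G) g := by
    rw [hp]; exact Subgroup.one_mem _
  have h3 : phi ∈ MulAction.stabilizer (MulAut G) g := by
    have h4 : phi = (phi ^ i) ^ (Nat.gcdA i p) * (phi ^ p) ^ (Nat.gcdB i p) := by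
      have h5 := Nat.gcd_eq_gcd_ab i p
      rw [hco] at h5
      rw [← zpow_natCast, ← zpow_natCast, ← zpow_mul, ← zpow_mul, ← zpow_add, ← h5]
      simp
    rw [h4]
    exact Subgroup.mul_mem _ (Subgroup.zpow_mem _ h1 _) (Subgroup.zpow_mem _ h2 _)
  exact h3

theorem frob_comm {G : Type} [Group G] [Finite G] {p : ℕ} (hpp : p.Prime) (phi : MulAut G)
    (hp : phi ^ p = 1) (h : Fpf phi) (V R : Subgroup G)
    (hVc : ∀ a ∈ V, ∀ b ∈ V, a * b = b * a) (hV : ∀ x ∈ V, phi x ∈ V)
    (hR : ∀ x ∈ R, phi x ∈ R) (hn : ∀ r ∈ R, ∀ v ∈ V, r * v * r⁻¹ ∈ V)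
    (hc : (Nat.card R).Coprime (Nat.card V)) : ∀ r ∈ R, ∀ v ∈ V, r * v = v * r := by
  classical
  let _i1 : CommGroup V :=
    { (inferInstance : Group V) with
      mul_comm := fun a b => Subtype.ext (hVc a a.2 b b.2) }
  have : Fintype R := Fintype.ofFinite R
  let c : R → MulAut V := fun r => res (MulAut.conj (r : G)) V (hn r r.2)
  have hcc : ∀ (r : R) (v : V), ((c r v : V) : G) = r * v * (r : G)⁻¹ := fun r v => rfl
  have hcm : ∀ (r s : R), c (r * s) = c r * c s := by
    intro r s
    ext v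
    rw [MulAut.mul_apply, hcc, hcc, hcc]
    push_cast
    group
  have hc1 : c 1 = 1 := by
    ext v
    rw [hcc]
    simp
  have hcinv : ∀ r : R, (c r)⁻¹ = c r⁻¹ := by
    intro r
    rw [inv_eq_iff_mul_eq_one, ← hcm]
    simp [hc1]
  set pV : MulAut V := res phi V hV with hpV
  set pR : MulAut R := res phi R hR with hpR
  have pVp : pV ^ p = 1 := res_pow phi V hV p hp
  have pRp : pR ^ p = 1 := res_pow phi R hR p hp
  have pVf : Fpf pV := res_fpf phi V hV h
  have pRf : Fpf pR := res_fpf phi R hR h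
  -- compatibility of the two actions
  have hcomp : ∀ (i : ℕ) (r : R), (pV ^ i) * c r = c ((pR ^ i) r) * (pV ^ i) := by
    intro i r
    ext v
    rw [MulAut.mul_apply, MulAut.mul_apply, hcc, res_pow_coe, hcc, res_pow_coe, res_pow_coe]
    simp
  let S : V → V := fun v => ∏ r : R, c r v
  have hS : ∀ (i : ℕ) (v : V), (pV ^ i) (S v) = S ((pV ^ i) v) := by
    intro i v
    simp only [S]
    rw [map_prod]
    have : ∀ r : R, (pV ^ i) (c r v) = c ((pR ^ i) r) ((pV ^ i) v) := by
      intro r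
      have := congrArg (fun (a : MulAut V) => a v) (hcomp i r)
      simpa [MulAut.mul_apply] using this
    rw [Finset.prod_congr rfl (fun r _ => this r)]
    exact Function.Bijective.prod_comp (MulEquiv.bijective (pR ^ i)) (fun r => c r ((pV ^ i) v))
  have hT : ∀ w : V, ∏ i ∈ Finset.range p, (pV ^ i) w = 1 :=
    fun w => prod_pow_eq_one pV p pVp pVf w
  have hr : ∀ (r : R) (v : V), ∏ i ∈ Finset.range p, (c r * pV ^ i * (c r)⁻¹) v = 1 := by
    intro r v
    have := prod_pow_eq_one (c r * pV * (c r)⁻¹) p (by rw [conj_pow, pVp]; simp) (by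
      intro a ha
      have h1 : pV ((c r)⁻¹ a) = (c r)⁻¹ a := by
        have h2 := congrArg (fun x => (c r)⁻¹ x) ha
        simpa [MulAut.mul_apply] using h2
      have h3 := pVf _ h1
      have h4 := congrArg (fun x => (c r) x) h3
      simpa using h4) v
    simpa [conj_pow] using this
  have hi : ∀ i, i ≠ 0 → i < p → ∀ v : V,
      ∏ r : R, (c r * pV ^ i * (c r)⁻¹) v = (pV ^ i) (S v) := by
    intro i hi0 hip v
    rw [hS]
    have hb : Function.Bijective (fun r : R => r * ((pR ^ i) r)⁻¹) := by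
      have h1 := inj_comm (pow_fpf pR hpp pRp pRf i hi0 hip)
      have h2 : Function.Injective (fun r : R => r * ((pR ^ i) r)⁻¹) := by
        intro a b hab
        have h3 : (fun x : R => x⁻¹ * (pR ^ i) x) a⁻¹ = (fun x : R => x⁻¹ * (pR ^ i) x) b⁻¹ := by
          simpa using hab
        exact inv_injective (h1 h3)
      exact Finite.injective_iff_bijective.mp h2
    simp only [S]
    rw [← Function.Bijective.prod_comp hb (fun r => c r ((pV ^ i) v))]
    apply Finset.prod_congr rfl
    intro r _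
    have h5 : c (r * ((pR ^ i) r)⁻¹) * pV ^ i = c r * pV ^ i * (c r)⁻¹ := by
      rw [hcm, mul_assoc, mul_assoc, hcinv r, hcomp i r⁻¹, map_inv]
    rw [← h5]
    rfl
  have hkey : ∀ v : V, S v = v ^ (Nat.card R) := by
    intro v
    have h1 : ∏ r : R, ∏ i ∈ Finset.range p, (c r * pV ^ i * (c r)⁻¹) v = 1 :=
      Finset.prod_eq_one (fun r _ => hr r v)
    rw [Finset.prod_comm] at h1
    have h2 := hT (S v)
    obtain ⟨m, rfl⟩ : ∃ m, p = m + 1 := ⟨p - 1, by have := hpp.pos; omega⟩
    rw [Finset.prod_range_succ'] at h1 h2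
    have h3 : ∏ k ∈ Finset.range m, ∏ r : R, (c r * pV ^ (k + 1) * (c r)⁻¹) v =
        ∏ k ∈ Finset.range m, (pV ^ (k + 1)) (S v) := by
      apply Finset.prod_congr rfl
      intro k hk
      exact hi (k + 1) (by omega) (by have := Finset.mem_range.mp hk; omega) v
    rw [h3] at h1
    have h4 : ∏ r : R, (c r * pV ^ 0 * (c r)⁻¹) v = v ^ (Nat.card R) := by
      simp [Finset.prod_const]
    rw [h4] at h1
    have h5 : (pV ^ 0) (S v) = S v := by simp
    rw [h5] at h2
    exact mul_left_cancel (h2.trans h1.symm)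
  intro r hr' v hv
  have h1 : c ⟨r, hr'⟩ (S ⟨v, hv⟩) = S ⟨v, hv⟩ := by
    simp only [S]
    rw [map_prod]
    rw [← Function.Bijective.prod_comp (Group.mulLeft_bijective (⟨r, hr'⟩ : R))
      (fun s => c s ⟨v, hv⟩)]
    apply Finset.prod_congr rfl
    intro s _
    rw [hcm]
    rfl
  rw [hkey, map_pow] at h1
  have h2 : (c ⟨r, hr'⟩ ⟨v, hv⟩ * (⟨v, hv⟩ : V)⁻¹) ^ Nat.card R = 1 := by
    rw [mul_pow, h1, inv_pow, mul_inv_cancel]
  have h3 : c ⟨r, hr'⟩ ⟨v, hv⟩ * (⟨v, hv⟩ : V)⁻¹ = 1 := by
    have h4 : orderOf (c ⟨r, hr'⟩ ⟨v, hv⟩ * (⟨v, hv⟩ : V)⁻¹) ∣ Nat.card R :=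
      orderOf_dvd_of_pow_eq_one h2
    have h5 : orderOf (c ⟨r, hr'⟩ ⟨v, hv⟩ * (⟨v, hv⟩ : V)⁻¹) ∣ Nat.card V := orderOf_dvd_natCard _
    rw [← orderOf_eq_one_iff]
    exact Nat.dvd_one.mp (hc ▸ Nat.dvd_gcd h4 h5)
  have h6 := congrArg Subtype.val (mul_inv_eq_one.mp h3)
  rw [hcc] at h6
  exact mul_inv_eq_iff_eq_mul.mp h6

end frob

section solvable

/-- The solvable case of Thompson's theorem. -/
theorem solv (n : ℕ) : ∀ (G : Type) [Group G] [Finite G] (p : ℕ), p.Prime →
    ∀ phi : MulAut G, Nat.card G = n → Group.IsSolvable G → phi ^ p = 1 → Fpf phi →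
    Group.IsNilpotent G := by
  induction n using Nat.strong_induction_on with
  | _ n ih =>
  intro G _ _ p hpp phi hcard hsol hp hfix
  rcases subsingleton_or_nontrivial G with hss | hnt
  · exact inferInstance
  -- the last nontrivial term of the derived series
  obtain ⟨k, hk1, hk2⟩ : ∃ k, derivedSeries G k ≠ ⊥ ∧ derivedSeries G (k + 1) = ⊥ := by
    obtain ⟨m, hm⟩ := hsol.solvable
    have h0 : derivedSeries G 0 ≠ ⊥ := by
      rw [derivedSeries_zero]
      exact top_ne_bot
    classical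
    have hex : ∃ m, derivedSeries G m = ⊥ := ⟨m, hm⟩
    have h1 : Nat.find hex ≠ 0 := by
      intro h
      have := Nat.find_spec hex
      rw [h] at this
      exact h0 this
    obtain ⟨k, hk⟩ := Nat.exists_eq_succ_of_ne_zero h1
    refine ⟨k, fun h => ?_, ?_⟩
    · exact Nat.find_min hex (by omega : k < Nat.find hex) h
    · have := Nat.find_spec hex
      rw [hk] at this
      exact this
  set A := derivedSeries G k with hA
  have hAc : ∀ a ∈ A, ∀ b ∈ A, a * b = b * a := by
    intro a ha b hb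
    have h1 : ⁅a, b⁆ ∈ derivedSeries G (k + 1) := by
      rw [derivedSeries_succ]
      exact Subgroup.commutator_mem_commutator ha hb
    rw [hk2, Subgroup.mem_bot, commutatorElement_eq_one_iff_mul_comm] at h1
    exact h1
  have hAchar : A.Characteristic := inferInstance
  have hAnorm : A.Normal := inferInstance
  have hAphi : ∀ x ∈ A, phi x ∈ A := by
    intro x hx
    have h1 := Subgroup.characteristic_iff_map_eq.mp hAchar phi
    rw [← h1]
    exact ⟨x, hx, rfl⟩
  obtain ⟨q, hq, hqd⟩ : ∃ q, q.Prime ∧ q ∣ Nat.card A := by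
    apply Nat.exists_prime_and_dvd
    intro h
    exact hk1 (Subgroup.eq_bot_of_card_eq A h)
  have : Fact q.Prime := ⟨hq⟩
  let V : Subgroup G :=
    { carrier := {v | v ∈ A ∧ v ^ q = 1}
      mul_mem' := by
        rintro a b ⟨ha, ha2⟩ ⟨hb, hb2⟩
        refine ⟨A.mul_mem ha hb, ?_⟩
        have hc : Commute a b := hAc a ha b hb
        rw [hc.mul_pow, ha2, hb2, one_mul]
      one_mem' := ⟨A.one_mem, one_pow q⟩
      inv_mem' := by
        rintro a ⟨ha, ha2⟩
        refine ⟨A.inv_mem ha, ?_⟩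
        rw [inv_pow, ha2, inv_one] }
  have hVmem : ∀ v, v ∈ V ↔ v ∈ A ∧ v ^ q = 1 := fun v => Iff.rfl
  have hVc : ∀ a ∈ V, ∀ b ∈ V, a * b = b * a := fun a ha b hb => hAc a ha.1 b hb.1
  have hVn : V.Normal := by
    refine ⟨fun v hv g => ⟨hAnorm.conj_mem v hv.1 g, ?_⟩⟩
    rw [conj_pow, hv.2]
    simp
  have hVphi : ∀ x ∈ V, phi x ∈ V := by
    intro x hx
    refine ⟨hAphi x hx.1, ?_⟩
    rw [← map_pow, hx.2, map_one]
  have hVp : IsPGroup q V := by
    intro v
    refine ⟨1, Subtype.ext ?_⟩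
    have := v.2.2
    simpa using this
  have hVne : V ≠ ⊥ := by
    obtain ⟨a, ha⟩ := exists_prime_orderOf_dvd_card' (G := A) q hqd
    intro hbot
    have h1 : (a : G) ∈ V := ⟨a.2, by
      have := pow_orderOf_eq_one a
      rw [ha] at this
      simpa using congrArg Subtype.val this⟩
    rw [hbot, Subgroup.mem_bot] at h1
    have h2 : a = 1 := Subtype.ext h1
    rw [h2, orderOf_one] at ha
    exact hq.one_lt.ne ha
  -- the quotient is nilpotent
  have hVcard : 1 < Nat.card V := by
    rw [Subgroup.one_lt_card_iff_ne_bot]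
    exact hVne
  have hquo : Group.IsNilpotent (G ⧸ V) := by
    have hc := Subgroup.card_eq_card_quotient_mul_card_subgroup V
    have hpos : 0 < Nat.card (G ⧸ V) := Nat.card_pos
    have hlt : Nat.card (G ⧸ V) < n := by
      rw [← hcard, hc]
      nlinarith
    have := hsol
    exact ih _ hlt (G ⧸ V) p hpp (quo phi V hVphi) rfl inferInstance
      (quo_pow phi V hVphi p hp) (quo_fpf phi V hVphi hfix)
  -- every Sylow subgroup is normal
  have hsyl : ∀ (r : ℕ) (_hr : Fact r.Prime) (P : Sylow r G), (P : Subgroup G).Normal := by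
    intro r hr P'
    obtain ⟨P, hP⟩ := exists_inv_sylow phi hfix r
    have hPn : (P : Subgroup G).Normal := by
      have hsurj : Function.Surjective (QuotientGroup.mk' V) := QuotientGroup.mk'_surjective V
      have hPbar : ((P.mapSurjective hsurj : Sylow r (G ⧸ V)) : Subgroup (G ⧸ V)).Normal :=
        inferInstance
      rw [Sylow.coe_mapSurjective] at hPbar
      have hM : (V ⊔ (P : Subgroup G)).Normal := by
        have h1 := hPbar.comap (QuotientGroup.mk' V)
        rwa [QuotientGroup.comap_map_mk'] at h1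
      by_cases hrq : r = q
      · subst hrq
        have h1 : V ≤ (P : Subgroup G) := IsPGroup.le_sylow_of_normal hVp P
        rwa [sup_eq_right.mpr h1] at hM
      · have hco : (Nat.card (P : Subgroup G)).Coprime (Nat.card V) :=
          IsPGroup.coprime_card_of_ne r q hrq (P : Subgroup G) V P.isPGroup' hVp
        have hcomm := frob_comm hpp phi hp hfix V (P : Subgroup G) hVc hVphi hP
          (fun r _ v hv => hVn.conj_mem v hv r) hco
        refine ⟨fun x hx g => ?_⟩
        have h1 : g * x * g⁻¹ ∈ V ⊔ (P : Subgroup G) :=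
          hM.conj_mem x ((le_sup_right : (P : Subgroup G) ≤ V ⊔ P) hx) g
        rw [← SetLike.mem_coe, Subgroup.normal_mul] at h1
        obtain ⟨v, hv, s, hs, hvs⟩ := h1
        have hvs' : v * s = g * x * g⁻¹ := hvs
        have hcs : Commute v s := (hcomm s hs v hv).symm
        have hxc : x ^ Nat.card P = 1 := by
          exact congrArg Subtype.val (pow_card_eq_one' (x := (⟨x, hx⟩ : (P : Subgroup G))))
        have hsc : s ^ Nat.card P = 1 := by
          exact congrArg Subtype.val (pow_card_eq_one' (x := (⟨s, hs⟩ : (P : Subgroup G))))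
        have h2 : (v * s) ^ Nat.card P = 1 := by
          rw [hvs', conj_pow, hxc]
          simp
        rw [hcs.mul_pow, hsc, mul_one] at h2
        have hv1 : (⟨v, hv⟩ : V) = 1 := by
          have h4 : orderOf (⟨v, hv⟩ : V) ∣ Nat.card P :=
            orderOf_dvd_of_pow_eq_one (Subtype.ext (by simpa using h2))
          have h5 : orderOf (⟨v, hv⟩ : V) ∣ Nat.card V := orderOf_dvd_natCard _
          rw [← orderOf_eq_one_iff]
          exact Nat.dvd_one.mp (hco ▸ Nat.dvd_gcd h4 h5)
        have hv2 : v = 1 := congrArg Subtype.val hv1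
        rw [hv2, one_mul] at hvs'
        rw [← hvs']
        exact hs
    obtain ⟨g, hg⟩ := MulAction.exists_smul_eq G P P'
    rw [Sylow.smul_eq_of_normal] at hg
    rw [← hg]
    exact hPn
  exact ((Group.isNilpotent_of_finite_tfae (G := G)).out 0 3).mpr hsyl

end solvable

end Pool.Agent.TH29
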